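import Pool.Agent.Helper32.SD.Base

/-!
# SD: barycentric subdivisions of shellable spheres, definitions

`U` is the type of the vertices of a simplicial complex; the vertices of its barycentric
subdivision are finite sets of elements of `U`. The type `Finset U ⊕ Bool` has two spare vertices
`inr false` (called `e`) and `inr true` (called `d`).
-/

open Finset

namespace Pool.Agent.Helper32.SD

variable {U : Type} [DecidableEq U]

/-- `Shelled σ N s F R`: the sets `F 0, ..., F (s-1)` contain `σ` and have `|σ| + N` elements, and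
they are the facets of a shelled sphere (of dimension `N - 1`, when `σ` is removed from them): the
faces of `F i` contained in earlier facets are those not containing `R i`, and the faces of `F i`
contained in later facets are those not containing the complement of `R i`. -/
structure Shelled (σ : Finset U) (N s : ℕ) (F R : ℕ → Finset U) : Prop where
  pos : 0 < s
  base : ∀ i < s, σ ⊆ F i
  card : ∀ i < s, (F i).card = σ.card + N
  sub : ∀ i < s, R i ⊆ F i \ σ
  early : ∀ i < s, ∀ A : Finset U, σ ⊆ A → A ⊆ F i → ((∃ j < i, A ⊆ F j) ↔ ¬ R i ⊆ A)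
  late : ∀ i < s, ∀ A : Finset U, σ ⊆ A → A ⊆ F i →
    ((∃ j, i < j ∧ j < s ∧ A ⊆ F j) ↔ ¬ (F i \ σ) \ R i ⊆ A)

/-- The sets strictly containing `σ` and contained in some `F j` with `a ≤ j < b`. -/
def fc (σ : Finset U) (F : ℕ → Finset U) (a b : ℕ) : Set (Finset U) :=
  {A | σ ⊂ A ∧ ∃ j, a ≤ j ∧ j < b ∧ A ⊆ F j}

/-- The chains of members of `Q`. -/
def Dl (Q : Set (Finset U)) : Set (Finset (Finset U ⊕ Bool)) :=
  {τ | (∀ x ∈ τ, ∃ A ∈ Q, x = Sum.inl A) ∧
    ∀ A B : Finset U, Sum.inl A ∈ τ → Sum.inl B ∈ τ → A ⊆ B ∨ B ⊆ A}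

/-- The adjacency of `St`. -/
def stAdj (Θe Θd : Set (Finset U)) : Finset U ⊕ Bool → Finset U ⊕ Bool → Prop
  | Sum.inl A, Sum.inl B => A ⊂ B ∨ B ⊂ A
  | Sum.inl A, Sum.inr b => A ∈ cond b Θd Θe
  | Sum.inr b, Sum.inl A => A ∈ cond b Θd Θe
  | Sum.inr a, Sum.inr b => a ≠ b

/-- The graph of comparability, with the spare vertex `e = inr false` joined to `Θe`, the spare
vertex `d = inr true` joined to `Θd`, and `e` joined to `d`. -/
def St (Θe Θd : Set (Finset U)) : SimpleGraph (Finset U ⊕ Bool) where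
  Adj := stAdj Θe Θd
  symm := ⟨by
    rintro (A | a) (B | b) h
    · exact (h : A ⊂ B ∨ B ⊂ A).symm
    · exact h
    · exact h
    · exact Ne.symm (h : a ≠ b)⟩
  loopless := ⟨by
    rintro (A | a) h
    · exact (h : A ⊂ A ∨ A ⊂ A).elim (fun h => h.ne rfl) (fun h => h.ne rfl)
    · exact (h : a ≠ a) rfl⟩

end Pool.Agent.Helper32.SD
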