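import Mathlib

/-!
# SD-6 Gap: an odd number of even gaps

PROOF. `S ⊆ {1, ..., m}` with `|S|` odd and `m` even: two consecutive elements `a < b` of
`{0} ∪ S ∪ {m+1}` have `b - a` even. If all differences of consecutive elements were odd, the sum
`m + 1` of the `|S| + 1` differences would be even. For Lean: show by strong induction on `x` that,
if no such gap exists, then every `x ∈ S ∪ {m+1}` satisfies: `x` is congruent modulo 2 to
`1 + #{y ∈ S | y < x}` (the largest `y ∈ S ∪ {0}` with `y < x`).
-/

open Finset

namespace Pool.Agent.Helper32.SD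

theorem gap {m : ℕ} (S : Finset ℕ) (hS : ∀ x ∈ S, 1 ≤ x ∧ x ≤ m) (hm : Even m)
    (hodd : Odd S.card) : ∃ a b : ℕ, (a = 0 ∨ a ∈ S) ∧ (b = m + 1 ∨ b ∈ S) ∧ a < b ∧
      (∀ x ∈ S, ¬ (a < x ∧ x < b)) ∧ Odd (b - a - 1) := by
  by_contra hno
  push Not at hno
  have key : ∀ x : ℕ, (x = m + 1 ∨ x ∈ S) → x % 2 = (1 + (S.filter (· < x)).card) % 2 := by
    intro x
    induction x using Nat.strong_induction_on with
    | _ x ih =>
      intro hx
      have hx0 : 0 < x := by
        rcases hx with h | h
        · omega
        · exact (hS x h).1
      by_cases hT : (S.filter (· < x)).Nonempty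
      · have hamem := Finset.max'_mem _ hT
        set a := (S.filter (· < x)).max' hT with ha
        rw [Finset.mem_filter] at hamem
        have h1 := hno a x (Or.inr hamem.1) hx hamem.2 (by
          intro z hz h1
          by_contra h2
          have h3 := Finset.le_max' (S.filter (· < x)) z (Finset.mem_filter.2 ⟨hz, by omega⟩)
          omega)
        have h2 := ih a hamem.2 (Or.inr hamem.1)
        have h3 : S.filter (· < x) = insert a (S.filter (· < a)) := by
          ext z
          simp only [Finset.mem_filter, Finset.mem_insert]
          constructor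
          · rintro ⟨hz, hzx⟩
            have h4 := Finset.le_max' (S.filter (· < x)) z (Finset.mem_filter.2 ⟨hz, hzx⟩)
            rcases h4.eq_or_lt with h | h
            · exact Or.inl h
            · exact Or.inr ⟨hz, h⟩
          · rintro (h | ⟨hz, hza⟩)
            · rw [h]
              exact hamem
            · exact ⟨hz, hza.trans hamem.2⟩
        rw [h3, Finset.card_insert_of_notMem (by simp)]
        have h4 : ¬ ((x - a - 1) % 2 = 1) := fun h => h1 (Nat.odd_iff.2 h)
        have h5 := hamem.2
        omega
      · have hT' : S.filter (· < x) = ∅ := Finset.not_nonempty_iff_eq_empty.1 hT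
        have h1 := hno 0 x (Or.inl rfl) hx hx0 (by
          intro z hz _
          by_contra h2
          have : z ∈ S.filter (· < x) := Finset.mem_filter.2 ⟨hz, by omega⟩
          rw [hT'] at this
          exact absurd this (Finset.notMem_empty z))
        have h4 : ¬ ((x - 0 - 1) % 2 = 1) := fun h => h1 (Nat.odd_iff.2 h)
        rw [hT', Finset.card_empty]
        omega
  have h := key (m + 1) (Or.inl rfl)
  have hf : S.filter (· < m + 1) = S := Finset.filter_true_of_mem (fun x hx => by
    have := (hS x hx).2
    omega)
  rw [hf] at h
  have h1 := Nat.even_iff.1 hm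
  have h2 := Nat.odd_iff.1 hodd
  omega

end Pool.Agent.Helper32.SD
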