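import Pool.Agent.Helper32.SD.Sphere
import Pool.Agent.Helper32.SD.Gap
import Pool.Agent.Helper51.CD.Cube

/-!
# SD-7 Links: the links of the odd chains of faces are good

PROOF. Let `ρ` be an odd clique of `H`; the sizes of the sets `φ y`, `y ∈ ρ`, are distinct elements of
`{1, ..., 2n}` (`φ` is injective, chains of sets have distinct sizes). Let `a, b` be from `gap`
(`m = 2n`), `σ = φ y` with `|σ| = a` (`σ = ∅` if `a = 0`). If `b ∈ S`, let `B = φ z` with `|B| = b`:
the common neighbours of `ρ` between `σ` and `B` form, under `φ`, the set `{A | σ ⊂ A ⊂ B}`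
(`down`; an element comparable with all of `ρ`, larger than `σ` and smaller than `B`); `shelled_simplex`
and `sphere`. If `b = 2n+1`: then `a ∈ S` (otherwise `S = ∅`), `|σ|` is odd, the common neighbours
above `σ` form the set `{A ∈ T | σ ⊂ A}`; `link` and `sphere`.
Let `K` be the set of cliques consisting of such vertices: it is good by `Gd.relabel` with
`f y = Sum.inl (φ y)`. Let `M` be the set of the cliques consisting of the other common neighbours: they are
all adjacent to the vertices of `K` (an element of `M` is smaller than or equal... to `σ`, hence below,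
or above `B`). Then `cliquesIn H (commonNbrs H ρ) = jn K M` and `Gd.join` applies.
-/

open Finset Pool.Agent.Helper51.CD Pool.Agent.Helper51.CD.Cube

namespace Pool.Agent.Helper32.SD

/-- `T` is a simplicial complex with faces of at most `2n` elements in which the link of every face
with an odd number of elements is a shelled sphere of dimension `2n - 1 - |σ|`. -/
structure ShellableLinks {U : Type} [DecidableEq U] (n : ℕ) (T : Set (Finset U)) : Prop where
  down : ∀ A ∈ T, ∀ B : Finset U, B ⊆ A → B ∈ T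
  dim : ∀ A ∈ T, A.card ≤ 2 * n
  link : ∀ σ ∈ T, Odd σ.card → ∃ (s : ℕ) (F R : ℕ → Finset U),
    Shelled σ (2 * n - σ.card) s F R ∧ ∀ A, σ ⊂ A → (A ∈ T ↔ ∃ j < s, A ⊆ F j)

namespace LinksAux

variable {U Y : Type} [DecidableEq U]

/-- In a clique, the order of the sizes is the order of inclusion. -/
theorem sub_of_card {H : SimpleGraph Y} {φ : Y ↪ Finset U}
    (hH : ∀ x y, H.Adj x y ↔ φ x ⊂ φ y ∨ φ y ⊂ φ x) {ρ : Finset Y}
    (hρ : H.IsClique (ρ : Set Y)) {x y : Y} (hx : x ∈ ρ) (hy : y ∈ ρ)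
    (h : (φ x).card ≤ (φ y).card) : φ x ⊆ φ y := by
  by_cases e : x = y
  · rw [e]
  · rcases (hH x y).1 (hρ (Finset.mem_coe.2 hx) (Finset.mem_coe.2 hy) e) with h1 | h1
    · exact h1.1
    · exact absurd (Finset.card_lt_card h1) (by omega)

/-- The sizes of the members of a clique are distinct. -/
theorem card_injOn {H : SimpleGraph Y} {φ : Y ↪ Finset U}
    (hH : ∀ x y, H.Adj x y ↔ φ x ⊂ φ y ∨ φ y ⊂ φ x) {ρ : Finset Y}
    (hρ : H.IsClique (ρ : Set Y)) : Set.InjOn (fun y => (φ y).card) (ρ : Set Y) := by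
  intro x hx y hy h
  have h' : (φ x).card = (φ y).card := h
  exact φ.injective (Finset.Subset.antisymm
    (sub_of_card hH hρ (Finset.mem_coe.1 hx) (Finset.mem_coe.1 hy) h'.le)
    (sub_of_card hH hρ (Finset.mem_coe.1 hy) (Finset.mem_coe.1 hx) h'.ge))

/-- The general argument: the common neighbours in `W` form a good complex, joined to the rest. -/
theorem main [Fintype U] [Fintype Y] {T : Set (Finset U)} {H : SimpleGraph Y} (φ : Y ↪ Finset U)
    (hφ : ∀ A, (∃ y, φ y = A) ↔ A ∈ T ∧ A.Nonempty)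
    (hH : ∀ x y, H.Adj x y ↔ φ x ⊂ φ y ∨ φ y ⊂ φ x) (ρ : Finset Y) (W : Set (Finset U))
    (h1 : ∀ A ∈ W, A ∈ T ∧ A.Nonempty) (h2 : ∀ A ∈ W, ∀ u ∈ ρ, φ u ⊂ A ∨ A ⊂ φ u)
    (h3 : ∀ y, (∀ u ∈ ρ, H.Adj u y) → φ y ∉ W → ∀ A ∈ W, A ⊂ φ y ∨ φ y ⊂ A)
    (h4 : Gd (St ∅ ∅) (Dl W)) : Gd H ↑(cliquesIn H (commonNbrs H ρ)) := by
  classical
  have hcxs : ∀ Z : Set Y, IsCx H {τ : Finset Y | τ ⊆ commonNbrs H ρ ∧ H.IsClique (τ : Set Y) ∧
      ∀ y ∈ τ, y ∈ Z} := by
    intro Z
    constructor
    · intro τ hτ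
      exact hτ.2.1
    · intro τ hτ π hπ
      exact ⟨hπ.trans hτ.1, hτ.2.1.subset (by exact_mod_cast hπ), fun y hy => hτ.2.2 y (hπ hy)⟩
  set K : Set (Finset Y) := {τ : Finset Y | τ ⊆ commonNbrs H ρ ∧ H.IsClique (τ : Set Y) ∧
      ∀ y ∈ τ, y ∈ {y | φ y ∈ W}} with hKdef
  set M : Set (Finset Y) := {τ : Finset Y | τ ⊆ commonNbrs H ρ ∧ H.IsClique (τ : Set Y) ∧
      ∀ y ∈ τ, y ∈ {y | φ y ∉ W}} with hMdef
  have hKcx : IsCx H K := hcxs _
  have hMcx : IsCx H M := hcxs _
  have hadj : ∀ α ∈ K, ∀ β ∈ M, ∀ x ∈ α, ∀ y ∈ β, H.Adj x y := by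
    intro α hα β hβ x hx y hy
    have hxW : φ x ∈ W := hα.2.2 x hx
    have hyW : φ y ∉ W := hβ.2.2 y hy
    exact (hH x y).2 (h3 y (mem_commonNbrs.1 (hβ.1 hy)) hyW _ hxW)
  have hmem : ∀ y, φ y ∈ W → y ∈ commonNbrs H ρ := by
    intro y hy
    rw [mem_commonNbrs]
    intro u hu
    exact (hH u y).2 (h2 _ hy u hu)
  have hKgd : Gd H K := by
    refine Gd.relabel (G' := St ∅ ∅) (φ.trans ⟨Sum.inl, Sum.inl_injective⟩) hKcx ?_ ?_
    · intro x y _ _ hxy
      exact (hH x y).1 hxy
    · have he : (fun τ : Finset Y => τ.map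
          (φ.trans (⟨Sum.inl, Sum.inl_injective⟩ : Finset U ↪ Finset U ⊕ Bool))) '' K = Dl W := by
        ext τ'
        constructor
        · rintro ⟨τ, hτ, rfl⟩
          constructor
          · intro x hx
            rw [Finset.mem_map] at hx
            obtain ⟨y, hy, rfl⟩ := hx
            exact ⟨φ y, hτ.2.2 y hy, rfl⟩
          · intro A B hA hB
            rw [Finset.mem_map] at hA hB
            obtain ⟨y, hy, hyA⟩ := hA
            obtain ⟨z, hz, hzB⟩ := hB
            have hyA' : φ y = A := Sum.inl_injective hyA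
            have hzB' : φ z = B := Sum.inl_injective hzB
            rw [← hyA', ← hzB']
            by_cases e : y = z
            · rw [e]
              exact Or.inl (Finset.Subset.refl _)
            · rcases (hH y z).1 (hτ.2.1 (Finset.mem_coe.2 hy) (Finset.mem_coe.2 hz) e) with h | h
              · exact Or.inl h.1
              · exact Or.inr h.1
        · rintro ⟨hd1, hd2⟩
          refine ⟨Finset.univ.filter (fun y => (Sum.inl (φ y) : Finset U ⊕ Bool) ∈ τ'), ?_, ?_⟩
          · have hW : ∀ y, (Sum.inl (φ y) : Finset U ⊕ Bool) ∈ τ' → φ y ∈ W := by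
              intro y hy
              obtain ⟨A, hA, hAe⟩ := hd1 _ hy
              rw [Sum.inl_injective hAe]
              exact hA
            refine ⟨?_, ?_, ?_⟩
            · intro y hy
              exact hmem y (hW y (Finset.mem_filter.1 hy).2)
            · intro y hy z hz hyz
              have hy' := (Finset.mem_filter.1 (Finset.mem_coe.1 hy)).2
              have hz' := (Finset.mem_filter.1 (Finset.mem_coe.1 hz)).2
              have hne : φ y ≠ φ z := fun e => hyz (φ.injective e)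
              rw [hH]
              rcases hd2 _ _ hy' hz' with h | h
              · exact Or.inl (Finset.ssubset_iff_subset_ne.2 ⟨h, hne⟩)
              · exact Or.inr (Finset.ssubset_iff_subset_ne.2 ⟨h, hne.symm⟩)
            · intro y hy
              exact hW y (Finset.mem_filter.1 hy).2
          · ext x
            simp only [Finset.mem_map, Finset.mem_filter, Finset.mem_univ, true_and]
            constructor
            · rintro ⟨y, hy, rfl⟩
              exact hy
            · intro hx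
              obtain ⟨A, hA, rfl⟩ := hd1 _ hx
              obtain ⟨y, rfl⟩ := (hφ A).2 (h1 A hA)
              exact ⟨y, hx, rfl⟩
      rw [he]
      exact h4
  have h0 : (∅ : Finset Y) ∈ M := by
    refine ⟨Finset.empty_subset _, ?_, ?_⟩
    · intro x hx
      simp at hx
    · intro y hy
      simp at hy
  have hjoin : (↑(cliquesIn H (commonNbrs H ρ)) : Set (Finset Y)) = jn K M := by
    ext τ
    rw [Finset.mem_coe, mem_cliquesIn]
    constructor
    · rintro ⟨hs, hc⟩
      refine ⟨τ.filter (fun y => φ y ∈ W), ?_, τ.filter (fun y => ¬ φ y ∈ W), ?_,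
        Finset.filter_union_filter_not_eq _ _⟩
      · refine ⟨(Finset.filter_subset _ _).trans hs, hc.subset ?_, ?_⟩
        · exact_mod_cast Finset.filter_subset _ _
        · intro y hy
          exact (Finset.mem_filter.1 hy).2
      · refine ⟨(Finset.filter_subset _ _).trans hs, hc.subset ?_, ?_⟩
        · exact_mod_cast Finset.filter_subset _ _
        · intro y hy
          exact (Finset.mem_filter.1 hy).2
    · rintro ⟨α, hα, β, hβ, rfl⟩
      refine ⟨Finset.union_subset hα.1 hβ.1, ?_⟩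
      intro x hx y hy hxy
      rw [Finset.mem_coe, Finset.mem_union] at hx hy
      rcases hx with hx | hx <;> rcases hy with hy | hy
      · exact hα.2.1 (Finset.mem_coe.2 hx) (Finset.mem_coe.2 hy) hxy
      · exact hadj α hα β hβ x hx y hy
      · exact (hadj α hα β hβ y hy x hx).symm
      · exact hβ.2.1 (Finset.mem_coe.2 hx) (Finset.mem_coe.2 hy) hxy
  rw [hjoin]
  exact hKgd.join hMcx h0 hadj

end LinksAux

open LinksAux in
theorem links {U Y : Type} [Fintype U] [DecidableEq U] [Fintype Y] {n : ℕ} {T : Set (Finset U)}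
    (hT : ShellableLinks n T) {H : SimpleGraph Y} (φ : Y ↪ Finset U)
    (hφ : ∀ A, (∃ y, φ y = A) ↔ A ∈ T ∧ A.Nonempty)
    (hH : ∀ x y, H.Adj x y ↔ φ x ⊂ φ y ∨ φ y ⊂ φ x) (ρ : Finset Y)
    (hρ : H.IsClique (ρ : Set Y)) (hodd : Odd ρ.card) :
    Gd H ↑(cliquesIn H (commonNbrs H ρ)) := by
  classical
  have hyT : ∀ y, φ y ∈ T ∧ (φ y).Nonempty := fun y => (hφ _).1 ⟨y, rfl⟩
  have hScard : (ρ.image (fun y => (φ y).card)).card = ρ.card :=
    Finset.card_image_of_injOn (card_injOn hH hρ)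
  obtain ⟨a, b, ha, hb, hab, hgap, hodd2⟩ := gap (m := 2 * n) (ρ.image (fun y => (φ y).card))
    (by
      intro x hx
      obtain ⟨y, _, rfl⟩ := Finset.mem_image.1 hx
      exact ⟨Finset.card_pos.2 (hyT y).2, hT.dim _ (hyT y).1⟩)
    (even_two_mul n) (by rw [hScard]; exact hodd)
  have hgap' : ∀ u ∈ ρ, (φ u).card ≤ a ∨ b ≤ (φ u).card := by
    intro u hu
    have := hgap _ (Finset.mem_image_of_mem _ hu)
    omega
  -- the lower end
  obtain ⟨σ, hσcard, hσlow, hσup, hσT⟩ : ∃ σ : Finset U, σ.card = a ∧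
      (∀ u ∈ ρ, (φ u).card ≤ a → φ u ⊆ σ) ∧
      (∀ y, (∀ u ∈ ρ, H.Adj u y) → σ ⊂ φ y ∨ φ y ⊂ σ) ∧ (a = 0 ∨ ∃ y ∈ ρ, φ y = σ) := by
    rcases ha with ha | ha
    · refine ⟨∅, by rw [ha, Finset.card_empty], ?_, ?_, Or.inl ha⟩
      · intro u _ h
        exact absurd (Finset.card_pos.2 (hyT u).2) (by omega)
      · intro y _
        exact Or.inl (Finset.empty_ssubset.2 (hyT y).2)
    · obtain ⟨y, hy, hya⟩ := Finset.mem_image.1 ha
      have hya' : (φ y).card = a := hya
      refine ⟨φ y, hya', ?_, ?_, Or.inr ⟨y, hy, rfl⟩⟩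
      · intro u hu h
        exact sub_of_card hH hρ hu hy (by omega)
      · intro z hz
        exact (hH y z).1 (hz y hy)
  have hb2 : b = 2 * n + 1 ∨ ∃ z ∈ ρ, (φ z).card = b := by
    rcases hb with hb | hb
    · exact Or.inl hb
    · obtain ⟨z, hz, hzb⟩ := Finset.mem_image.1 hb
      exact Or.inr ⟨z, hz, hzb⟩
  rcases hb2 with hb2 | ⟨z, hz, hzb⟩
  · -- the upper end is free
    have hylt : ∀ u ∈ ρ, (φ u).card ≤ a := by
      intro u hu
      have h1 := hgap' u hu
      have h2 := hT.dim _ (hyT u).1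
      omega
    obtain ⟨y, hy⟩ : ρ.Nonempty := by
      rw [← Finset.card_pos]
      exact hodd.pos
    have hapos : a ≠ 0 := by
      intro h
      have h1 := hylt y hy
      have h2 := Finset.card_pos.2 (hyT y).2
      omega
    obtain ⟨w, hw, hwσ⟩ := hσT.resolve_left hapos
    have hσT' : σ ∈ T := hwσ ▸ (hyT w).1
    have hale : a ≤ 2 * n := by
      rw [← hσcard]
      exact hT.dim _ hσT'
    have hN : b - a - 1 = 2 * n - a := by omega
    rw [hN] at hodd2
    have haodd : Odd σ.card := by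
      rw [hσcard]
      by_contra h
      rw [Nat.not_odd_iff_even] at h
      exact (Nat.not_even_iff_odd.2 hodd2) ((Nat.even_sub hale).2 (by simp [h]))
    obtain ⟨s, F, R, hsh, hlink⟩ := hT.link σ hσT' haodd
    have hmemW : ∀ A, A ∈ fc σ F 0 s ↔ σ ⊂ A ∧ A ∈ T := by
      intro A
      constructor
      · rintro ⟨h1, j, _, h2, h3⟩
        exact ⟨h1, (hlink A h1).2 ⟨j, h2, h3⟩⟩
      · rintro ⟨h1, h2⟩
        obtain ⟨j, h3, h4⟩ := (hlink A h1).1 h2
        exact ⟨h1, j, Nat.zero_le _, h3, h4⟩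
    refine main (T := T) φ hφ hH ρ (fc σ F 0 s) ?_ ?_ ?_ ?_
    · intro A hA
      rw [hmemW] at hA
      exact ⟨hA.2, Finset.card_pos.1 (lt_of_le_of_lt (Nat.zero_le _) (Finset.card_lt_card hA.1))⟩
    · intro A hA u hu
      rw [hmemW] at hA
      exact Or.inl (Finset.ssubset_of_subset_of_ssubset (hσlow u hu (hylt u hu)) hA.1)
    · intro y hy hyW A hA
      rw [hmemW] at hA hyW
      right
      rcases hσup y hy with h | h
      · exact absurd ⟨h, (hyT y).1⟩ hyW
      · exact h.trans hA.1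
    · exact sphere _ (by rw [hσcard]; exact hodd2) σ s F R hsh
  · -- the upper end is a member of the chain
    have hσB : σ ⊂ φ z := by
      rcases hσT with h | ⟨w, hw, rfl⟩
      · have h1 : σ = ∅ := by
          rw [← Finset.card_eq_zero, hσcard, h]
        rw [h1]
        exact Finset.empty_ssubset.2 (hyT z).2
      · have h1 : φ w ⊆ φ z := sub_of_card hH hρ hw hz (by omega)
        refine Finset.ssubset_iff_subset_ne.2 ⟨h1, fun e => ?_⟩
        rw [e] at hσcard
        omega
    have hBlow : ∀ u ∈ ρ, b ≤ (φ u).card → φ z ⊆ φ u := by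
      intro u hu h
      exact sub_of_card hH hρ hz hu (by omega)
    obtain ⟨s, F, R, hsh, hmemW⟩ := shelled_simplex σ (φ z) hσB
    refine main (T := T) φ hφ hH ρ (fc σ F 0 s) ?_ ?_ ?_ ?_
    · intro A hA
      rw [hmemW] at hA
      exact ⟨hT.down _ (hyT z).1 _ hA.2.1, Finset.card_pos.1 (lt_of_le_of_lt (Nat.zero_le _) (Finset.card_lt_card hA.1))⟩
    · intro A hA u hu
      rw [hmemW] at hA
      rcases hgap' u hu with h | h
      · exact Or.inl (Finset.ssubset_of_subset_of_ssubset (hσlow u hu h) hA.1)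
      · exact Or.inr (Finset.ssubset_of_ssubset_of_subset hA.2 (hBlow u hu h))
    · intro y hy hyW A hA
      rw [hmemW] at hA hyW
      rcases hσup y hy with h | h
      · left
        rcases (hH z y).1 (hy z hz) with h' | h'
        · exact hA.2.trans h'
        · exact absurd ⟨h, h'⟩ hyW
      · exact Or.inr (h.trans hA.1)
    · refine sphere _ ?_ σ s F R hsh
      rw [hzb, hσcard]
      exact hodd2

theorem links_dim {U Y : Type} [Fintype U] [DecidableEq U] [Fintype Y] {n : ℕ}
    {T : Set (Finset U)} (hT : ShellableLinks n T) {H : SimpleGraph Y} (φ : Y ↪ Finset U)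
    (hφ : ∀ A, (∃ y, φ y = A) ↔ A ∈ T ∧ A.Nonempty)
    (hH : ∀ x y, H.Adj x y ↔ φ x ⊂ φ y ∨ φ y ⊂ φ x) (ρ : Finset Y)
    (hρ : H.IsClique (ρ : Set Y)) : ρ.card ≤ 2 * n := by
  have hyT : ∀ y, φ y ∈ T ∧ (φ y).Nonempty := fun y => (hφ _).1 ⟨y, rfl⟩
  have h1 := Finset.card_le_card_of_injOn (s := ρ) (t := Finset.Icc 1 (2 * n))
    (fun y => (φ y).card) (by
      intro y _
      exact Finset.mem_coe.2 (Finset.mem_Icc.2 ⟨Finset.card_pos.2 (hyT y).2, hT.dim _ (hyT y).1⟩))
    (LinksAux.card_injOn hH hρ)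
  rw [Nat.card_Icc] at h1
  omega

end Pool.Agent.Helper32.SD
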