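import Pool.Agent.Helper32.SD.ShCM
import Pool.Agent.Helper32.SD.Links
import Pool.Agent.Helper51.CD.CertDefs

/-!
# SC-3 ChCM: links of chains of faces have no cohomology below the top

PROOFS. `between_cm`: `shelled_simplex σ B` and `shelled_cm` (`fc = {A | σ ⊂ A ⊂ B}`).
`low_cm` (induction on `|c|`): let `B` be the maximum of `c`. `c = {B}`: `between_cm ∅ B`. Otherwise let
`B'` be the maximum of `c' = c.erase B`; `low c B = low c' B' ∪ {A | B' ⊂ A ⊂ B}` and the chains in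
this set are the join of the chains in the two parts (every member of the first is `⊂ B' ⊂` every
member of the second), `Cm.comp`, and `|B'| - |c'| + (|B| - |B'| - 1) = |B| - |c|` (`|c'| ≤ |B'|`).
`chain_cm`: with the maximum `B` of `c`, the set is `low c B ∪ {A ∈ T | B ⊂ A}`, join again
(`link` at `B`, `shelled_cm`), `|B| - |c| + 2n - |B| = 2n - |c|`.
`exactLink_chain`: let `c = ρ.map φ`. Choose a linear order on `Finset U ⊕ Bool` for which
`f y = inl (φ y)` is monotone (see the module comment of SD/Relabel.lean; `LinearOrder.lift'`), apply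
`chain_cm` and `Cm.exact`; given `f0` as in `ExactLink` define the cochain `c' (τ.map f) = f0 τ` for
`τ` in the link with `j` elements, `0` elsewhere; a primitive `b'` gives `g τ = b' (τ.map f)`
(`Di_apply`, `const_Pr_one` in CD).
-/

open Finset Pool.Agent.Helper51.CD Pool.Agent.Helper51.CD.Cube

namespace Pool.Agent.Helper32.SD

/-- the nonempty sets strictly below `B` that are comparable with all members of `c` -/
def low {U : Type} [DecidableEq U] (c : Finset (Finset U)) (B : Finset U) : Set (Finset U) :=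
  {A | A.Nonempty ∧ A ⊂ B ∧ ∀ C ∈ c, A ⊂ C ∨ C ⊂ A}

namespace ChAux

theorem dl_join {U : Type} [DecidableEq U] (i : DecidableEq (Finset U ⊕ Bool))
    {P Q : Set (Finset U)} (h : ∀ A ∈ P, ∀ B ∈ Q, A ⊂ B) :
    @jn _ i (Dl P) (Dl Q) = Dl (P ∪ Q) := by
  classical
  ext τ
  constructor
  · rintro ⟨α, hα, β, hβ, rfl⟩
    constructor
    · intro x hx
      rcases Finset.mem_union.1 hx with hx | hx
      · obtain ⟨A, hA, rfl⟩ := hα.1 x hx
        exact ⟨A, Or.inl hA, rfl⟩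
      · obtain ⟨A, hA, rfl⟩ := hβ.1 x hx
        exact ⟨A, Or.inr hA, rfl⟩
    · intro A B hA hB
      rcases Finset.mem_union.1 hA with hA | hA
      · rcases Finset.mem_union.1 hB with hB | hB
        · exact hα.2 A B hA hB
        · exact Or.inl (h A (Dl_inl hα hA) B (Dl_inl hβ hB)).1
      · rcases Finset.mem_union.1 hB with hB | hB
        · exact Or.inr (h B (Dl_inl hα hB) A (Dl_inl hβ hA)).1
        · exact hβ.2 A B hA hB
  · intro hτ
    refine ⟨τ.filter (fun x => ∃ A ∈ P, x = Sum.inl A), ?_,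
      τ.filter (fun x => ¬ ∃ A ∈ P, x = Sum.inl A), ?_, ?_⟩
    · constructor
      · intro x hx
        exact (Finset.mem_filter.1 hx).2
      · intro A B hA hB
        exact hτ.2 A B (Finset.mem_filter.1 hA).1 (Finset.mem_filter.1 hB).1
    · constructor
      · intro x hx
        obtain ⟨h1, h2⟩ := Finset.mem_filter.1 hx
        obtain ⟨A, hA, rfl⟩ := hτ.1 x h1
        rcases hA with hA | hA
        · exact absurd ⟨A, hA, rfl⟩ h2
        · exact ⟨A, hA, rfl⟩
      · intro A B hA hB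
        exact hτ.2 A B (Finset.mem_filter.1 hA).1 (Finset.mem_filter.1 hB).1
    · ext x
      simp only [Finset.mem_union, Finset.mem_filter]
      constructor
      · rintro (h1 | h1)
        · exact h1.1
        · exact h1.1
      · intro h1
        by_cases h2 : ∃ A ∈ P, x = Sum.inl A
        · exact Or.inl ⟨h1, h2⟩
        · exact Or.inr ⟨h1, h2⟩

theorem join_cm {U : Type} [Fintype U] [DecidableEq U] [LinearOrder (Finset U ⊕ Bool)]
    {P Q : Set (Finset U)} (h : ∀ A ∈ P, ∀ B ∈ Q, A ⊂ B) {N N' M : ℕ}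
    (hP : Cm (St ∅ ∅) (Dl P) N) (hQ : Cm (St ∅ ∅) (Dl Q) N') (hM : M = N + N')
    {W : Set (Finset U)} (hW : W = P ∪ Q) :
    Cm (St ∅ ∅) (Dl W) M := by
  subst hM hW
  rw [← dl_join (fun a b => LinearOrder.toDecidableEq a b) h]
  refine hP.comp hQ ?_
  intro α hα β hβ x hx y hy
  obtain ⟨A, hA, rfl⟩ := hα.1 x hx
  obtain ⟨B, hB, rfl⟩ := hβ.1 y hy
  exact Or.inl (h A hA B hB)

/-- the maximum of a nonempty chain -/
theorem exists_max {U : Type} [DecidableEq U] {c : Finset (Finset U)} (hc : c.Nonempty)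
    (hch : ∀ A ∈ c, ∀ A' ∈ c, A ⊆ A' ∨ A' ⊆ A) : ∃ B ∈ c, ∀ A ∈ c, A ⊆ B := by
  obtain ⟨B, hB, hmax⟩ := Finset.exists_max_image c (fun A => A.card) hc
  refine ⟨B, hB, fun A hA => ?_⟩
  rcases hch A hA B hB with h | h
  · exact h
  · exact (Finset.eq_of_subset_of_card_le h (hmax A hA)).ge

end ChAux

open ChAux

section

variable {U : Type} [Fintype U] [DecidableEq U] [LinearOrder (Finset U ⊕ Bool)]

theorem between_cm {σ B : Finset U} (h : σ ⊂ B) :
    Cm (St ∅ ∅) (Dl {A | σ ⊂ A ∧ A ⊂ B}) (B.card - σ.card - 1) := by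
  obtain ⟨s, F, R, hS, hmem⟩ := shelled_simplex σ B h
  have h1 := shelled_cm _ σ s F R hS
  have h2 : fc σ F 0 s = {A | σ ⊂ A ∧ A ⊂ B} := by
    ext A
    exact hmem A
  rwa [h2] at h1

theorem low_cm : ∀ (c : Finset (Finset U)) (B : Finset U), B ∈ c → (∀ A ∈ c, A.Nonempty) →
    (∀ A ∈ c, A ⊆ B) → (∀ A ∈ c, ∀ A' ∈ c, A ⊆ A' ∨ A' ⊆ A) →
    c.card ≤ B.card ∧ Cm (St ∅ ∅) (Dl (low c B)) (B.card - c.card) := by
  intro c
  induction c using Finset.strongInduction with
  | H c IH =>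
  intro B hB hne hle hch
  have hBpos := (hne B hB).card_pos
  have hcard := Finset.card_erase_add_one hB
  rcases (c.erase B).eq_empty_or_nonempty with he | he
  · have hc : c = {B} := by
      rw [← Finset.insert_erase hB, he]
      rfl
    have hc1 : c.card = 1 := by
      rw [hc, Finset.card_singleton]
    refine ⟨by omega, ?_⟩
    have h1 := between_cm (σ := ∅) (B := B) (Finset.empty_ssubset.2 (hne B hB))
    rw [Finset.card_empty, Nat.sub_zero, ← hc1] at h1
    have h2 : low c B = {A | ∅ ⊂ A ∧ A ⊂ B} := by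
      ext A
      constructor
      · rintro ⟨h3, h4, _⟩
        exact ⟨Finset.empty_ssubset.2 h3, h4⟩
      · rintro ⟨h3, h4⟩
        refine ⟨Finset.empty_ssubset.1 h3, h4, fun C hC => ?_⟩
        rw [hc, Finset.mem_singleton] at hC
        exact Or.inl (hC ▸ h4)
    rw [h2]
    exact h1
  · obtain ⟨B', hB', hmax⟩ := exists_max he (fun A hA A' hA' =>
      hch A (Finset.mem_of_mem_erase hA) A' (Finset.mem_of_mem_erase hA'))
    have hB'c := Finset.mem_of_mem_erase hB'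
    have hB'B : B' ⊂ B := (hle B' hB'c).ssubset_of_ne (Finset.ne_of_mem_erase hB')
    have hlt := Finset.card_lt_card hB'B
    obtain ⟨h1, h2⟩ := IH (c.erase B) (Finset.erase_ssubset hB) B' hB'
      (fun A hA => hne A (Finset.mem_of_mem_erase hA)) hmax (fun A hA A' hA' =>
      hch A (Finset.mem_of_mem_erase hA) A' (Finset.mem_of_mem_erase hA'))
    refine ⟨by omega, ?_⟩
    refine join_cm (P := low (c.erase B) B') (Q := {A | B' ⊂ A ∧ A ⊂ B}) ?_ h2
      (between_cm hB'B) (by omega) ?_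
    · intro A hA D hD
      exact hA.2.1.trans hD.1
    · ext A
      constructor
      · rintro ⟨h3, h4, h5⟩
        rcases h5 B' hB'c with h6 | h6
        · exact Or.inl ⟨h3, h6, fun C hC => h5 C (Finset.mem_of_mem_erase hC)⟩
        · exact Or.inr ⟨h6, h4⟩
      · rintro (⟨h3, h4, h5⟩ | ⟨h3, h4⟩)
        · refine ⟨h3, h4.trans hB'B, fun C hC => ?_⟩
          by_cases h6 : C = B
          · rw [h6]
            exact Or.inl (h4.trans hB'B)
          · exact h5 C (Finset.mem_erase.2 ⟨h6, hC⟩)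
        · refine ⟨(hne B' hB'c).mono h3.1, h4, fun C hC => ?_⟩
          by_cases h6 : C = B
          · rw [h6]
            exact Or.inl h4
          · exact Or.inr (Finset.ssubset_of_subset_of_ssubset
              (hmax C (Finset.mem_erase.2 ⟨h6, hC⟩)) h3)

theorem chain_cm {n : ℕ} {T : Set (Finset U)} (hdim : ∀ A ∈ T, A.card ≤ 2 * n)
    (hdown : ∀ A ∈ T, ∀ B : Finset U, B ⊆ A → B ∈ T)
    (hlink : ∀ σ ∈ T, σ.Nonempty → ∃ (s : ℕ) (F R : ℕ → Finset U),
      Shelled σ (2 * n - σ.card) s F R ∧ ∀ A, σ ⊂ A → (A ∈ T ↔ ∃ j < s, A ⊆ F j))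
    (c : Finset (Finset U)) (hc : c.Nonempty) (hcT : ∀ A ∈ c, A ∈ T ∧ A.Nonempty)
    (hch : ∀ A ∈ c, ∀ A' ∈ c, A ⊆ A' ∨ A' ⊆ A) :
    Cm (St ∅ ∅) (Dl {A | A ∈ T ∧ A.Nonempty ∧ ∀ C ∈ c, A ⊂ C ∨ C ⊂ A}) (2 * n - c.card) := by
  obtain ⟨B, hB, hmax⟩ := exists_max hc hch
  obtain ⟨h1, h2⟩ := low_cm c B hB (fun A hA => (hcT A hA).2) hmax hch
  obtain ⟨s, F, R, hS, hmem⟩ := hlink B (hcT B hB).1 (hcT B hB).2
  have h3 := hdim B (hcT B hB).1
  refine join_cm (P := low c B) (Q := fc B F 0 s) ?_ h2 (shelled_cm _ B s F R hS) (by omega) ?_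
  · intro A hA D hD
    exact hA.2.1.trans hD.1
  · ext A
    constructor
    · rintro ⟨h4, h5, h6⟩
      rcases h6 B hB with h7 | h7
      · exact Or.inl ⟨h5, h7, h6⟩
      · right
        obtain ⟨j, hj, hA⟩ := (hmem A h7).1 h4
        exact ⟨h7, j, Nat.zero_le _, hj, hA⟩
    · rintro (⟨h4, h5, h6⟩ | ⟨h4, j, _, hj, hA⟩)
      · exact ⟨hdown B (hcT B hB).1 A h5.1, h4, h6⟩
      · refine ⟨(hmem A h4).2 ⟨j, hj, hA⟩, (hcT B hB).2.mono h4.1, fun C hC => ?_⟩
        exact Or.inr (Finset.ssubset_of_subset_of_ssubset (hmax C hC) h4)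

end

theorem exactLink_chain {U Y : Type} [Fintype U] [DecidableEq U] [Fintype Y] [LinearOrder Y]
    {n : ℕ} {T : Set (Finset U)} (hdim : ∀ A ∈ T, A.card ≤ 2 * n)
    (hdown : ∀ A ∈ T, ∀ B : Finset U, B ⊆ A → B ∈ T)
    (hlink : ∀ σ ∈ T, σ.Nonempty → ∃ (s : ℕ) (F R : ℕ → Finset U),
      Shelled σ (2 * n - σ.card) s F R ∧ ∀ A, σ ⊂ A → (A ∈ T ↔ ∃ j < s, A ⊆ F j))
    {H : SimpleGraph Y} (φ : Y ↪ Finset U) (hφ : ∀ A, (∃ y, φ y = A) ↔ A ∈ T ∧ A.Nonempty)
    (hH : ∀ x y, H.Adj x y ↔ φ x ⊂ φ y ∨ φ y ⊂ φ x) (ρ : Finset Y)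
    (hρ : H.IsClique (ρ : Set Y)) (hne : ρ.Nonempty) (j : ℕ) (hj : j + ρ.card < 2 * n) :
    ExactLink H ρ j := by
  classical
  have hyT : ∀ y, φ y ∈ T ∧ (φ y).Nonempty := fun y => (hφ _).1 ⟨y, rfl⟩
  let f : Y ↪ Finset U ⊕ Bool := φ.trans ⟨Sum.inl, Sum.inl_injective⟩
  have hfy : ∀ y, f y = Sum.inl (φ y) := fun y => rfl
  obtain ⟨o, hf⟩ := relabel_order f
  set Q : Set (Finset U) := {A | A ∈ T ∧ A.Nonempty ∧ ∀ C ∈ ρ.map φ, A ⊂ C ∨ C ⊂ A} with hQ
  have hcm : Cm (St ∅ ∅) (Dl Q) (2 * n - (ρ.map φ).card) := by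
    refine chain_cm hdim hdown hlink (ρ.map φ) (hne.map) ?_ ?_
    · intro A hA
      obtain ⟨y, _, rfl⟩ := Finset.mem_map.1 hA
      exact hyT y
    · intro A hA A' hA'
      obtain ⟨y, hy, rfl⟩ := Finset.mem_map.1 hA
      obtain ⟨z, hz, rfl⟩ := Finset.mem_map.1 hA'
      by_cases h : y = z
      · rw [h]
        exact Or.inl Finset.Subset.rfl
      · rcases (hH y z).1 (hρ (Finset.mem_coe.2 hy) (Finset.mem_coe.2 hz) h) with h | h
        · exact Or.inl h.1
        · exact Or.inr h.1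
  have hex : ExAt (Dl Q) (one (Finset U ⊕ Bool)) (j : ℤ) := by
    refine hcm.exact _ ?_
    rw [Finset.card_map]
    omega
  have hQy : ∀ y, φ y ∈ Q ↔ y ∈ commonNbrs H ρ := by
    intro y
    rw [mem_commonNbrs]
    constructor
    · rintro ⟨_, _, h⟩ u hu
      exact (hH u y).2 (h (φ u) (Finset.mem_map_of_mem _ hu)).symm
    · intro h
      refine ⟨(hyT y).1, (hyT y).2, fun C hC => ?_⟩
      obtain ⟨u, hu, rfl⟩ := Finset.mem_map.1 hC
      exact ((hH u y).1 (h u hu)).symm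
  have hmap : ∀ τ : Finset Y, τ.map f ∈ Dl Q ↔ τ ∈ cliquesIn H (commonNbrs H ρ) := by
    intro τ
    rw [mem_cliquesIn]
    constructor
    · intro h
      refine ⟨fun y hy => ?_, fun y hy z hz hyz => ?_⟩
      · exact (hQy y).1 (Dl_inl h (Finset.mem_map_of_mem f hy))
      · rw [hH]
        have hne' : φ y ≠ φ z := fun e => hyz (φ.injective e)
        rcases h.2 (φ y) (φ z) (Finset.mem_map_of_mem f (Finset.mem_coe.1 hy))
          (Finset.mem_map_of_mem f (Finset.mem_coe.1 hz)) with h1 | h1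
        · exact Or.inl (h1.ssubset_of_ne hne')
        · exact Or.inr (h1.ssubset_of_ne hne'.symm)
    · rintro ⟨h1, h2⟩
      constructor
      · intro x hx
        obtain ⟨y, hy, rfl⟩ := Finset.mem_map.1 hx
        exact ⟨φ y, (hQy y).2 (h1 hy), rfl⟩
      · intro A B hA hB
        obtain ⟨y, hy, hyA⟩ := Finset.mem_map.1 hA
        obtain ⟨z, hz, hzB⟩ := Finset.mem_map.1 hB
        have hyA' : φ y = A := Sum.inl_injective hyA
        have hzB' : φ z = B := Sum.inl_injective hzB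
        rw [← hyA', ← hzB']
        by_cases e : y = z
        · rw [e]
          exact Or.inl Finset.Subset.rfl
        · rcases (hH y z).1 (h2 (Finset.mem_coe.2 hy) (Finset.mem_coe.2 hz) e) with h | h
          · exact Or.inl h.1
          · exact Or.inr h.1
  have hsurj : ∀ τ' ∈ Dl Q, ∃ τ : Finset Y, τ.map f = τ' := by
    intro τ' hτ'
    refine ⟨Finset.univ.filter (fun y => f y ∈ τ'), ?_⟩
    ext x
    simp only [Finset.mem_map, Finset.mem_filter, Finset.mem_univ, true_and]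
    constructor
    · rintro ⟨y, hy, rfl⟩
      exact hy
    · intro hx
      obtain ⟨A, hA, rfl⟩ := hτ'.1 x hx
      obtain ⟨y, rfl⟩ := (hφ A).2 ⟨hA.1, hA.2.1⟩
      exact ⟨y, hx, rfl⟩
  -- the differential on the two sides
  have hDi : ∀ (b : Finset (Finset U ⊕ Bool) → ℚ) (τ : Finset Y),
      τ ∈ cliquesIn H (commonNbrs H ρ) →
      Di (Dl Q) (one (Finset U ⊕ Bool)) b (τ.map f) =
        ∑ x ∈ τ, sg x τ * b ((τ.erase x).map f) := by
    intro b τ hτ
    rw [Di_of_mem _ _ ((hmap τ).2 hτ), Finset.sum_map]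
    refine Finset.sum_congr rfl fun x _ => ?_
    rw [relabel_sg hf, relabel_erase]
    have h1 : Pr (one (Finset U ⊕ Bool)) (f x) = 1 := const_Pr_one (f x)
    rw [h1, Module.End.one_apply, smul_eq_mul]
  intro f0 hf0
  let c' : Finset (Finset U ⊕ Bool) → ℚ := fun τ' =>
    if h : ∃ τ : Finset Y, (τ ∈ cliquesIn H (commonNbrs H ρ) ∧ τ.card = j) ∧ τ.map f = τ' then
      f0 h.choose else 0
  have hc1 : ∀ τ : Finset Y, τ ∈ cliquesIn H (commonNbrs H ρ) → τ.card = j →
      c' (τ.map f) = f0 τ := by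
    intro τ h1 h2
    have h : ∃ τ' : Finset Y, (τ' ∈ cliquesIn H (commonNbrs H ρ) ∧ τ'.card = j) ∧
        τ'.map f = τ.map f := ⟨τ, ⟨h1, h2⟩, rfl⟩
    have h3 : c' (τ.map f) = f0 h.choose := dif_pos h
    rw [h3, Finset.map_injective f h.choose_spec.2]
  have hc2 : ∀ τ : Finset Y, τ.card ≠ j → c' (τ.map f) = 0 := by
    intro τ h2
    refine dif_neg ?_
    rintro ⟨τ', ⟨_, h3⟩, h4⟩
    rw [Finset.map_injective f h4] at h3
    exact h2 h3
  have hc3 : c' ∈ CC (Dl Q) (one (Finset U ⊕ Bool)) (j : ℤ) := by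
    rw [mem_CC]
    refine ⟨fun τ' h => ?_, fun τ' h => ?_, fun τ' x _ => rfl⟩
    · refine dif_neg ?_
      rintro ⟨τ, ⟨h1, _⟩, rfl⟩
      exact h ((hmap τ).2 h1)
    · refine dif_neg ?_
      rintro ⟨τ, ⟨_, h1⟩, rfl⟩
      exact h (by rw [Finset.card_map, h1])
  have hc4 : Di (Dl Q) (one (Finset U ⊕ Bool)) c' = 0 := by
    funext τ'
    by_cases hτ' : τ' ∈ Dl Q
    · obtain ⟨τ, rfl⟩ := hsurj τ' hτ'
      have hτ := (hmap τ).1 hτ'
      rw [hDi c' τ hτ, Pi.zero_apply]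
      have herase : ∀ x, τ.erase x ∈ cliquesIn H (commonNbrs H ρ) := fun x =>
        (hmap _).1 (Dl_down hτ' (Finset.map_subset_map.2 (Finset.erase_subset x τ)))
      by_cases hcard : τ.card = j + 1
      · rw [← hf0 τ hτ hcard]
        refine Finset.sum_congr rfl fun x hx => ?_
        rw [hc1 _ (herase x) (by
          have := Finset.card_erase_add_one hx
          omega)]
      · refine Finset.sum_eq_zero fun x hx => ?_
        rw [hc2 _ (by
          have := Finset.card_erase_add_one hx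
          omega), mul_zero]
    · rw [Di_of_notMem _ _ hτ']
      rfl
  obtain ⟨b, _, hb⟩ := hex c' hc3 hc4
  refine ⟨fun τ => b (τ.map f), fun τ hτ hcard => ?_⟩
  rw [← hc1 τ hτ hcard, ← hb]
  exact hDi b τ hτ

end Pool.Agent.Helper32.SD
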