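import Pool.Agent.Helper51.CD.TameKGood

/-!
# SD: good complexes and their closure properties

`Gd G K`: the simplicial complex `K`, whose faces are cliques of the graph of commutations `G`, has
a polynomial family of systems of reflections that is good at `1` (for every linear order of the
vertices).
-/

open Finset Pool.Agent.Helper51.CD

namespace Pool.Agent.Helper32.SD

/-- `K` is a good complex. -/
def Gd {X : Type} [Fintype X] (G : SimpleGraph X) (K : Set (Finset X)) : Prop :=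
  IsCx G K ∧ ∀ _ : LinearOrder X, HasK G {K}

/-- The cone over `K` with apex `u`. -/
def cn {X : Type} [DecidableEq X] (u : X) (K : Set (Finset X)) : Set (Finset X) :=
  {τ | τ.erase u ∈ K}

/-- The join of two complexes. -/
def jn {X : Type} [DecidableEq X] (K M : Set (Finset X)) : Set (Finset X) :=
  {τ | ∃ α ∈ K, ∃ β ∈ M, α ∪ β = τ}

section

variable {X : Type} [Fintype X] {G : SimpleGraph X}

theorem exists_order (X : Type) : Nonempty (LinearOrder X) :=
  ⟨IsWellOrder.linearOrder WellOrderingRel⟩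

theorem Gd.cx {K : Set (Finset X)} (h : Gd G K) : IsCx G K := h.1

theorem Gd.pair {x y : X} (hxy : x ≠ y) (h : ¬ G.Adj x y) : Gd G {∅, {x}, {y}} := by
  obtain ⟨o⟩ := exists_order X
  refine ⟨@TameK.isCx X o G _ (@TameK.pair X _ G x y hxy h), fun o' => ?_⟩
  exact @hasK_pair X o' _ G x y hxy h

theorem Gd.cone [i : DecidableEq X] {K : Set (Finset X)} {u : X}
    (hu : ∀ τ ∈ K, u ∉ τ ∧ ∀ x ∈ τ, G.Adj u x) (h : Gd G K) : Gd G (cn u K) := by
  have hcx : IsCx G (cn u K) := by
    constructor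
    · intro τ hτ a ha b hb hab
      have hτ' : τ.erase u ∈ K := hτ
      rw [Finset.mem_coe] at ha hb
      by_cases h1 : a = u
      · subst h1
        exact (hu _ hτ').2 b (Finset.mem_erase.2 ⟨Ne.symm hab, hb⟩)
      · by_cases h' : b = u
        · subst h'
          exact ((hu _ hτ').2 a (Finset.mem_erase.2 ⟨hab, ha⟩)).symm
        · exact h.1.clique _ hτ' (Finset.mem_coe.2 (Finset.mem_erase.2 ⟨h1, ha⟩))
            (Finset.mem_coe.2 (Finset.mem_erase.2 ⟨h', hb⟩)) hab
    · intro τ hτ ρ hρ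
      exact h.1.down _ hτ _ (Finset.erase_subset_erase u hρ)
  refine ⟨hcx, fun o => ?_⟩
  have hi : i = o.toDecidableEq := Subsingleton.elim _ _
  subst hi
  obtain ⟨F, hF⟩ := h.2 o
  refine ⟨F, fun B hB => ?_⟩
  rw [Set.mem_singleton_iff.1 hB]
  exact tk_cone (F.sys 1) h.1 hcx hu (hF K rfl)

theorem Gd.union {K L : Set (Finset X)} (h1 : Gd G K) (h2 : Gd G L) (h3 : Gd G (K ∩ L)) :
    Gd G (K ∪ L) := by
  have hcx : IsCx G (K ∪ L) := by
    constructor
    · rintro τ (hτ | hτ)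
      · exact h1.1.clique τ hτ
      · exact h2.1.clique τ hτ
    · rintro τ (hτ | hτ) ρ hρ
      · exact Or.inl (h1.1.down τ hτ ρ hρ)
      · exact Or.inr (h2.1.down τ hτ ρ hρ)
  refine ⟨hcx, fun o => ?_⟩
  have c1 : ∀ M ∈ ({K} : Set (Set (Finset X))), IsCx G M := by
    rintro M rfl
    exact h1.1
  have c2 : ∀ M ∈ ({L} : Set (Set (Finset X))), IsCx G M := by
    rintro M rfl
    exact h2.1
  have c3 : ∀ M ∈ ({K ∩ L} : Set (Set (Finset X))), IsCx G M := by
    rintro M rfl
    exact h3.1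
  obtain ⟨F, hF⟩ := HasK.union (fun M hM => hM.elim (c1 M) (c2 M)) c3
    (HasK.union c1 c2 (h1.2 o) (h2.2 o)) (h3.2 o)
  refine ⟨F, fun B hB => ?_⟩
  rw [Set.mem_singleton_iff.1 hB]
  exact tk_union (F.sys 1) h1.1 h2.1 hcx
    (hF K (Or.inl (Or.inl rfl))) (hF L (Or.inl (Or.inr rfl))) (hF _ (Or.inr rfl))

theorem Gd.part {K L : Set (Finset X)} (hK : IsCx G K) (hL : IsCx G L) (h1 : Gd G (K ∪ L))
    (h2 : Gd G (K ∩ L)) : Gd G K := by
  refine ⟨hK, fun o => ?_⟩
  have c1 : ∀ M ∈ ({K ∪ L} : Set (Set (Finset X))), IsCx G M := by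
    rintro M rfl
    exact h1.1
  have c2 : ∀ M ∈ ({K ∩ L} : Set (Set (Finset X))), IsCx G M := by
    rintro M rfl
    exact h2.1
  obtain ⟨F, hF⟩ := HasK.union c1 c2 (h1.2 o) (h2.2 o)
  refine ⟨F, fun B hB => ?_⟩
  rw [Set.mem_singleton_iff.1 hB]
  exact tk_part (F.sys 1) hK hL h1.1 (hF _ (Or.inl rfl)) (hF _ (Or.inr rfl))

/-- Only the part of the graph on the vertices of the complex matters. -/
theorem Gd.restrict {G' : SimpleGraph X} {K : Set (Finset X)} (h : Gd G K) (hK : IsCx G' K)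
    (hG : ∀ x y, {x} ∈ K → {y} ∈ K → G'.Adj x y → G.Adj x y) : Gd G' K := by
  refine ⟨hK, fun o => (h.2 o).restrict fun τ hτ x hx ρ hρ y hy => ?_⟩
  exact hG x y (hK.down τ hτ {x} (by simpa using hx)) (hK.down ρ hρ {y} (by simpa using hy))

theorem Gd.contract [i : DecidableEq X] {K : Set (Finset X)} {v w : X} (hvw : v ≠ w)
    (hK : IsCx G K) (he : {v, w} ∈ K)
    (hl : ∀ τ : Finset X, v ∉ τ → w ∉ τ → insert v τ ∈ K → insert w τ ∈ K →
      insert v (insert w τ) ∈ K)
    (h1 : Gd (contr G v w) (ctrK K v w)) (h2 : Gd G (lkK K v w)) : Gd G K := by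
  refine ⟨hK, fun o => ?_⟩
  have hi : i = o.toDecidableEq := Subsingleton.elim _ _
  subst hi
  refine HasK.contr hvw hK he hl ?_
  have h3 : HasK (contr G v w) {lkK K v w} := by
    refine (h2.2 o).restrict fun τ hτ x hx ρ hρ y hy => ?_
    have hxv : x ≠ v := fun e => hτ.1 (e ▸ hx)
    have hyv : y ≠ v := fun e => hρ.1 (e ▸ hy)
    rintro ⟨_, h | h | h⟩
    · exact h
    · exact absurd h.1 hxv
    · exact absurd h.1 hyv
  have c1 : ∀ M ∈ ({ctrK K v w} : Set (Set (Finset X))), IsCx (contr G v w) M := by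
    rintro M rfl
    exact h1.1
  have c2 : ∀ M ∈ ({lkK K v w} : Set (Set (Finset X))), IsCx (contr G v w) M := by
    rintro M rfl
    refine ⟨fun τ hτ a ha b hb hab => ?_, h2.1.down⟩
    exact ⟨hab, Or.inl (h2.1.clique τ hτ ha hb hab)⟩
  have := HasK.union c1 c2 (h1.2 o) h3
  rwa [Set.singleton_union] at this

/-- Tame complexes are good. -/
theorem Gd.of_tame [i : DecidableEq X] {K : Set (Finset X)} (h : TameK G K) : Gd G K := by
  obtain ⟨o⟩ := exists_order X
  have hcx : IsCx G K := by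
    have hi : i = o.toDecidableEq := Subsingleton.elim _ _
    subst hi
    exact h.isCx
  refine ⟨hcx, fun o' => ?_⟩
  have hi : i = o'.toDecidableEq := Subsingleton.elim _ _
  subst hi
  exact hasK_of_tame h

end

end Pool.Agent.Helper32.SD
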