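import Pool.Agent.Helper32.SD.Join
import Pool.Agent.Helper51.CD.Const

/-!
# SC-1 CM: complexes whose joins have no low cohomology (constant coefficients)

`one` is the trivial system on `V = ℚ`, so `ExAt K one d` is exactness of the ordinary augmented
rational cochain complex of `K` at the faces with `d` elements. `Cm G K N`: for every complex `M` on
other vertices, all adjacent to those of `K`, that is exact at all sizes `< a`, the join `jn M K` is
exact at all sizes `< a + N` (with `M = {∅}`, `a = 0`: `K` is exact at all sizes `< N`).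

PROOFS. `ex_one_union` : as `tk_union` in CD/TameKGood (`ex_glue`, `ex_high`; `Ok F one` holds for
every family closed under subsets). `Cm.cone`: `jn M (cn u K)` is closed under inserting `u`: use
`ex_cone` of CD/Cone.lean. `Cm.union`: `jn M (K ∪ L) = jn M K ∪ jn M L`,
`jn M K ∩ jn M L = jn M (K ∩ L)` (the vertices of `M` are not vertices of `K, L`). `Cm.comp`:
`jn M (jn K L) = jn (jn M K) L`. `Cm.nil`: `jn M {∅} = M`.
-/

open Finset Pool.Agent.Helper51.CD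

namespace Pool.Agent.Helper32.SD

variable {X : Type} [LinearOrder X] {G : SimpleGraph X} {K L : Set (Finset X)} {N N' : ℕ}

/-- the trivial system -/
def one (X : Type) : X → Module.End ℚ ℚ := fun _ => 1

/-- the join with `K` raises the range of exactness by `N` -/
structure Cm (G : SimpleGraph X) (K : Set (Finset X)) (N : ℕ) : Prop where
  cx : IsCx G K
  ne : ∅ ∈ K
  ex : ∀ M : Set (Finset X), IsCx G M → (∀ β ∈ M, ∀ α ∈ K, ∀ x ∈ β, ∀ y ∈ α, G.Adj x y) →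
    ∀ a : ℤ, (∀ d < a, ExAt M (one X) d) → ∀ d < a + N, ExAt (jn M K) (one X) d

omit [LinearOrder X] in
private theorem ok_one {F : Set (Finset X)} (hd : ∀ τ ∈ F, ∀ ρ : Finset X, ρ ⊆ τ → ρ ∈ F) :
    Ok F (one X) :=
  ⟨fun τ hτ _ _ π _ h2 => hd τ hτ π h2, fun _ => mul_one _, fun _ _ _ _ _ _ => rfl⟩

omit [LinearOrder X] in
private theorem cx_union (hK : IsCx G K) (hL : IsCx G L) : IsCx G (K ∪ L) := by
  constructor
  · rintro τ (hτ | hτ)
    · exact hK.clique τ hτ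
    · exact hL.clique τ hτ
  · rintro τ (hτ | hτ) ρ hρ
    · exact Or.inl (hK.down τ hτ ρ hρ)
    · exact Or.inr (hL.down τ hτ ρ hρ)

theorem ex_one_union {d : ℤ} (hK : IsCx G K) (hL : IsCx G L) (h1 : ExAt K (one X) d)
    (h2 : ExAt L (one X) d) (h3 : ExAt (K ∩ L) (one X) (d - 1)) : ExAt (K ∪ L) (one X) d := by
  refine ex_glue (ok_one (cx_union hK hL).down) Set.subset_union_left
    (fun τ hτ ρ _ hρ => hK.down τ hτ ρ hρ) h1 ?_
  have hset : (K ∪ L) \ K = L \ (K ∩ L) := by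
    ext τ
    constructor
    · rintro ⟨h4 | h4, h5⟩
      · exact absurd h4 h5
      · exact ⟨h4, fun h6 => h5 h6.1⟩
    · rintro ⟨h4, h5⟩
      exact ⟨Or.inr h4, fun h6 => h5 ⟨h6, h4⟩⟩
  rw [hset]
  exact ex_high (ok_one hL.down) Set.inter_subset_right
    (fun τ hτ ρ _ hρ => ⟨hK.down τ hτ.1 ρ hρ, hL.down τ hτ.2 ρ hρ⟩) h2 h3

omit [LinearOrder X] in
private theorem cx_empty : IsCx G {(∅ : Finset X)} := by
  constructor
  · intro τ hτ
    rw [Set.mem_singleton_iff.1 hτ]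
    intro a ha
    exact absurd (Finset.mem_coe.1 ha) (Finset.notMem_empty a)
  · intro τ hτ ρ hρ
    rw [Set.mem_singleton_iff.1 hτ] at hρ
    exact Set.mem_singleton_iff.2 (Finset.subset_empty.1 hρ)

private theorem jn_empty_right (M : Set (Finset X)) : jn M {∅} = M := by
  ext τ
  constructor
  · rintro ⟨α, hα, β, hβ, rfl⟩
    rw [Set.mem_singleton_iff.1 hβ, Finset.union_empty]
    exact hα
  · intro hτ
    exact ⟨τ, hτ, ∅, rfl, Finset.union_empty τ⟩

private theorem jn_empty_left (M : Set (Finset X)) : jn {∅} M = M := by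
  ext τ
  constructor
  · rintro ⟨α, hα, β, hβ, rfl⟩
    rw [Set.mem_singleton_iff.1 hα, Finset.empty_union]
    exact hβ
  · intro hτ
    exact ⟨∅, rfl, τ, hτ, Finset.empty_union τ⟩

theorem Cm.nil : Cm G {∅} 0 := by
  refine ⟨cx_empty, rfl, fun M _ _ a ha d hd => ?_⟩
  rw [jn_empty_right]
  refine ha d ?_
  simpa using hd

theorem Cm.mono (h : Cm G K N) (hN : N' ≤ N) : Cm G K N' := by
  refine ⟨h.cx, h.ne, fun M hM hadj a ha d hd => h.ex M hM hadj a ha d ?_⟩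
  have : (N' : ℤ) ≤ N := by exact_mod_cast hN
  linarith

private theorem ex_neg {F : Set (Finset X)} {d : ℤ} (hd : d < 0) : ExAt F (one X) d := by
  rintro c ⟨_, hc2, _⟩ _
  refine ⟨0, Submodule.zero_mem _, ?_⟩
  rw [map_zero]
  funext τ
  rw [Pi.zero_apply]
  refine (hc2 τ ?_).symm
  intro h
  have : (0 : ℤ) ≤ (τ.card : ℤ) := Int.natCast_nonneg _
  linarith

/-- `K` is exact below `N`. -/
theorem Cm.exact (h : Cm G K N) : ∀ d : ℤ, d < N → ExAt K (one X) d := by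
  intro d hd
  have h1 := h.ex {∅} cx_empty (by
    intro β hβ α _ x hx
    rw [Set.mem_singleton_iff.1 hβ] at hx
    exact absurd hx (Finset.notMem_empty x)) 0 (fun d hd => ex_neg hd) d (by linarith)
  rwa [jn_empty_left] at h1

theorem Cm.cone {u : X} (hK : IsCx G K) (h0 : ∅ ∈ K)
    (hu : ∀ τ ∈ K, u ∉ τ ∧ ∀ x ∈ τ, G.Adj u x) (N : ℕ) : Cm G (cn u K) N := by
  have hcx : IsCx G (cn u K) := by
    constructor
    · intro τ hτ a ha b hb hab
      have hτ' : τ.erase u ∈ K := hτ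
      rw [Finset.mem_coe] at ha hb
      by_cases h1 : a = u
      · subst h1
        exact (hu _ hτ').2 b (Finset.mem_erase.2 ⟨Ne.symm hab, hb⟩)
      · by_cases h' : b = u
        · subst h'
          exact ((hu _ hτ').2 a (Finset.mem_erase.2 ⟨hab, ha⟩)).symm
        · exact hK.clique _ hτ' (Finset.mem_coe.2 (Finset.mem_erase.2 ⟨h1, ha⟩))
            (Finset.mem_coe.2 (Finset.mem_erase.2 ⟨h', hb⟩)) hab
    · intro τ hτ ρ hρ
      exact hK.down _ hτ _ (Finset.erase_subset_erase u hρ)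
  refine ⟨hcx, ?_, fun M hM hadj a _ d _ => ?_⟩
  · change (∅ : Finset X).erase u ∈ K
    rwa [Finset.erase_empty]
  have huM : ∀ β ∈ M, u ∉ β := by
    intro β hβ h
    have h1 : ({u} : Finset X) ∈ cn u K := by
      change ({u} : Finset X).erase u ∈ K
      have : ({u} : Finset X).erase u = ∅ := by
        ext z
        simp
      rwa [this]
    exact G.loopless.irrefl u (hadj β hβ {u} h1 u h u (Finset.mem_singleton_self u))
  refine ex_cone u (fun τ hτ => ?_) (fun τ _ _ v _ => rfl) d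
  constructor
  · rintro ⟨β, hβ, α, hα, rfl⟩
    refine ⟨β, hβ, insert u α, ?_, Finset.union_insert u β α⟩
    change (insert u α).erase u ∈ K
    have h1 : α.erase u ∈ K := hα
    have h2 : u ∉ α := fun h => hτ (Finset.mem_union_right _ h)
    rw [Finset.erase_insert h2]
    rwa [Finset.erase_eq_of_notMem h2] at h1
  · rintro ⟨β, hβ, α, hα, h⟩
    refine ⟨β, hβ, α.erase u, ?_, ?_⟩
    · change (α.erase u).erase u ∈ K
      have h1 : α.erase u ∈ K := hα
      rwa [Finset.erase_idem]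
    · have h3 : (β ∪ α).erase u = (insert u τ).erase u := by rw [h]
      rw [Finset.erase_insert hτ, Finset.erase_union_distrib,
        Finset.erase_eq_of_notMem (huM β hβ)] at h3
      exact h3

private theorem jn_union (M : Set (Finset X)) : jn M (K ∪ L) = jn M K ∪ jn M L := by
  ext τ
  constructor
  · rintro ⟨β, hβ, α, hα | hα, rfl⟩
    · exact Or.inl ⟨β, hβ, α, hα, rfl⟩
    · exact Or.inr ⟨β, hβ, α, hα, rfl⟩
  · rintro (⟨β, hβ, α, hα, rfl⟩ | ⟨β, hβ, α, hα, rfl⟩)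
    · exact ⟨β, hβ, α, Or.inl hα, rfl⟩
    · exact ⟨β, hβ, α, Or.inr hα, rfl⟩

private theorem jn_inter {M : Set (Finset X)}
    (hadj : ∀ β ∈ M, ∀ α ∈ K ∪ L, ∀ x ∈ β, ∀ y ∈ α, G.Adj x y) :
    jn M K ∩ jn M L = jn M (K ∩ L) := by
  have hd : ∀ β ∈ M, ∀ α ∈ K ∪ L, ∀ x ∈ α, x ∉ β := fun β hβ α hα x hx hx' =>
    G.loopless.irrefl x (hadj β hβ α hα x hx' x hx)
  ext τ
  constructor
  · rintro ⟨⟨β, hβ, α, hα, rfl⟩, β', hβ', α', hα', h⟩
    have h1 : α = α' := by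
      apply Finset.Subset.antisymm
      · intro x hx
        have h2 : x ∈ β' ∪ α' := by
          rw [h]
          exact Finset.mem_union_right _ hx
        exact (Finset.mem_union.1 h2).resolve_left (hd β' hβ' α (Or.inl hα) x hx)
      · intro x hx
        have h2 : x ∈ β ∪ α := by
          rw [← h]
          exact Finset.mem_union_right _ hx
        exact (Finset.mem_union.1 h2).resolve_left (hd β hβ α' (Or.inr hα') x hx)
    subst h1
    exact ⟨β, hβ, α, ⟨hα, hα'⟩, rfl⟩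
  · rintro ⟨β, hβ, α, hα, rfl⟩
    exact ⟨⟨β, hβ, α, hα.1, rfl⟩, ⟨β, hβ, α, hα.2, rfl⟩⟩

theorem Cm.union (hK : Cm G K (N + 1)) (hL : Cm G L (N + 1)) (h : Cm G (K ∩ L) N) :
    Cm G (K ∪ L) (N + 1) := by
  refine ⟨cx_union hK.cx hL.cx, Or.inl hK.ne, fun M hM hadj a ha d hd => ?_⟩
  have hadjK : ∀ β ∈ M, ∀ α ∈ K, ∀ x ∈ β, ∀ y ∈ α, G.Adj x y :=
    fun β hβ α hα => hadj β hβ α (Or.inl hα)
  have hadjL : ∀ β ∈ M, ∀ α ∈ L, ∀ x ∈ β, ∀ y ∈ α, G.Adj x y :=
    fun β hβ α hα => hadj β hβ α (Or.inr hα)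
  rw [jn_union]
  refine ex_one_union (jn_isCx hM hK.cx hadjK) (jn_isCx hM hL.cx hadjL)
    (hK.ex M hM hadjK a ha d hd) (hL.ex M hM hadjL a ha d hd) ?_
  rw [jn_inter hadj]
  refine h.ex M hM (fun β hβ α hα => hadj β hβ α (Or.inl hα.1)) a ha (d - 1) ?_
  push_cast at hd
  linarith

theorem Cm.comp (hK : Cm G K N) (hL : Cm G L N')
    (hadj : ∀ α ∈ K, ∀ β ∈ L, ∀ x ∈ α, ∀ y ∈ β, G.Adj x y) : Cm G (jn K L) (N + N') := by
  refine ⟨jn_isCx hK.cx hL.cx hadj, ⟨∅, hK.ne, ∅, hL.ne, Finset.union_empty ∅⟩,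
    fun M hM hadj' a ha d hd => ?_⟩
  have hset : jn M (jn K L) = jn (jn M K) L := by
    ext τ
    constructor
    · rintro ⟨γ, hγ, δ, ⟨α, hα, β, hβ, rfl⟩, rfl⟩
      exact ⟨γ ∪ α, ⟨γ, hγ, α, hα, rfl⟩, β, hβ, Finset.union_assoc γ α β⟩
    · rintro ⟨δ, ⟨γ, hγ, α, hα, rfl⟩, β, hβ, rfl⟩
      exact ⟨γ, hγ, α ∪ β, ⟨α, hα, β, hβ, rfl⟩, (Finset.union_assoc γ α β).symm⟩
  rw [hset]
  have h1 : ∀ γ ∈ M, ∀ α ∈ K, ∀ x ∈ γ, ∀ y ∈ α, G.Adj x y := fun γ hγ α hα =>
    hadj' γ hγ α ⟨α, hα, ∅, hL.ne, Finset.union_empty α⟩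
  have h2 : ∀ γ ∈ M, ∀ β ∈ L, ∀ x ∈ γ, ∀ y ∈ β, G.Adj x y := fun γ hγ β hβ =>
    hadj' γ hγ β ⟨∅, hK.ne, β, hβ, Finset.empty_union β⟩
  refine hL.ex (jn M K) (jn_isCx hM hK.cx h1) ?_ (a + N) (fun e he => hK.ex M hM h1 a ha e he) d ?_
  · rintro δ ⟨γ, hγ, α, hα, rfl⟩ β hβ x hx y hy
    rcases Finset.mem_union.1 hx with hx | hx
    · exact h2 γ hγ β hβ x hx y hy
    · exact hadj α hα β hβ x hx y hy
  · push_cast at hd
    linarith

end Pool.Agent.Helper32.SD
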