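import Pool.Agent.Helper32.SD.Defs

/-!
# SD-4 Cross: two shelled spheres

(a) The boundary of a simplex: `F k = B.erase (b k)`, `b 0, b 1, ...` an enumeration of `B \ σ`
(`(B \ σ).equivFin`), `s = |B \ σ|`, `R k = {b 0, ..., b (k-1)}`.
(b) The join of the boundaries of two simplices `R` and `S`, with `σ` added: with enumerations
`r 0, ..., r (p-1)` of `R`, `t 0, ..., t (q-1)` of `S` and `s = p q`: `F k = σ ∪ R.erase (r (k/q)) ∪
S.erase (t (k % q))`, `R' k = {r i | i < k/q} ∪ {t j | j < k % q}`; the complement of `R' k` in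
`F k \ σ` is `{r i | i > k/q} ∪ {t j | j > k % q}`. For `A ⊆ F k`: some earlier facet contains `A` iff
some `r i`, `i < k/q`, or some `t j`, `j < k % q`, is not in `A` (for the direction from left to right:
`j' < k` means `j'/q < k/q`, or `j'/q = k/q` and `j' % q < k % q`).
-/

open Finset

namespace Pool.Agent.Helper32.SD

variable {U : Type} [DecidableEq U]

private theorem enum (C : Finset U) (hC : C.Nonempty) : ∃ b : ℕ → U,
    (∀ i < C.card, b i ∈ C) ∧ (∀ x ∈ C, ∃ i < C.card, b i = x) ∧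
    (∀ i < C.card, ∀ j < C.card, b i = b j → i = j) := by
  obtain ⟨c, hc⟩ := hC
  refine ⟨fun i => if h : i < C.card then (C.equivFin.symm ⟨i, h⟩ : U) else c, ?_, ?_, ?_⟩
  · intro i hi
    simp only [hi, dite_true]
    exact (C.equivFin.symm ⟨i, hi⟩).2
  · intro x hx
    refine ⟨C.equivFin ⟨x, hx⟩, (C.equivFin ⟨x, hx⟩).2, ?_⟩
    simp
  · intro i hi j hj h
    simp only [hi, hj, dite_true] at h
    have := C.equivFin.symm.injective (Subtype.ext h)
    simpa using this

theorem shelled_simplex (σ B : Finset U) (h : σ ⊂ B) : ∃ (s : ℕ) (F R : ℕ → Finset U),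
    Shelled σ (B.card - σ.card - 1) s F R ∧ ∀ A, A ∈ fc σ F 0 s ↔ σ ⊂ A ∧ A ⊂ B := by
  have hC : (B \ σ).Nonempty := by
    rw [Finset.sdiff_nonempty]
    exact h.2
  obtain ⟨b, hb1, hb2, hb3⟩ := enum (B \ σ) hC
  have hbB : ∀ i < (B \ σ).card, b i ∈ B ∧ b i ∉ σ := fun i hi => Finset.mem_sdiff.1 (hb1 i hi)
  have hlt := Finset.card_lt_card h
  have key : ∀ j, ∀ A : Finset U, A ⊆ B → (A ⊆ B.erase (b j) ↔ b j ∉ A) := by
    intro j A hA
    rw [Finset.subset_erase]
    exact ⟨fun h => h.2, fun h => ⟨hA, h⟩⟩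
  refine ⟨(B \ σ).card, fun k => B.erase (b k), fun k => (range k).image b,
    ⟨Finset.card_pos.2 hC, ?_, ?_, ?_, ?_, ?_⟩, ?_⟩
  · intro i hi
    exact (Finset.subset_erase).2 ⟨h.1, (hbB i hi).2⟩
  · intro i hi
    show (B.erase (b i)).card = _
    rw [Finset.card_erase_of_mem (hbB i hi).1]
    omega
  · intro i hi x hx
    obtain ⟨j, hj, rfl⟩ := Finset.mem_image.1 hx
    have hj' := Finset.mem_range.1 hj
    have hjs : j < (B \ σ).card := lt_trans hj' hi
    refine Finset.mem_sdiff.2 ⟨Finset.mem_erase.2 ⟨fun e => ?_, (hbB j hjs).1⟩, (hbB j hjs).2⟩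
    exact absurd (hb3 _ hjs _ hi e) hj'.ne
  · intro i hi A hσ hA
    have hAB : A ⊆ B := hA.trans (Finset.erase_subset _ _)
    rw [Finset.not_subset]
    constructor
    · rintro ⟨j, hj, hj2⟩
      exact ⟨b j, Finset.mem_image_of_mem _ (Finset.mem_range.2 hj), (key j A hAB).1 hj2⟩
    · rintro ⟨x, hx, hxA⟩
      obtain ⟨j, hj, rfl⟩ := Finset.mem_image.1 hx
      exact ⟨j, Finset.mem_range.1 hj, (key j A hAB).2 hxA⟩
  · intro i hi A hσ hA
    have hAB : A ⊆ B := hA.trans (Finset.erase_subset _ _)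
    rw [Finset.not_subset]
    constructor
    · rintro ⟨j, hj, hjs, hj2⟩
      refine ⟨b j, ?_, (key j A hAB).1 hj2⟩
      refine Finset.mem_sdiff.2 ⟨Finset.mem_sdiff.2 ⟨Finset.mem_erase.2 ⟨fun e => ?_,
        (hbB j hjs).1⟩, (hbB j hjs).2⟩, fun hx => ?_⟩
      · exact absurd (hb3 _ hjs _ hi e) hj.ne'
      · obtain ⟨l, hl, e⟩ := Finset.mem_image.1 hx
        have hl' := Finset.mem_range.1 hl
        have := hb3 _ (lt_trans hl' hi) _ hjs e
        omega
    · rintro ⟨x, hx, hxA⟩
      obtain ⟨hx1, hx2⟩ := Finset.mem_sdiff.1 hx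
      obtain ⟨hx3, hx4⟩ := Finset.mem_sdiff.1 hx1
      obtain ⟨hx5, hx6⟩ := Finset.mem_erase.1 hx3
      obtain ⟨j, hj, rfl⟩ := hb2 x (Finset.mem_sdiff.2 ⟨hx6, hx4⟩)
      refine ⟨j, ?_, hj, (key j A hAB).2 hxA⟩
      by_contra hlt'
      rcases Nat.lt_or_ge j i with h1 | h1
      · exact hx2 (Finset.mem_image_of_mem _ (Finset.mem_range.2 h1))
      · have : j = i := by omega
        exact hx5 (this ▸ rfl)
  · intro A
    constructor
    · rintro ⟨h1, j, _, hj, hj2⟩
      refine ⟨h1, (hj2.trans (Finset.erase_subset _ _)), fun hBA => ?_⟩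
      have := hj2 (hBA (hbB j hj).1)
      simp at this
    · rintro ⟨h1, h2⟩
      obtain ⟨x, hx, hxA⟩ := Finset.not_subset.1 h2.2
      obtain ⟨j, hj, rfl⟩ := hb2 x (Finset.mem_sdiff.2 ⟨hx, fun hσ => hxA (h1.1 hσ)⟩)
      exact ⟨h1, j, Nat.zero_le _, hj, (key j A h2.1).2 hxA⟩

theorem shelled_join (σ R S : Finset U) (h1 : Disjoint σ R) (h2 : Disjoint σ S)
    (h3 : Disjoint R S) (hR : R.Nonempty) (hS : S.Nonempty) :
    ∃ (s : ℕ) (F R' : ℕ → Finset U), Shelled σ (R.card + S.card - 2) s F R' ∧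
      ∀ A, A ∈ fc σ F 0 s ↔ σ ⊂ A ∧ A ⊆ σ ∪ R ∪ S ∧ ¬ R ⊆ A ∧ ¬ S ⊆ A := by
  obtain ⟨r, hr1, hr2, hr3⟩ := enum R hR
  obtain ⟨t, ht1, ht2, ht3⟩ := enum S hS
  have hp : 0 < R.card := Finset.card_pos.2 hR
  have hq : 0 < S.card := Finset.card_pos.2 hS
  have hσR : ∀ x ∈ R, x ∉ σ := fun x hx hx' => Finset.disjoint_left.1 h1 hx' hx
  have hσS : ∀ x ∈ S, x ∉ σ := fun x hx hx' => Finset.disjoint_left.1 h2 hx' hx
  have hRS : ∀ x ∈ R, x ∉ S := fun x hx hx' => Finset.disjoint_left.1 h3 hx hx'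
  have hdiv : ∀ k < R.card * S.card, k / S.card < R.card := fun k hk =>
    Nat.div_lt_of_lt_mul (by rwa [Nat.mul_comm] at hk)
  have hmod : ∀ k, k % S.card < S.card := fun k => Nat.mod_lt _ hq
  have key : ∀ k < R.card * S.card, ∀ A : Finset U, A ⊆ σ ∪ R ∪ S →
      (A ⊆ σ ∪ R.erase (r (k / S.card)) ∪ S.erase (t (k % S.card)) ↔
        r (k / S.card) ∉ A ∧ t (k % S.card) ∉ A) := by
    intro k hk A hA
    have hrR := hr1 _ (hdiv k hk)
    have htS := ht1 _ (hmod k)
    constructor
    · intro h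
      refine ⟨fun hx => ?_, fun hx => ?_⟩
      · have := h hx
        simp only [Finset.mem_union, Finset.mem_erase] at this
        rcases this with (h' | h') | h'
        · exact hσR _ hrR h'
        · exact h'.1 rfl
        · exact hRS _ hrR h'.2
      · have := h hx
        simp only [Finset.mem_union, Finset.mem_erase] at this
        rcases this with (h' | h') | h'
        · exact hσS _ htS h'
        · exact hRS _ h'.2 htS
        · exact h'.1 rfl
    · rintro ⟨h, h'⟩ x hx
      have := hA hx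
      simp only [Finset.mem_union, Finset.mem_erase] at this ⊢
      rcases this with (h4 | h4) | h4
      · exact Or.inl (Or.inl h4)
      · exact Or.inl (Or.inr ⟨fun e => h (e ▸ hx), h4⟩)
      · exact Or.inr ⟨fun e => h' (e ▸ hx), h4⟩
  have hsub : ∀ k, σ ∪ R.erase (r (k / S.card)) ∪ S.erase (t (k % S.card)) ⊆ σ ∪ R ∪ S := fun k =>
    Finset.union_subset_union (Finset.union_subset_union le_rfl (Finset.erase_subset _ _))
      (Finset.erase_subset _ _)
  -- the pair of indices
  have hpair : ∀ i < R.card, ∀ j < S.card, ∃ k < R.card * S.card, k / S.card = i ∧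
      k % S.card = j ∧ k = i * S.card + j := by
    intro i hi j hj
    refine ⟨i * S.card + j, ?_, ?_, ?_, rfl⟩
    · calc i * S.card + j < i * S.card + S.card := by omega
        _ = (i + 1) * S.card := by ring
        _ ≤ R.card * S.card := Nat.mul_le_mul_right _ hi
    · rw [Nat.mul_comm, Nat.mul_add_div hq, Nat.div_eq_of_lt hj, Nat.add_zero]
    · rw [Nat.mul_comm, Nat.mul_add_mod, Nat.mod_eq_of_lt hj]
  have hlt : ∀ k l, k < l ↔ k / S.card < l / S.card ∨
      (k / S.card = l / S.card ∧ k % S.card < l % S.card) := by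
    intro k l
    have ek := Nat.div_add_mod k S.card
    have el := Nat.div_add_mod l S.card
    have mk := hmod k
    have ml := hmod l
    constructor
    · intro h
      rcases lt_trichotomy (k / S.card) (l / S.card) with h' | h' | h'
      · exact Or.inl h'
      · refine Or.inr ⟨h', ?_⟩
        rw [h'] at ek
        omega
      · exfalso
        have : S.card * (l / S.card + 1) ≤ S.card * (k / S.card) := Nat.mul_le_mul_left _ h'
        rw [Nat.mul_add, Nat.mul_one] at this
        omega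
    · rintro (h' | ⟨h', h''⟩)
      · have : S.card * (k / S.card + 1) ≤ S.card * (l / S.card) := Nat.mul_le_mul_left _ h'
        rw [Nat.mul_add, Nat.mul_one] at this
        omega
      · rw [h'] at ek
        omega
  refine ⟨R.card * S.card,
    fun k => σ ∪ R.erase (r (k / S.card)) ∪ S.erase (t (k % S.card)),
    fun k => (range (k / S.card)).image r ∪ (range (k % S.card)).image t,
    ⟨Nat.mul_pos hp hq, ?_, ?_, ?_, ?_, ?_⟩, ?_⟩
  · intro k hk
    exact Finset.subset_union_left.trans Finset.subset_union_left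
  · intro k hk
    show (σ ∪ R.erase (r (k / S.card)) ∪ S.erase (t (k % S.card))).card = _
    rw [Finset.card_union_of_disjoint, Finset.card_union_of_disjoint,
      Finset.card_erase_of_mem (hr1 _ (hdiv k hk)), Finset.card_erase_of_mem (ht1 _ (hmod k))]
    · omega
    · exact Finset.disjoint_of_subset_right (Finset.erase_subset _ _) h1
    · rw [Finset.disjoint_union_left]
      exact ⟨Finset.disjoint_of_subset_right (Finset.erase_subset _ _) h2,
        Finset.disjoint_of_subset_left (Finset.erase_subset _ _)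
          (Finset.disjoint_of_subset_right (Finset.erase_subset _ _) h3)⟩
  · intro k hk x hx
    rcases Finset.mem_union.1 hx with hx | hx
    · obtain ⟨i, hi, rfl⟩ := Finset.mem_image.1 hx
      have hi' := Finset.mem_range.1 hi
      have hiR : i < R.card := hi'.trans (hdiv k hk)
      refine Finset.mem_sdiff.2 ⟨?_, hσR _ (hr1 i hiR)⟩
      refine Finset.mem_union_left _ (Finset.mem_union_right _ (Finset.mem_erase.2
        ⟨fun e => ?_, hr1 i hiR⟩))
      exact absurd (hr3 _ hiR _ (hdiv k hk) e) hi'.ne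
    · obtain ⟨i, hi, rfl⟩ := Finset.mem_image.1 hx
      have hi' := Finset.mem_range.1 hi
      have hiS : i < S.card := hi'.trans (hmod k)
      refine Finset.mem_sdiff.2 ⟨?_, hσS _ (ht1 i hiS)⟩
      refine Finset.mem_union_right _ (Finset.mem_erase.2 ⟨fun e => ?_, ht1 i hiS⟩)
      exact absurd (ht3 _ hiS _ (hmod k) e) hi'.ne
  · intro k hk A hσ hA
    have hA' := hA.trans (hsub k)
    obtain ⟨hrA, htA⟩ := (key k hk A hA').1 hA
    rw [Finset.not_subset]
    constructor
    · rintro ⟨l, hl, hl2⟩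
      obtain ⟨e1, e2⟩ := (key l (hl.trans hk) A hA').1 hl2
      rcases (hlt l k).1 hl with h' | ⟨h', h''⟩
      · exact ⟨_, Finset.mem_union_left _ (Finset.mem_image_of_mem _ (Finset.mem_range.2 h')), e1⟩
      · exact ⟨_, Finset.mem_union_right _ (Finset.mem_image_of_mem _ (Finset.mem_range.2 h'')), e2⟩
    · rintro ⟨x, hx, hxA⟩
      rcases Finset.mem_union.1 hx with hx | hx
      · obtain ⟨i, hi, rfl⟩ := Finset.mem_image.1 hx
        have hi' := Finset.mem_range.1 hi
        obtain ⟨l, hl, l1, l2, _⟩ := hpair i (hi'.trans (hdiv k hk)) _ (hmod k)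
        refine ⟨l, (hlt l k).2 (Or.inl (l1 ▸ hi')), (key l hl A hA').2 ?_⟩
        rw [l1, l2]
        exact ⟨hxA, htA⟩
      · obtain ⟨i, hi, rfl⟩ := Finset.mem_image.1 hx
        have hi' := Finset.mem_range.1 hi
        obtain ⟨l, hl, l1, l2, _⟩ := hpair _ (hdiv k hk) i (hi'.trans (hmod k))
        refine ⟨l, (hlt l k).2 (Or.inr ⟨l1, l2 ▸ hi'⟩), (key l hl A hA').2 ?_⟩
        rw [l1, l2]
        exact ⟨hrA, hxA⟩
  · intro k hk A hσ hA
    have hA' := hA.trans (hsub k)
    obtain ⟨hrA, htA⟩ := (key k hk A hA').1 hA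
    rw [Finset.not_subset]
    constructor
    · rintro ⟨l, hl, hls, hl2⟩
      obtain ⟨e1, e2⟩ := (key l hls A hA').1 hl2
      rcases (hlt k l).1 hl with h' | ⟨h', h''⟩
      · have hm := hr1 _ (hdiv l hls)
        refine ⟨_, Finset.mem_sdiff.2 ⟨Finset.mem_sdiff.2 ⟨Finset.mem_union_left _
          (Finset.mem_union_right _ (Finset.mem_erase.2 ⟨fun e => ?_, hm⟩)), hσR _ hm⟩,
          fun hx => ?_⟩, e1⟩
        · exact absurd (hr3 _ (hdiv l hls) _ (hdiv k hk) e) h'.ne'
        · rcases Finset.mem_union.1 hx with hx | hx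
          · obtain ⟨i, hi, e⟩ := Finset.mem_image.1 hx
            have hi' := Finset.mem_range.1 hi
            have := hr3 _ (hi'.trans (hdiv k hk)) _ (hdiv l hls) e
            omega
          · obtain ⟨i, hi, e⟩ := Finset.mem_image.1 hx
            have hi' := Finset.mem_range.1 hi
            exact hRS _ hm (e ▸ ht1 _ (hi'.trans (hmod k)))
      · have hm := ht1 _ (hmod l)
        refine ⟨_, Finset.mem_sdiff.2 ⟨Finset.mem_sdiff.2 ⟨Finset.mem_union_right _
          (Finset.mem_erase.2 ⟨fun e => ?_, hm⟩), hσS _ hm⟩, fun hx => ?_⟩, e2⟩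
        · exact absurd (ht3 _ (hmod l) _ (hmod k) e) h''.ne'
        · rcases Finset.mem_union.1 hx with hx | hx
          · obtain ⟨i, hi, e⟩ := Finset.mem_image.1 hx
            have hi' := Finset.mem_range.1 hi
            exact hRS _ (hr1 _ (hi'.trans (hdiv k hk))) (e ▸ hm)
          · obtain ⟨i, hi, e⟩ := Finset.mem_image.1 hx
            have hi' := Finset.mem_range.1 hi
            have := ht3 _ (hi'.trans (hmod k)) _ (hmod l) e
            omega
    · rintro ⟨x, hx, hxA⟩
      obtain ⟨hx1, hx2⟩ := Finset.mem_sdiff.1 hx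
      obtain ⟨hx3, hx4⟩ := Finset.mem_sdiff.1 hx1
      rw [Finset.mem_union, not_or] at hx2
      simp only [Finset.mem_union, Finset.mem_erase] at hx3
      rcases hx3 with (h' | ⟨h', h''⟩) | ⟨h', h''⟩
      · exact absurd h' hx4
      · obtain ⟨i, hi, rfl⟩ := hr2 x h''
        have hki : k / S.card < i := by
          by_contra hc
          rcases Nat.lt_or_ge i (k / S.card) with h5 | h5
          · exact hx2.1 (Finset.mem_image_of_mem _ (Finset.mem_range.2 h5))
          · have : i = k / S.card := by omega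
            exact h' (by rw [this])
        obtain ⟨l, hl, l1, l2, _⟩ := hpair i hi _ (hmod k)
        refine ⟨l, (hlt k l).2 (Or.inl (l1 ▸ hki)), hl, (key l hl A hA').2 ?_⟩
        rw [l1, l2]
        exact ⟨hxA, htA⟩
      · obtain ⟨i, hi, rfl⟩ := ht2 x h''
        have hki : k % S.card < i := by
          by_contra hc
          rcases Nat.lt_or_ge i (k % S.card) with h5 | h5
          · exact hx2.2 (Finset.mem_image_of_mem _ (Finset.mem_range.2 h5))
          · have : i = k % S.card := by omega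
            exact h' (by rw [this])
        obtain ⟨l, hl, l1, l2, _⟩ := hpair _ (hdiv k hk) i hi
        refine ⟨l, (hlt k l).2 (Or.inr ⟨l1.symm, l2 ▸ hki⟩), hl, (key l hl A hA').2 ?_⟩
        rw [l1, l2]
        exact ⟨hrA, hxA⟩
  · intro A
    constructor
    · rintro ⟨h4, k, _, hk, hk2⟩
      have hA' := hk2.trans (hsub k)
      obtain ⟨e1, e2⟩ := (key k hk A hA').1 hk2
      exact ⟨h4, hA', fun h => e1 (h (hr1 _ (hdiv k hk))), fun h => e2 (h (ht1 _ (hmod k)))⟩
    · rintro ⟨h4, hA', hRA, hSA⟩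
      obtain ⟨x, hx, hxA⟩ := Finset.not_subset.1 hRA
      obtain ⟨y, hy, hyA⟩ := Finset.not_subset.1 hSA
      obtain ⟨i, hi, rfl⟩ := hr2 x hx
      obtain ⟨j, hj, rfl⟩ := ht2 y hy
      obtain ⟨l, hl, l1, l2, _⟩ := hpair i hi j hj
      refine ⟨h4, l, Nat.zero_le _, hl, (key l hl A hA').2 ?_⟩
      rw [l1, l2]
      exact ⟨hxA, hyA⟩

end Pool.Agent.Helper32.SD
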