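import Pool.Agent.Helper32.SD.Base

/-!
# SD-2 Join: the join of a good complex with any complex is good

PROOF. Induction on the number of vertices of `M` (the finite set `{y | {y} ∈ M}`, `Set.ncard`). No
vertex: `M = {∅}` and `jn K M = K`. Otherwise let `y` be a vertex of `M`, `M' = {β ∈ M | y ∉ β}`,
`N = {β | y ∉ β ∧ insert y β ∈ M}` (the link). Then `jn K M = jn K M' ∪ cn y (jn K N)` and
`jn K M' ∩ cn y (jn K N) = jn K N` (`y` is not a vertex of `K` by `hadj`, no loops). `M'` and `N` are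
complexes with fewer vertices containing `∅`. Use `Gd.cone` and `Gd.union`.
-/

open Finset Pool.Agent.Helper51.CD

namespace Pool.Agent.Helper32.SD

theorem jn_isCx {X : Type} [DecidableEq X] {G : SimpleGraph X} {K M : Set (Finset X)}
    (hK : IsCx G K) (hM : IsCx G M)
    (hadj : ∀ α ∈ K, ∀ β ∈ M, ∀ x ∈ α, ∀ y ∈ β, G.Adj x y) : IsCx G (jn K M) := by
  constructor
  · rintro τ ⟨α, hα, β, hβ, rfl⟩ a ha b hb hab
    rw [Finset.mem_coe, Finset.mem_union] at ha hb
    rcases ha with ha | ha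
    · rcases hb with hb | hb
      · exact hK.clique α hα ha hb hab
      · exact hadj α hα β hβ a ha b hb
    · rcases hb with hb | hb
      · exact (hadj α hα β hβ b hb a ha).symm
      · exact hM.clique β hβ ha hb hab
  · rintro τ ⟨α, hα, β, hβ, rfl⟩ ρ hρ
    refine ⟨α ∩ ρ, hK.down α hα _ Finset.inter_subset_left, β ∩ ρ,
      hM.down β hβ _ Finset.inter_subset_left, ?_⟩
    rw [← Finset.union_inter_distrib_right]
    exact Finset.inter_eq_right.2 hρ

/-- The faces of `M` without `y`. -/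
def joinDel {X : Type} (M : Set (Finset X)) (y : X) : Set (Finset X) := {β | β ∈ M ∧ y ∉ β}

/-- The link of `y` in `M`. -/
def joinLk {X : Type} [DecidableEq X] (M : Set (Finset X)) (y : X) : Set (Finset X) :=
  {β | y ∉ β ∧ insert y β ∈ M}

section

variable {X : Type} [DecidableEq X] {G : SimpleGraph X} {K M : Set (Finset X)} {y : X}

theorem joinDel_isCx (hM : IsCx G M) : IsCx G (joinDel M y) :=
  ⟨fun τ hτ => hM.clique τ hτ.1,
    fun τ hτ ρ hρ => ⟨hM.down τ hτ.1 ρ hρ, fun h => hτ.2 (hρ h)⟩⟩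

theorem joinLk_sub (hM : IsCx G M) {β : Finset X} (hβ : β ∈ joinLk M y) : β ∈ joinDel M y :=
  ⟨hM.down _ hβ.2 β (Finset.subset_insert y β), hβ.1⟩

theorem joinLk_isCx (hM : IsCx G M) : IsCx G (joinLk M y) :=
  ⟨fun τ hτ => hM.clique τ (joinLk_sub hM hτ).1,
    fun τ hτ ρ hρ => ⟨fun h => hτ.1 (hρ h), hM.down _ hτ.2 _ (Finset.insert_subset_insert y hρ)⟩⟩

theorem join_notMem (hy : {y} ∈ M)
    (hadj : ∀ α ∈ K, ∀ β ∈ M, ∀ x ∈ α, ∀ y ∈ β, G.Adj x y) {α : Finset X} (hα : α ∈ K) :
    y ∉ α := fun h =>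
  G.loopless.irrefl y (hadj α hα {y} hy y h y (Finset.mem_singleton_self y))

theorem join_split (hM : IsCx G M) (hy : {y} ∈ M)
    (hadj : ∀ α ∈ K, ∀ β ∈ M, ∀ x ∈ α, ∀ y ∈ β, G.Adj x y) :
    jn K M = jn K (joinDel M y) ∪ cn y (jn K (joinLk M y)) := by
  ext τ
  constructor
  · rintro ⟨α, hα, β, hβ, rfl⟩
    by_cases h : y ∈ β
    · refine Or.inr ⟨α, hα, β.erase y, ⟨Finset.notMem_erase y β, ?_⟩, ?_⟩
      · rwa [Finset.insert_erase h]
      · rw [Finset.erase_union_distrib, Finset.erase_eq_of_notMem (join_notMem hy hadj hα)]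
    · exact Or.inl ⟨α, hα, β, ⟨hβ, h⟩, rfl⟩
  · rintro (⟨α, hα, β, hβ, rfl⟩ | ⟨α, hα, β, hβ, h⟩)
    · exact ⟨α, hα, β, hβ.1, rfl⟩
    · by_cases h1 : y ∈ τ
      · refine ⟨α, hα, insert y β, hβ.2, ?_⟩
        rw [Finset.union_insert, h, Finset.insert_erase h1]
      · refine ⟨α, hα, β, (joinLk_sub hM hβ).1, ?_⟩
        rw [h, Finset.erase_eq_of_notMem h1]

theorem join_meet (hK : IsCx G K) (hM : IsCx G M) (hy : {y} ∈ M)
    (hadj : ∀ α ∈ K, ∀ β ∈ M, ∀ x ∈ α, ∀ y ∈ β, G.Adj x y) :
    jn K (joinDel M y) ∩ cn y (jn K (joinLk M y)) = jn K (joinLk M y) := by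
  ext τ
  constructor
  · rintro ⟨⟨α, hα, β, hβ, rfl⟩, h⟩
    have h1 : y ∉ α ∪ β := by
      rw [Finset.mem_union]
      rintro (h1 | h1)
      · exact join_notMem hy hadj hα h1
      · exact hβ.2 h1
    have h2 : (α ∪ β).erase y ∈ jn K (joinLk M y) := h
    rwa [Finset.erase_eq_of_notMem h1] at h2
  · intro h
    obtain ⟨α, hα, β, hβ, rfl⟩ := h
    refine ⟨⟨α, hα, β, joinLk_sub hM hβ, rfl⟩, ?_⟩
    exact (jn_isCx hK (joinLk_isCx hM)
      (fun α' hα' β' hβ' => hadj α' hα' β' (joinLk_sub hM hβ').1)).down _ ⟨α, hα, β, hβ, rfl⟩ _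
      (Finset.erase_subset _ _)

end

theorem Gd.join {X : Type} [Fintype X] [DecidableEq X] {G : SimpleGraph X} {K M : Set (Finset X)}
    (hK : Gd G K) (hM : IsCx G M) (h0 : ∅ ∈ M)
    (hadj : ∀ α ∈ K, ∀ β ∈ M, ∀ x ∈ α, ∀ y ∈ β, G.Adj x y) : Gd G (jn K M) := by
  obtain ⟨n, hn⟩ : ∃ n, Set.ncard {y : X | ({y} : Finset X) ∈ M} = n := ⟨_, rfl⟩
  induction n using Nat.strong_induction_on generalizing M with
  | _ n ih =>
    by_cases hv : ∃ y : X, ({y} : Finset X) ∈ M
    · obtain ⟨y, hy⟩ := hv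
      have hD := joinDel_isCx (y := y) hM
      have hL := joinLk_isCx (y := y) hM
      have hDsub : ∀ β ∈ joinDel M y, β ∈ M := fun β hβ => hβ.1
      have hLsub : ∀ β ∈ joinLk M y, β ∈ M := fun β hβ => (joinLk_sub hM hβ).1
      have hlt : ∀ M' : Set (Finset X), (∀ β ∈ M', β ∈ M) → ({y} : Finset X) ∉ M' →
          Set.ncard {z : X | ({z} : Finset X) ∈ M'} < n := by
        intro M' h1 h2
        rw [← hn]
        refine Set.ncard_lt_ncard ⟨fun z hz => h1 _ hz, fun h => h2 (h hy)⟩ (Set.toFinite _)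
      have hj1 : Gd G (jn K (joinDel M y)) := by
        refine ih _ (hlt _ hDsub fun h => h.2 (Finset.mem_singleton_self y)) hD
          ⟨h0, Finset.notMem_empty y⟩ (fun α hα β hβ => hadj α hα β (hDsub β hβ)) rfl
      have hj2 : Gd G (jn K (joinLk M y)) := by
        refine ih _ (hlt _ hLsub fun h => h.1 (Finset.mem_singleton_self y)) hL
          ⟨Finset.notMem_empty y, hy⟩ (fun α hα β hβ => hadj α hα β (hLsub β hβ)) rfl
      rw [join_split hM hy hadj]
      refine Gd.union hj1 (Gd.cone ?_ hj2) ?_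
      · rintro τ ⟨α, hα, β, hβ, rfl⟩
        refine ⟨?_, fun x hx => ?_⟩
        · rw [Finset.mem_union]
          rintro (h | h)
          · exact join_notMem hy hadj hα h
          · exact hβ.1 h
        · rcases Finset.mem_union.1 hx with hx | hx
          · exact (hadj α hα {y} hy x hx y (Finset.mem_singleton_self y)).symm
          · refine hM.clique _ hβ.2 ?_ ?_ ?_
            · exact Finset.mem_coe.2 (Finset.mem_insert_self y β)
            · exact Finset.mem_coe.2 (Finset.mem_insert_of_mem hx)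
            · rintro rfl
              exact hβ.1 hx
      · rw [join_meet hK.cx hM hy hadj]
        exact hj2
    · have hM0 : ∀ β, β ∈ M ↔ β = ∅ := by
        intro β
        constructor
        · intro hβ
          rw [Finset.eq_empty_iff_forall_notMem]
          intro x hx
          exact hv ⟨x, hM.down β hβ {x} (Finset.singleton_subset_iff.2 hx)⟩
        · rintro rfl
          exact h0
      have hEq : jn K M = K := by
        ext τ
        constructor
        · rintro ⟨α, hα, β, hβ, rfl⟩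
          rw [(hM0 β).1 hβ, Finset.union_empty]
          exact hα
        · intro hτ
          exact ⟨τ, hτ, ∅, h0, Finset.union_empty τ⟩
      rw [hEq]
      exact hK

/-- The suspension of any complex is good. -/
theorem Gd.susp {X : Type} [Fintype X] [DecidableEq X] {G : SimpleGraph X} {M : Set (Finset X)}
    {x y : X} (hxy : x ≠ y) (h : ¬ G.Adj x y) (hM : IsCx G M) (h0 : ∅ ∈ M)
    (hx : ∀ β ∈ M, ∀ z ∈ β, G.Adj x z) (hy : ∀ β ∈ M, ∀ z ∈ β, G.Adj y z) :
    Gd G (cn x M ∪ cn y M) := by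
  have h1 : cn x M ∪ cn y M = jn {∅, {x}, {y}} M := by
    ext τ
    constructor
    · rintro (h2 | h2)
      · have h3 : τ.erase x ∈ M := h2
        by_cases h4 : x ∈ τ
        · refine ⟨{x}, Or.inr (Or.inl rfl), τ.erase x, h3, ?_⟩
          rw [← Finset.insert_eq, Finset.insert_erase h4]
        · refine ⟨∅, Or.inl rfl, τ.erase x, h3, ?_⟩
          rw [Finset.empty_union, Finset.erase_eq_of_notMem h4]
      · have h3 : τ.erase y ∈ M := h2
        by_cases h4 : y ∈ τ
        · refine ⟨{y}, Or.inr (Or.inr rfl), τ.erase y, h3, ?_⟩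
          rw [← Finset.insert_eq, Finset.insert_erase h4]
        · refine ⟨∅, Or.inl rfl, τ.erase y, h3, ?_⟩
          rw [Finset.empty_union, Finset.erase_eq_of_notMem h4]
    · rintro ⟨α, hα, β, hβ, rfl⟩
      rcases hα with rfl | rfl | hα
      · refine Or.inl ?_
        show (∅ ∪ β).erase x ∈ M
        rw [Finset.empty_union]
        exact hM.down β hβ _ (Finset.erase_subset x β)
      · refine Or.inl ?_
        show ({x} ∪ β).erase x ∈ M
        refine hM.down β hβ _ fun z hz => ?_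
        rw [Finset.mem_erase, Finset.mem_union, Finset.mem_singleton] at hz
        exact hz.2.resolve_left hz.1
      · rw [Set.mem_singleton_iff.1 hα]
        refine Or.inr ?_
        show ({y} ∪ β).erase y ∈ M
        refine hM.down β hβ _ fun z hz => ?_
        rw [Finset.mem_erase, Finset.mem_union, Finset.mem_singleton] at hz
        exact hz.2.resolve_left hz.1
  rw [h1]
  refine Gd.join (Gd.pair hxy h) hM h0 ?_
  intro α hα β hβ a ha b hb
  rcases hα with rfl | rfl | hα
  · exact absurd ha (Finset.notMem_empty a)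
  · rw [Finset.mem_singleton.1 ha]
    exact hx β hβ b hb
  · rw [Set.mem_singleton_iff.1 hα] at ha
    rw [Finset.mem_singleton.1 ha]
    exact hy β hβ b hb

end Pool.Agent.Helper32.SD
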