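import Pool.Agent.Helper32.SD.Base

/-!
# SD-1 Relabel: a complex is good if its image under an injection of the vertices is

PROOF. Let `o` be a linear order on `X`. Choose a linear order `o'` on `X'` for which `f` is
monotone: `LinearOrder.lift'` along the injection `X' → X ⊕ₗ X'` (any linear order on `X'`, see
`exists_order`), `f x ↦ inl x`, other elements to `inr`. `HasK G' {map f '' K}` for `o'` is a
polynomial family `F'`. Define the family `F` on `X`: same `V, ι, b`, `s t x = F'.s t (f x)` if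
`{x} ∈ K`, and `s t x = 1` otherwise (system for `G` by `hG`; compare `famsK_restr` in CD/FamsK).
GoodK: given `S` and `d`, let `S' = f '' S`. For a cochain `c` on `K` with `Di c = 0` let `c'` be
`c' (τ.map f) = c τ`, `0` elsewhere. It is a cochain on `map f '' K` (`CC`), `Di c' = 0` because
`sg (f x) (τ.map f) = sg x τ` (`f` monotone) and `(τ.map f).erase (f x) = (τ.erase x).map f`. A
primitive `b'` gives the primitive `b τ = b' (τ.map f)` if `τ ∈ K`, `0` else. (Compare `restr` in
Helper32/BL/Pair.lean; `ExAt`, `CC`, `Di`, `tw` are in Helper51/CD/Defs.lean, `Di_of_mem` in Basic.)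
-/

open Finset Pool.Agent.Helper51.CD

namespace Pool.Agent.Helper32.SD

/-- A linear order can be extended along an injection. -/
theorem relabel_order {X X' : Type} [LinearOrder X] (f : X ↪ X') :
    ∃ _ : LinearOrder X', StrictMono f := by
  classical
  obtain ⟨o1⟩ := exists_order X'
  let g : X' → Lex (X ⊕ X') := fun y =>
    if h : ∃ x, f x = y then toLex (Sum.inl h.choose) else toLex (Sum.inr y)
  have hg1 : ∀ x, g (f x) = toLex (Sum.inl x) := by
    intro x
    have h : ∃ x', f x' = f x := ⟨x, rfl⟩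
    have h1 : g (f x) = toLex (Sum.inl h.choose) := dif_pos h
    rw [h1, f.injective h.choose_spec]
  have hg2 : ∀ y, (¬ ∃ x, f x = y) → g y = toLex (Sum.inr y) := fun y h => dif_neg h
  have hg : Function.Injective g := by
    intro y z hyz
    by_cases hy : ∃ x, f x = y
    · obtain ⟨x, rfl⟩ := hy
      by_cases hz : ∃ x, f x = z
      · obtain ⟨x', rfl⟩ := hz
        rw [hg1, hg1] at hyz
        rw [Sum.inl.inj (toLex.injective hyz)]
      · rw [hg1, hg2 z hz] at hyz
        exact absurd (toLex.injective hyz) Sum.inl_ne_inr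
    · by_cases hz : ∃ x, f x = z
      · obtain ⟨x', rfl⟩ := hz
        rw [hg1, hg2 y hy] at hyz
        exact absurd (toLex.injective hyz) Sum.inr_ne_inl
      · rw [hg2 y hy, hg2 z hz] at hyz
        exact Sum.inr.inj (toLex.injective hyz)
  refine ⟨LinearOrder.lift' g hg, ?_⟩
  intro x y hxy
  show g (f x) < g (f y)
  rw [hg1, hg1]
  exact Sum.Lex.inl_lt_inl_iff.2 hxy

section

variable {X X' : Type} [LinearOrder X] [LinearOrder X'] {f : X ↪ X'}

theorem relabel_sg (hf : StrictMono f) (x : X) (τ : Finset X) : sg (f x) (τ.map f) = sg x τ := by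
  have h : (τ.map f).filter (fun y => y < f x) = (τ.filter (fun y => y < x)).map f := by
    rw [Finset.filter_map]
    congr 1
    refine Finset.filter_congr fun y _ => ?_
    exact hf.lt_iff_lt
  unfold sg
  rw [h, Finset.card_map]

theorem relabel_erase (x : X) (τ : Finset X) : (τ.map f).erase (f x) = (τ.erase x).map f := by
  exact (Finset.map_erase f τ x).symm

variable {V : Type} [AddCommGroup V] [Module ℚ V]

theorem relabel_mem {K : Set (Finset X)} {τ : Finset X} :
    τ.map f ∈ ((fun τ : Finset X => τ.map f) '' K) ↔ τ ∈ K := by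
  constructor
  · rintro ⟨ρ, hρ, h⟩
    rwa [← Finset.map_injective f h]
  · exact fun h => ⟨τ, h, rfl⟩

theorem relabel_tw {s : X → Module.End ℚ V} {s' : X' → Module.End ℚ V} {x : X}
    (h : s x = s' (f x)) (S : Set X) : tw S s x = tw (f '' S) s' (f x) := by
  unfold tw
  by_cases hx : x ∈ S
  · have h1 : f x ∈ f '' S := ⟨x, hx, rfl⟩
    rw [if_pos hx, if_pos h1, h]
  · have h1 : ¬ f x ∈ f '' S := by
      rintro ⟨y, hy, hyx⟩
      exact hx (f.injective hyx ▸ hy)
    rw [if_neg hx, if_neg h1, h]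

theorem relabel_Di (hf : StrictMono f) {K : Set (Finset X)} {s : X → Module.End ℚ V}
    {s' : X' → Module.End ℚ V} {τ : Finset X} (hτ : τ ∈ K) (h : ∀ x ∈ τ, s x = s' (f x))
    (g : Finset X' → V) :
    Di K s (fun ρ => g (ρ.map f)) τ =
      Di ((fun τ : Finset X => τ.map f) '' K) s' g (τ.map f) := by
  rw [Di_of_mem _ _ hτ, Di_of_mem _ _ (relabel_mem.2 hτ), Finset.sum_map]
  refine Finset.sum_congr rfl fun x hx => ?_
  rw [relabel_sg hf, relabel_erase]
  unfold Pr
  rw [h x hx]

theorem relabel_good (hf : StrictMono f) {K : Set (Finset X)} {s : X → Module.End ℚ V}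
    {s' : X' → Module.End ℚ V} (hK : ∀ τ ∈ K, ∀ ρ : Finset X, ρ ⊆ τ → ρ ∈ K)
    (hs : ∀ x, {x} ∈ K → s x = s' (f x))
    (h : GoodK ((fun τ : Finset X => τ.map f) '' K) s') : GoodK K s := by
  classical
  intro S d c hc hD
  rw [mem_CC] at hc
  obtain ⟨c1, c2, c3⟩ := hc
  have hs1 : ∀ τ ∈ K, ∀ x ∈ τ, tw S s x = tw (f '' S) s' (f x) := fun τ hτ x hx =>
    relabel_tw (hs x (hK τ hτ {x} (Finset.singleton_subset_iff.2 hx))) S
  let c' : Finset X' → V := fun τ' => if h : ∃ τ ∈ K, τ.map f = τ' then c h.choose else 0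
  have hc1 : ∀ τ : Finset X, c' (τ.map f) = c τ := by
    intro τ
    by_cases hτ : τ ∈ K
    · have h1 : ∃ ρ ∈ K, ρ.map f = τ.map f := ⟨τ, hτ, rfl⟩
      have h2 : c' (τ.map f) = c h1.choose := dif_pos h1
      rw [h2, Finset.map_injective f h1.choose_spec.2]
    · have h1 : ¬ ∃ ρ ∈ K, ρ.map f = τ.map f := by
        rintro ⟨ρ, hρ, h1⟩
        exact hτ (Finset.map_injective f h1 ▸ hρ)
      have h2 : c' (τ.map f) = 0 := dif_neg h1
      rw [h2, c1 τ hτ]
  have hc2 : ∀ τ', τ' ∉ ((fun τ : Finset X => τ.map f) '' K) → c' τ' = 0 := by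
    intro τ' h1
    exact dif_neg h1
  have hc3 : (fun ρ : Finset X => c' (ρ.map f)) = c := funext hc1
  have hc4 : c' ∈ CC ((fun τ : Finset X => τ.map f) '' K) (tw (f '' S) s') d := by
    refine ⟨hc2, fun τ' h1 => ?_, fun τ' y hy => ?_⟩
    · by_cases h2 : τ' ∈ ((fun τ : Finset X => τ.map f) '' K)
      · obtain ⟨τ, hτ, rfl⟩ := h2
        show c' (τ.map f) = 0
        rw [hc1]
        refine c2 τ ?_
        have h3 : ((τ.map f).card : ℤ) ≠ d := h1
        rwa [Finset.card_map] at h3
      · exact hc2 τ' h2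
    · by_cases h2 : τ' ∈ ((fun τ : Finset X => τ.map f) '' K)
      · obtain ⟨τ, hτ, rfl⟩ := h2
        obtain ⟨x, hx, rfl⟩ := Finset.mem_map.1 hy
        show tw (f '' S) s' (f x) (c' (τ.map f)) = c' (τ.map f)
        rw [hc1, ← hs1 τ hτ x hx]
        exact c3 τ x hx
      · rw [hc2 τ' h2, map_zero]
  have hc5 : Di ((fun τ : Finset X => τ.map f) '' K) (tw (f '' S) s') c' = 0 := by
    funext τ'
    by_cases h2 : τ' ∈ ((fun τ : Finset X => τ.map f) '' K)
    · obtain ⟨τ, hτ, rfl⟩ := h2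
      show Di ((fun τ : Finset X => τ.map f) '' K) (tw (f '' S) s') c' (τ.map f) = 0
      rw [← relabel_Di hf hτ (hs1 τ hτ) c', hc3, hD]
      rfl
    · rw [Di_of_notMem _ _ h2]
      rfl
  obtain ⟨b', hb', hb⟩ := h (f '' S) d c' hc4 hc5
  rw [mem_CC] at hb'
  obtain ⟨b1, b2, b3⟩ := hb'
  refine ⟨fun ρ => b' (ρ.map f), ⟨fun τ hτ => ?_, fun τ hτ => ?_, fun τ x hx => ?_⟩, ?_⟩
  · exact b1 _ fun h1 => hτ (relabel_mem.1 h1)
  · refine b2 _ ?_
    rwa [Finset.card_map]
  · by_cases hτ : τ ∈ K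
    · rw [hs1 τ hτ x hx]
      exact b3 (τ.map f) (f x) (Finset.mem_map_of_mem f hx)
    · have h1 : b' (τ.map f) = 0 := b1 _ fun h1 => hτ (relabel_mem.1 h1)
      show tw S s x (b' (τ.map f)) = b' (τ.map f)
      rw [h1, map_zero]
  · funext τ
    by_cases hτ : τ ∈ K
    · rw [relabel_Di hf hτ (hs1 τ hτ) b', hb, hc1]
    · rw [Di_of_notMem _ _ hτ, c1 τ hτ]

end

open scoped Classical in
/-- The family transported along `f`. -/
noncomputable def relabelFam {X X' : Type} {G : SimpleGraph X} {G' : SimpleGraph X'} (f : X ↪ X')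
    (K : Set (Finset X)) (F : PFam G')
    (hG : ∀ x y, {x} ∈ K → {y} ∈ K → G.Adj x y → G'.Adj (f x) (f y)) : PFam G where
  V := F.V
  s := fun t x => if {x} ∈ K then F.s t (f x) else 1
  ι := F.ι
  b := F.b
  sys := by
    intro t
    refine ⟨fun x => ?_, fun x y hxy => ?_⟩
    · by_cases hx : {x} ∈ K
      · rw [if_pos hx, (F.sys t).inv]
      · rw [if_neg hx, mul_one]
    · by_cases hx : {x} ∈ K
      · by_cases hy : {y} ∈ K
        · rw [if_pos hx, if_pos hy]
          exact (F.sys t).comm _ _ (hG x y hx hy hxy)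
        · rw [if_neg hy, mul_one, one_mul]
      · rw [if_neg hx, mul_one, one_mul]
  poly := by
    intro x
    by_cases hx : {x} ∈ K
    · simp only [if_pos hx]
      exact F.poly (f x)
    · simp only [if_neg hx]
      exact Pool.Agent.Helper51.CD.IsPoly.const 1
  diag := by
    intro x i
    by_cases hx : {x} ∈ K
    · rw [if_pos hx]
      exact F.diag (f x) i
    · rw [if_neg hx]
      exact Or.inl rfl

theorem Gd.relabel {X X' : Type} [Fintype X] [Fintype X'] {G : SimpleGraph X}
    {G' : SimpleGraph X'} (f : X ↪ X') {K : Set (Finset X)} (hK : IsCx G K)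
    (hG : ∀ x y, {x} ∈ K → {y} ∈ K → G.Adj x y → G'.Adj (f x) (f y))
    (h : Gd G' ((fun τ : Finset X => τ.map f) '' K)) : Gd G K := by
  refine ⟨hK, fun o => ?_⟩
  obtain ⟨o', hf⟩ := relabel_order f
  obtain ⟨F, hF⟩ := h.2 o'
  refine ⟨relabelFam f K F hG, fun M hM => ?_⟩
  rw [Set.mem_singleton_iff.1 hM]
  refine relabel_good hf hK.down (fun x hx => ?_) (hF _ rfl)
  exact if_pos hx

end Pool.Agent.Helper32.SD
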