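import Pool.Agent.Helper32.SD.Step
import Pool.Agent.Helper32.SD.Relabel
import Pool.Agent.Helper32.SD.Cross

/-!
# SD-5 Sphere: barycentric subdivisions of even-dimensional shelled spheres are good

PROOF. Strong induction on `N`. For `1 ≤ i < s` let
`K i = Dl (fc σ F 0 i) ∪ cn e (Dl (fc σ F 0 i ∩ fc σ F i s))`, graph `St (fc σ F 0 i ∩ fc σ F i s) ∅`.
`i = 1`: `K 1` is the suspension of `Dl {A | σ ⊂ A ⊂ F 0}` with the vertices `F 0` and `e`.
Step `i → i+1` (`1 ≤ i`, `i + 1 < s`): `step` with `F := inl (F i)`, `e`, `d`, `Q = Dl (fc σ F 0 i)`,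
`E' = Dl {A | σ ⊂ A ⊆ F i, ¬ R i ⊆ A}`, `E'' = Dl (fc σ F 0 i ∩ fc σ F (i+1) s)`,
`P = Dl {A | σ ⊂ A ⊆ F i, ¬ S ⊆ A}`, `S = (F i \ σ) \ R i`, `C = Dl {A | σ ⊂ A ⊆ F i, ¬ R i ⊆ A, ¬ S ⊆ A}`,
which is good by induction (`shelled_join`).
Last step: `Dl (fc σ F 0 s)` is `K (s-1)` with `e` replaced by `F (s-1)` (relabel).
-/

open Finset Pool.Agent.Helper51.CD

namespace Pool.Agent.Helper32.SD

section rename

variable {X : Type} [Fintype X] [DecidableEq X]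

omit [Fintype X] in
theorem image_fix (f : X ↪ X) {L : Set (Finset X)} (hL : ∀ τ ∈ L, ∀ x ∈ τ, f x = x) :
    (fun τ : Finset X => τ.map f) '' L = L := by
  have h1 : ∀ τ ∈ L, τ.map f = τ := by
    intro τ hτ
    ext x
    rw [mem_map]
    constructor
    · rintro ⟨y, hy, rfl⟩
      rw [hL τ hτ y hy]
      exact hy
    · intro hx
      exact ⟨x, hx, hL τ hτ x hx⟩
  ext τ
  constructor
  · rintro ⟨ρ, hρ, rfl⟩
    change ρ.map f ∈ L
    rwa [h1 ρ hρ]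
  · intro hτ
    exact ⟨τ, hτ, h1 τ hτ⟩

omit [Fintype X] in
theorem image_cn (f : X ↪ X) {u u' : X} (hu : f u = u') {L : Set (Finset X)}
    (hL : ∀ τ ∈ L, ∀ x ∈ τ, f x = x) (hn : ∀ τ ∈ L, u ∉ τ ∧ u' ∉ τ) :
    (fun τ : Finset X => τ.map f) '' (cn u L) = cn u' L := by
  have h1 : ∀ τ ∈ L, τ.map f = τ := by
    intro τ hτ
    ext x
    rw [mem_map]
    constructor
    · rintro ⟨y, hy, rfl⟩
      rw [hL τ hτ y hy]
      exact hy
    · intro hx
      exact ⟨x, hx, hL τ hτ x hx⟩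
  ext τ
  constructor
  · rintro ⟨ρ, hρ, rfl⟩
    change (ρ.map f).erase u' ∈ L
    have h2 : (ρ.map f).erase u' = (ρ.erase u).map f := by
      rw [← hu, map_erase]
    rw [h2, h1 _ hρ]
    exact hρ
  · intro hτ
    change τ.erase u' ∈ L at hτ
    by_cases h : u' ∈ τ
    · refine ⟨insert u (τ.erase u'), ?_, ?_⟩
      · change (insert u (τ.erase u')).erase u ∈ L
        rw [erase_insert (hn _ hτ).1]
        exact hτ
      · change (insert u (τ.erase u')).map f = τ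
        rw [map_insert, h1 _ hτ, hu, insert_erase h]
    · rw [erase_eq_of_notMem h] at hτ
      refine ⟨τ, ?_, h1 τ hτ⟩
      change τ.erase u ∈ L
      rwa [erase_eq_of_notMem (hn _ hτ).1]

/-- Renaming the apex of a cone. -/
theorem Gd.rename {G G' : SimpleGraph X} {u u' : X} {L1 L : Set (Finset X)}
    (h1 : ∀ τ ∈ L1, u ∉ τ ∧ u' ∉ τ) (h2 : ∀ τ ∈ L, u ∉ τ ∧ u' ∉ τ)
    (hcx : IsCx G (L1 ∪ cn u L))
    (hG : ∀ x y, x ≠ u → y ≠ u → {x} ∈ L1 ∪ cn u L → {y} ∈ L1 ∪ cn u L → G.Adj x y → G'.Adj x y)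
    (hG' : ∀ x, x ≠ u → {x} ∈ L1 ∪ cn u L → G.Adj u x → G'.Adj u' x)
    (h : Gd G' (L1 ∪ cn u' L)) : Gd G (L1 ∪ cn u L) := by
  have hv : ∀ x, {x} ∈ L1 ∪ cn u L → x ≠ u' ∨ u = u' := by
    rintro x (hx | hx)
    · left
      rintro rfl
      exact (h1 _ hx).2 (mem_singleton_self _)
    · by_cases h3 : u = u'
      · exact Or.inr h3
      · left
        rintro rfl
        change ({x} : Finset X).erase u ∈ L at hx
        rw [erase_eq_of_notMem (by simpa using h3)] at hx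
        exact (h2 _ hx).2 (mem_singleton_self _)
  have hfix : ∀ x, x ≠ u → x ≠ u' → Equiv.swap u u' x = x := fun x h3 h4 =>
    Equiv.swap_apply_of_ne_of_ne h3 h4
  refine Gd.relabel (Equiv.swap u u').toEmbedding (G' := G') hcx ?_ ?_
  · intro x y hx hy hxy
    change G'.Adj (Equiv.swap u u' x) (Equiv.swap u u' y)
    by_cases huu : u = u'
    · subst huu
      rw [Equiv.swap_self, Equiv.refl_apply, Equiv.refl_apply]
      by_cases hxu : x = u
      · subst hxu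
        exact hG' y (fun h3 => G.loopless.irrefl x (h3 ▸ hxy)) hy hxy
      · by_cases hyu : y = u
        · subst hyu
          exact (hG' x hxu hx hxy.symm).symm
        · exact hG x y hxu hyu hx hy hxy
    · have hx' := (hv x hx).resolve_right huu
      have hy' := (hv y hy).resolve_right huu
      by_cases hxu : x = u
      · subst hxu
        have hyu : y ≠ x := fun h3 => G.loopless.irrefl x (h3 ▸ hxy)
        rw [Equiv.swap_apply_left, hfix y hyu hy']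
        exact hG' y hyu hy hxy
      · by_cases hyu : y = u
        · subst hyu
          rw [Equiv.swap_apply_left, hfix x hxu hx']
          exact (hG' x hxu hx hxy.symm).symm
        · rw [hfix x hxu hx', hfix y hyu hy']
          exact hG x y hxu hyu hx hy hxy
  · rw [Set.image_union, image_fix _ (fun τ hτ x hx => ?_),
      image_cn _ (u' := u') (Equiv.swap_apply_left u u') (fun τ hτ x hx => ?_) h2]
    · exact h
    · exact hfix x (fun h3 => (h2 τ hτ).1 (h3 ▸ hx)) (fun h3 => (h2 τ hτ).2 (h3 ▸ hx))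
    · exact hfix x (fun h3 => (h1 τ hτ).1 (h3 ▸ hx)) (fun h3 => (h1 τ hτ).2 (h3 ▸ hx))

end rename

section Dl

variable {U : Type} [DecidableEq U]

theorem empty_mem_Dl (Q : Set (Finset U)) : ∅ ∈ Dl Q :=
  ⟨fun x hx => absurd hx (notMem_empty x), fun A B hA => absurd hA (notMem_empty _)⟩

theorem Dl_down {Q : Set (Finset U)} {τ ρ : Finset (Finset U ⊕ Bool)} (hτ : τ ∈ Dl Q)
    (h : ρ ⊆ τ) : ρ ∈ Dl Q :=
  ⟨fun x hx => hτ.1 x (h hx), fun A B hA hB => hτ.2 A B (h hA) (h hB)⟩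

theorem Dl_isCx (Θe Θd Q : Set (Finset U)) : IsCx (St Θe Θd) (Dl Q) := by
  constructor
  · intro τ hτ x hx y hy hxy
    rw [mem_coe] at hx hy
    obtain ⟨A, _, rfl⟩ := hτ.1 x hx
    obtain ⟨B, _, rfl⟩ := hτ.1 y hy
    have hne : A ≠ B := fun h => hxy (by rw [h])
    change A ⊂ B ∨ B ⊂ A
    rcases hτ.2 A B hx hy with h | h
    · exact Or.inl (h.ssubset_of_ne hne)
    · exact Or.inr (h.ssubset_of_ne hne.symm)
  · intro τ hτ ρ hρ
    exact Dl_down hτ hρ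

theorem Dl_inr {Q : Set (Finset U)} {τ : Finset (Finset U ⊕ Bool)} (hτ : τ ∈ Dl Q) (b : Bool) :
    Sum.inr b ∉ τ := by
  intro h
  obtain ⟨A, _, hA⟩ := hτ.1 _ h
  exact Sum.inr_ne_inl hA

theorem Dl_inl {Q : Set (Finset U)} {τ : Finset (Finset U ⊕ Bool)} (hτ : τ ∈ Dl Q)
    {A : Finset U} (h : Sum.inl A ∈ τ) : A ∈ Q := by
  obtain ⟨B, hB, hA⟩ := hτ.1 _ h
  rw [Sum.inl_injective hA]
  exact hB

theorem Dl_inter (P Q : Set (Finset U)) : Dl P ∩ Dl Q = Dl (P ∩ Q) := by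
  ext τ
  constructor
  · rintro ⟨h1, h2⟩
    refine ⟨fun x hx => ?_, h1.2⟩
    obtain ⟨A, hA, rfl⟩ := h1.1 x hx
    exact ⟨A, ⟨hA, Dl_inl h2 hx⟩, rfl⟩
  · intro h
    refine ⟨⟨fun x hx => ?_, h.2⟩, ⟨fun x hx => ?_, h.2⟩⟩
    · obtain ⟨A, hA, rfl⟩ := h.1 x hx
      exact ⟨A, hA.1, rfl⟩
    · obtain ⟨A, hA, rfl⟩ := h.1 x hx
      exact ⟨A, hA.2, rfl⟩

theorem Dl_mono {P Q : Set (Finset U)} (h : P ⊆ Q) : Dl P ⊆ Dl Q := by
  intro τ hτ
  refine ⟨fun x hx => ?_, hτ.2⟩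
  obtain ⟨A, hA, rfl⟩ := hτ.1 x hx
  exact ⟨A, h hA, rfl⟩

theorem Dl_max {Q : Set (Finset U)} {τ : Finset (Finset U ⊕ Bool)} (hτ : τ ∈ Dl Q)
    (hne : τ.Nonempty) : ∃ A, Sum.inl A ∈ τ ∧ ∀ B, Sum.inl B ∈ τ → B ⊆ A := by
  obtain ⟨x, hx, hmax⟩ := exists_max_image τ
    (fun x => Sum.elim (fun A : Finset U => A.card) (fun _ => 0) x) hne
  obtain ⟨A, _, rfl⟩ := hτ.1 x hx
  refine ⟨A, hx, fun B hB => ?_⟩
  rcases hτ.2 A B hx hB with h | h
  · have h1 := hmax _ hB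
    simp only [Sum.elim_inl] at h1
    rw [eq_of_subset_of_card_le h h1]
  · exact h

/-- Chains in the union of two lower sets. -/
theorem Dl_union {σ : Finset U} {P Q : Set (Finset U)} (hP : ∀ A ∈ P, ∀ B, σ ⊂ B → B ⊆ A → B ∈ P)
    (hQ : ∀ A ∈ Q, ∀ B, σ ⊂ B → B ⊆ A → B ∈ Q) (h1 : ∀ A ∈ P ∪ Q, σ ⊂ A) :
    Dl P ∪ Dl Q = Dl (P ∪ Q) := by
  apply Set.Subset.antisymm
  · rintro τ (h | h)
    · exact Dl_mono Set.subset_union_left h
    · exact Dl_mono Set.subset_union_right h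
  · intro τ hτ
    rcases τ.eq_empty_or_nonempty with h | h
    · subst h
      exact Or.inl (empty_mem_Dl P)
    · obtain ⟨A, hA, hmax⟩ := Dl_max hτ h
      rcases Dl_inl hτ hA with h2 | h2
      · left
        refine ⟨fun x hx => ?_, hτ.2⟩
        obtain ⟨B, hB, rfl⟩ := hτ.1 x hx
        exact ⟨B, hP A h2 B (h1 B hB) (hmax B hx), rfl⟩
      · right
        refine ⟨fun x hx => ?_, hτ.2⟩
        obtain ⟨B, hB, rfl⟩ := hτ.1 x hx
        exact ⟨B, hQ A h2 B (h1 B hB) (hmax B hx), rfl⟩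

/-- All faces of one facet. -/
theorem Dl_facet {σ B : Finset U} (h : σ ⊂ B) :
    Dl {A | σ ⊂ A ∧ A ⊆ B} = cn (Sum.inl B) (Dl {A | σ ⊂ A ∧ A ⊂ B}) := by
  ext τ
  constructor
  · intro hτ
    change τ.erase (Sum.inl B) ∈ Dl {A | σ ⊂ A ∧ A ⊂ B}
    refine ⟨fun x hx => ?_, fun A A' hA hA' => hτ.2 A A' (mem_of_mem_erase hA)
      (mem_of_mem_erase hA')⟩
    obtain ⟨A, hA, rfl⟩ := hτ.1 x (mem_of_mem_erase hx)
    have hne : A ≠ B := fun h1 => (ne_of_mem_erase hx) (by rw [h1])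
    exact ⟨A, ⟨hA.1, hA.2.ssubset_of_ne hne⟩, rfl⟩
  · intro hτ
    change τ.erase (Sum.inl B) ∈ Dl {A | σ ⊂ A ∧ A ⊂ B} at hτ
    have key : ∀ A, Sum.inl A ∈ τ → A = B ∨ (σ ⊂ A ∧ A ⊂ B) := by
      intro A hA
      by_cases h1 : A = B
      · exact Or.inl h1
      · right
        have : Sum.inl A ∈ τ.erase (Sum.inl B : Finset U ⊕ Bool) :=
          mem_erase.2 ⟨fun h2 => h1 (Sum.inl_injective h2), hA⟩
        exact Dl_inl hτ this
    constructor
    · intro x hx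
      by_cases h1 : x = Sum.inl B
      · exact ⟨B, ⟨h, Subset.rfl⟩, h1⟩
      · obtain ⟨A, hA, rfl⟩ := hτ.1 x (mem_erase.2 ⟨h1, hx⟩)
        exact ⟨A, ⟨hA.1, hA.2.subset⟩, rfl⟩
    · intro A A' hA hA'
      rcases key A hA with h1 | h1
      · rcases key A' hA' with h2 | h2
        · rw [h1, h2]
          exact Or.inl Subset.rfl
        · rw [h1]
          exact Or.inr h2.2.subset
      · rcases key A' hA' with h2 | h2
        · rw [h2]
          exact Or.inl h1.2.subset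
        · refine hτ.2 A A' (mem_erase.2 ⟨fun h3 => ?_, hA⟩) (mem_erase.2 ⟨fun h3 => ?_, hA'⟩)
          · exact h1.2.ne (Sum.inl_injective h3)
          · exact h2.2.ne (Sum.inl_injective h3)

end Dl

section facts

variable {U : Type} [DecidableEq U] {σ : Finset U} {N s : ℕ} {F R : ℕ → Finset U}

theorem fc_down {a b : ℕ} : ∀ A ∈ fc σ F a b, ∀ B, σ ⊂ B → B ⊆ A → B ∈ fc σ F a b := by
  rintro A ⟨_, j, h1, h2, h3⟩ B hB hBA
  exact ⟨hB, j, h1, h2, hBA.trans h3⟩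

theorem fc_succ {i : ℕ} : fc σ F 0 (i + 1) = fc σ F 0 i ∪ {A | σ ⊂ A ∧ A ⊆ F i} := by
  ext A
  constructor
  · rintro ⟨h, j, _, h2, h3⟩
    rcases Nat.lt_succ_iff_lt_or_eq.1 h2 with h4 | h4
    · exact Or.inl ⟨h, j, Nat.zero_le _, h4, h3⟩
    · rw [h4] at h3
      exact Or.inr ⟨h, h3⟩
  · rintro (⟨h, j, _, h2, h3⟩ | ⟨h, h2⟩)
    · exact ⟨h, j, Nat.zero_le _, by omega, h3⟩
    · exact ⟨h, i, Nat.zero_le _, Nat.lt_succ_self i, h2⟩

theorem fc_pred {i : ℕ} (hi : i < s) :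
    fc σ F i s = {A | σ ⊂ A ∧ A ⊆ F i} ∪ fc σ F (i + 1) s := by
  ext A
  constructor
  · rintro ⟨h, j, h1, h2, h3⟩
    rcases Nat.eq_or_lt_of_le h1 with h4 | h4
    · rw [← h4] at h3
      exact Or.inl ⟨h, h3⟩
    · exact Or.inr ⟨h, j, h4, h2, h3⟩
  · rintro (⟨h, h2⟩ | ⟨h, j, h1, h2, h3⟩)
    · exact ⟨h, i, le_rfl, hi, h2⟩
    · exact ⟨h, j, by omega, h2, h3⟩

theorem Shelled.mem_early (hS : Shelled σ N s F R) {i : ℕ} (hi : i < s) {A : Finset U}
    (h1 : σ ⊂ A) (h2 : A ⊆ F i) : A ∈ fc σ F 0 i ↔ ¬ R i ⊆ A := by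
  rw [← hS.early i hi A h1.subset h2]
  exact ⟨fun ⟨_, j, _, h3, h4⟩ => ⟨j, h3, h4⟩, fun ⟨j, h3, h4⟩ => ⟨h1, j, Nat.zero_le _, h3, h4⟩⟩

theorem Shelled.mem_late (hS : Shelled σ N s F R) {i : ℕ} (hi : i < s) {A : Finset U}
    (h1 : σ ⊂ A) (h2 : A ⊆ F i) : A ∈ fc σ F (i + 1) s ↔ ¬ (F i \ σ) \ R i ⊆ A := by
  rw [← hS.late i hi A h1.subset h2]
  exact ⟨fun ⟨_, j, h3, h4, h5⟩ => ⟨j, h3, h4, h5⟩, fun ⟨j, h3, h4, h5⟩ => ⟨h1, j, h3, h4, h5⟩⟩

theorem Shelled.R_nonempty (hS : Shelled σ N s F R) {i : ℕ} (hi : i < s) (h0 : 0 < i) :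
    (R i).Nonempty := by
  have := (hS.early i hi σ Subset.rfl (hS.base i hi)).1 ⟨0, h0, hS.base 0 hS.pos⟩
  rw [nonempty_iff_ne_empty]
  intro h
  rw [h] at this
  exact this (empty_subset _)

theorem Shelled.S_nonempty (hS : Shelled σ N s F R) {i : ℕ} (hi : i + 1 < s) :
    ((F i \ σ) \ R i).Nonempty := by
  have := (hS.late i (by omega) σ Subset.rfl (hS.base i (by omega))).1
    ⟨i + 1, Nat.lt_succ_self i, hi, hS.base (i + 1) hi⟩
  rw [nonempty_iff_ne_empty]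
  intro h
  rw [h] at this
  exact this (empty_subset _)

theorem Shelled.R_zero (hS : Shelled σ N s F R) : R 0 = ∅ := by
  have h1 : R 0 ⊆ σ := by
    by_contra h
    obtain ⟨j, hj, _⟩ := (hS.early 0 hS.pos σ Subset.rfl (hS.base 0 hS.pos)).2 h
    exact absurd hj (Nat.not_lt_zero j)
  have h2 := hS.sub 0 hS.pos
  rw [← subset_empty]
  intro x hx
  exact absurd (h1 hx) (mem_sdiff.1 (h2 hx)).2

theorem Shelled.R_last (hS : Shelled σ N s F R) {i : ℕ} (hi : i + 1 = s) : F i \ σ ⊆ R i := by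
  have h1 : (F i \ σ) \ R i ⊆ σ := by
    by_contra h
    obtain ⟨j, hj, hj2, _⟩ := (hS.late i (by omega) σ Subset.rfl (hS.base i (by omega))).2 h
    omega
  intro x hx
  by_contra h
  exact (mem_sdiff.1 hx).2 (h1 (mem_sdiff.2 ⟨hx, h⟩))

theorem Shelled.two_le (hS : Shelled σ N s F R) (hN : 0 < N) : 2 ≤ s := by
  by_contra h
  have hs : s = 1 := by have := hS.pos; omega
  have h1 := hS.R_last (i := 0) (by omega)
  rw [hS.R_zero, subset_empty] at h1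
  have h2 := hS.card 0 hS.pos
  have h3 := card_sdiff_add_card_eq_card (hS.base 0 hS.pos)
  rw [h1, card_empty] at h3
  omega

theorem Shelled.ssub (hS : Shelled σ N s F R) (hN : 0 < N) {i : ℕ} (hi : i < s) : σ ⊂ F i := by
  refine (hS.base i hi).ssubset_of_ne fun h => ?_
  have := hS.card i hi
  rw [← h] at this
  omega

end facts

section cxs

variable {X : Type} [DecidableEq X] {G : SimpleGraph X}

omit [DecidableEq X] in
theorem isCx_contr {K : Set (Finset X)} (h : IsCx G K) (v w : X) : IsCx (contr G v w) K :=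
  ⟨fun τ hτ a ha b hb hab => ⟨hab, Or.inl (h.clique τ hτ ha hb hab)⟩, h.down⟩

theorem isCx_cone {L1 L : Set (Finset X)} {u : X} (h1 : IsCx G L1) (h2 : IsCx G L)
    (hu : ∀ τ ∈ L, ∀ x ∈ τ, G.Adj u x) : IsCx G (L1 ∪ cn u L) := by
  constructor
  · rintro τ (hτ | hτ)
    · exact h1.clique τ hτ
    · intro a ha b hb hab
      have hτ' : τ.erase u ∈ L := hτ
      rw [Finset.mem_coe] at ha hb
      by_cases h3 : a = u
      · subst h3
        exact hu _ hτ' b (Finset.mem_erase.2 ⟨Ne.symm hab, hb⟩)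
      · by_cases h4 : b = u
        · subst h4
          exact (hu _ hτ' a (Finset.mem_erase.2 ⟨hab, ha⟩)).symm
        · exact h2.clique _ hτ' (Finset.mem_coe.2 (Finset.mem_erase.2 ⟨h3, ha⟩))
            (Finset.mem_coe.2 (Finset.mem_erase.2 ⟨h4, hb⟩)) hab
  · rintro τ (hτ | hτ) ρ hρ
    · exact Or.inl (h1.down τ hτ ρ hρ)
    · exact Or.inr (h2.down _ hτ _ (Finset.erase_subset_erase u hρ))

theorem St_mono {U : Type} [DecidableEq U] {Θe Θd : Set (Finset U)} {x y : Finset U ⊕ Bool}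
    (h : (St Θe ∅).Adj x y) : (St Θe Θd).Adj x y := by
  rcases x with A | a <;> rcases y with B | b
  · exact h
  · cases b
    · exact h
    · exact (h : A ∈ (∅ : Set (Finset U))).elim
  · cases a
    · exact h
    · exact (h : B ∈ (∅ : Set (Finset U))).elim
  · exact h

end cxs

section main

variable {U : Type} [Fintype U] [DecidableEq U] {σ : Finset U} {N s : ℕ} {F R : ℕ → Finset U}

/-- the neighbours of the spare vertex `e` at stage `i` -/
def Th (σ : Finset U) (F : ℕ → Finset U) (s i : ℕ) : Set (Finset U) :=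
  fc σ F 0 i ∩ fc σ F i s

omit [Fintype U] in
theorem not_mem_fc (hS : Shelled σ N s F R) {i : ℕ} (hi : i < s) : F i ∉ fc σ F 0 i := by
  intro h
  by_cases h1 : σ ⊂ F i
  · rw [hS.mem_early hi h1 Subset.rfl] at h
    exact h ((hS.sub i hi).trans sdiff_subset)
  · exact h1 h.1

omit [Fintype U] in
theorem not_mem_fc' (hS : Shelled σ N s F R) {i : ℕ} (hi : i < s) : F i ∉ fc σ F (i + 1) s := by
  intro h
  by_cases h1 : σ ⊂ F i
  · rw [hS.mem_late hi h1 Subset.rfl] at h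
    exact h (sdiff_subset.trans sdiff_subset)
  · exact h1 h.1

omit [Fintype U] in
/-- a set between `F i` and a facet is `F i` -/
theorem not_above (hS : Shelled σ N s F R) {i : ℕ} (hi : i < s) {A : Finset U}
    (hA : A ∈ fc σ F 0 s) : ¬ F i ⊂ A := by
  intro h
  obtain ⟨_, j, _, h2, h3⟩ := hA
  have h4 := card_lt_card h
  have h5 := card_le_card h3
  rw [hS.card i hi] at h4
  rw [hS.card j h2] at h5
  omega

theorem stage_one (hS : Shelled σ N s F R) (hN : 0 < N) :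
    Gd (St (Th σ F s 1) ∅) (Dl (fc σ F 0 1) ∪ cn (Sum.inr false) (Dl (Th σ F s 1))) := by
  have h2 := hS.two_le hN
  have hσ := hS.ssub hN hS.pos
  have e1 : fc σ F 0 1 = {A | σ ⊂ A ∧ A ⊆ F 0} := by
    rw [fc_succ]
    ext A
    constructor
    · rintro (⟨_, j, _, h, _⟩ | h)
      · exact absurd h (Nat.not_lt_zero j)
      · exact h
    · exact fun h => Or.inr h
  have hR : (F 0 \ σ) \ R 0 = F 0 \ σ := by rw [hS.R_zero, sdiff_empty]
  have e2 : Th σ F s 1 = {A | σ ⊂ A ∧ A ⊂ F 0} := by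
    ext A
    constructor
    · rintro ⟨h3, h4⟩
      rw [e1] at h3
      refine ⟨h3.1, h3.2.ssubset_of_ne fun h => ?_⟩
      rw [h] at h4
      exact not_mem_fc' hS hS.pos h4
    · rintro ⟨h3, h4⟩
      refine ⟨by rw [e1]; exact ⟨h3, h4.subset⟩, ?_⟩
      rw [hS.mem_late hS.pos h3 h4.subset, hR]
      intro h5
      apply h4.ne
      refine Subset.antisymm h4.subset fun x hx => ?_
      by_cases h6 : x ∈ σ
      · exact h3.subset h6
      · exact h5 (mem_sdiff.2 ⟨hx, h6⟩)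
  rw [e1, Dl_facet hσ, ← e2]
  refine Gd.susp (by simp) ?_ (Dl_isCx _ _ _) (empty_mem_Dl _) ?_ ?_
  · change F 0 ∉ Th σ F s 1
    rw [e2]
    exact fun h => h.2.ne rfl
  · intro β hβ z hz
    obtain ⟨A, hA, rfl⟩ := hβ.1 z hz
    rw [e2] at hA
    exact Or.inr hA.2
  · intro β hβ z hz
    obtain ⟨A, hA, rfl⟩ := hβ.1 z hz
    exact hA

theorem stage_succ (hS : Shelled σ N s F R) (hN : 0 < N)
    (ih : ∀ (R' S' : Finset U), Disjoint σ R' → Disjoint σ S' → Disjoint R' S' → R'.Nonempty →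
      S'.Nonempty → R'.card + S'.card = N →
      Gd (St ∅ ∅) (Dl {A | σ ⊂ A ∧ A ⊆ σ ∪ R' ∪ S' ∧ ¬ R' ⊆ A ∧ ¬ S' ⊆ A}))
    {i : ℕ} (h0 : 0 < i) (hi : i + 1 < s)
    (h : Gd (St (Th σ F s i) ∅) (Dl (fc σ F 0 i) ∪ cn (Sum.inr false) (Dl (Th σ F s i)))) :
    Gd (St (Th σ F s (i + 1)) ∅)
      (Dl (fc σ F 0 (i + 1)) ∪ cn (Sum.inr false) (Dl (Th σ F s (i + 1)))) := by
  have his : i < s := by omega
  have hσ := hS.ssub hN his
  obtain ⟨S, hSdef⟩ : ∃ S, S = (F i \ σ) \ R i := ⟨_, rfl⟩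
  have hSne : S.Nonempty := hSdef ▸ hS.S_nonempty hi
  have hRne := hS.R_nonempty his h0
  have hRsub := hS.sub i his
  obtain ⟨E, hE⟩ : ∃ E : Set (Finset U), E = {A | σ ⊂ A ∧ A ⊆ F i ∧ ¬ R i ⊆ A} := ⟨_, rfl⟩
  obtain ⟨D, hD⟩ : ∃ D : Set (Finset U), D = {A | σ ⊂ A ∧ A ⊆ F i ∧ ¬ S ⊆ A} := ⟨_, rfl⟩
  obtain ⟨C, hC⟩ : ∃ C : Set (Finset U), C = {A | σ ⊂ A ∧ A ⊆ F i ∧ ¬ R i ⊆ A ∧ ¬ S ⊆ A} :=
    ⟨_, rfl⟩
  obtain ⟨T, hT⟩ : ∃ T : Set (Finset U), T = fc σ F 0 i := ⟨_, rfl⟩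
  obtain ⟨T', hT'⟩ : ∃ T' : Set (Finset U), T' = fc σ F (i + 1) s := ⟨_, rfl⟩
  have hearly : ∀ A, σ ⊂ A → A ⊆ F i → (A ∈ T ↔ ¬ R i ⊆ A) := fun A h1 h2 => by
    rw [hT]
    exact hS.mem_early his h1 h2
  have hlate : ∀ A, σ ⊂ A → A ⊆ F i → (A ∈ T' ↔ ¬ S ⊆ A) := fun A h1 h2 => by
    rw [hT', hSdef]
    exact hS.mem_late his h1 h2
  have hTσ : ∀ A ∈ T, σ ⊂ A := fun A hA => by rw [hT] at hA; exact hA.1
  have hTd : ∀ A ∈ T, ∀ B, σ ⊂ B → B ⊆ A → B ∈ T := by rw [hT]; exact fc_down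
  have hT'd : ∀ A ∈ T', ∀ B, σ ⊂ B → B ⊆ A → B ∈ T' := by rw [hT']; exact fc_down
  -- the sets
  have hFi : F i = σ ∪ R i ∪ S := by
    rw [hSdef]
    ext x
    simp only [mem_union, mem_sdiff]
    constructor
    · intro hx
      by_cases h1 : x ∈ σ
      · exact Or.inl (Or.inl h1)
      · by_cases h2 : x ∈ R i
        · exact Or.inl (Or.inr h2)
        · exact Or.inr ⟨⟨hx, h1⟩, h2⟩
    · rintro ((h1 | h1) | h1)
      · exact hσ.subset h1
      · exact (mem_sdiff.1 (hRsub h1)).1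
      · exact h1.1.1
  have hdR : Disjoint σ (R i) := by
    rw [disjoint_left]
    exact fun x hx hx' => (mem_sdiff.1 (hRsub hx')).2 hx
  have hdS : Disjoint σ S := by
    rw [disjoint_left, hSdef]
    exact fun x hx hx' => (mem_sdiff.1 (mem_sdiff.1 hx').1).2 hx
  have hdRS : Disjoint (R i) S := by
    rw [disjoint_left, hSdef]
    exact fun x hx hx' => (mem_sdiff.1 hx').2 hx
  have hcard : (R i).card + S.card = N := by
    have h1 := hS.card i his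
    rw [hFi, card_union_of_disjoint (disjoint_union_left.2 ⟨hdS, hdRS⟩),
      card_union_of_disjoint hdR] at h1
    omega
  have gC0 := ih (R i) S hdR hdS hdRS hRne hSne hcard
  rw [← hFi, ← hC] at gC0
  have e1 : fc σ F 0 (i + 1) = T ∪ {A | σ ⊂ A ∧ A ⊆ F i} := by rw [fc_succ, hT]
  have e2 : Th σ F s i = E ∪ (T ∩ T') := by
    unfold Th
    rw [fc_pred his, ← hT, ← hT', hE]
    ext A
    constructor
    · rintro ⟨h1, h2 | h2⟩
      · exact Or.inl ⟨h2.1, h2.2, (hearly A h2.1 h2.2).1 h1⟩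
      · exact Or.inr ⟨h1, h2⟩
    · rintro (⟨h1, h2, h3⟩ | ⟨h1, h2⟩)
      · exact ⟨(hearly A h1 h2).2 h3, Or.inl ⟨h1, h2⟩⟩
      · exact ⟨h1, Or.inr h2⟩
  have e3 : Th σ F s (i + 1) = (T ∩ T') ∪ D := by
    unfold Th
    rw [e1, ← hT', hD]
    ext A
    constructor
    · rintro ⟨h1 | h1, h2⟩
      · exact Or.inl ⟨h1, h2⟩
      · exact Or.inr ⟨h1.1, h1.2, (hlate A h1.1 h1.2).1 h2⟩
    · rintro (⟨h1, h2⟩ | ⟨h1, h2, h3⟩)
      · exact ⟨Or.inl h1, h2⟩
      · exact ⟨Or.inr ⟨h1, h2⟩, (hlate A h1 h2).2 h3⟩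
  have e4 : E ∪ D = {A | σ ⊂ A ∧ A ⊂ F i} := by
    rw [hE, hD]
    ext A
    constructor
    · rintro (⟨h1, h2, h3⟩ | ⟨h1, h2, h3⟩)
      · refine ⟨h1, h2.ssubset_of_ne fun h4 => h3 ?_⟩
        rw [h4]
        exact hRsub.trans sdiff_subset
      · refine ⟨h1, h2.ssubset_of_ne fun h4 => h3 ?_⟩
        rw [h4, hSdef]
        exact sdiff_subset.trans sdiff_subset
    · rintro ⟨h1, h2⟩
      by_cases h3 : R i ⊆ A
      · right
        refine ⟨h1, h2.subset, fun h4 => h2.ne (Subset.antisymm h2.subset ?_)⟩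
        rw [hFi]
        exact union_subset (union_subset h1.subset h3) h4
      · exact Or.inl ⟨h1, h2.subset, h3⟩
  have e5 : E ∩ (T ∩ T') = C := by
    rw [hE, hC]
    ext A
    constructor
    · rintro ⟨⟨h1, h2, h3⟩, _, h4⟩
      exact ⟨h1, h2, h3, (hlate A h1 h2).1 h4⟩
    · rintro ⟨h1, h2, h3, h4⟩
      exact ⟨⟨h1, h2, h3⟩, (hearly A h1 h2).2 h3, (hlate A h1 h2).2 h4⟩
  have e6 : D ∩ T = C := by
    rw [hD, hC]
    ext A
    constructor
    · rintro ⟨⟨h1, h2, h3⟩, h4⟩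
      exact ⟨h1, h2, (hearly A h1 h2).1 h4, h3⟩
    · rintro ⟨h1, h2, h3, h4⟩
      exact ⟨⟨h1, h2, h4⟩, (hearly A h1 h2).2 h3⟩
  have hET : E ⊆ T := by
    rw [hE]
    rintro A ⟨h1, h2, h3⟩
    exact (hearly A h1 h2).2 h3
  have hEσ : ∀ A ∈ E, σ ⊂ A := fun A hA => hTσ A (hET hA)
  have hDσ : ∀ A ∈ D, σ ⊂ A := fun A hA => by rw [hD] at hA; exact hA.1
  have hEd : ∀ A ∈ E, ∀ B, σ ⊂ B → B ⊆ A → B ∈ E := by
    rw [hE]
    rintro A ⟨h1, h2, h3⟩ B hB hBA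
    exact ⟨hB, hBA.trans h2, fun h4 => h3 (h4.trans hBA)⟩
  have hDd : ∀ A ∈ D, ∀ B, σ ⊂ B → B ⊆ A → B ∈ D := by
    rw [hD]
    rintro A ⟨h1, h2, h3⟩ B hB hBA
    exact ⟨hB, hBA.trans h2, fun h4 => h3 (h4.trans hBA)⟩
  have hTTd : ∀ A ∈ T ∩ T', ∀ B, σ ⊂ B → B ⊆ A → B ∈ T ∩ T' := fun A hA B hB hBA =>
    ⟨hTd A hA.1 B hB hBA, hT'd A hA.2 B hB hBA⟩
  -- the graph
  obtain ⟨Θd, hΘd⟩ : ∃ Θd : Set (Finset U), Θd = {F i} ∪ C := ⟨_, rfl⟩
  obtain ⟨G, hG⟩ : ∃ G : SimpleGraph (Finset U ⊕ Bool), G = St (Th σ F s (i + 1)) Θd := ⟨_, rfl⟩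
  have hFT : F i ∉ T := by rw [hT]; exact not_mem_fc hS his
  have hFT' : F i ∉ T' := by rw [hT']; exact not_mem_fc' hS his
  have hFD : F i ∉ D := by
    rw [hD]
    rintro ⟨_, _, h3⟩
    apply h3
    rw [hSdef]
    exact sdiff_subset.trans sdiff_subset
  have hna : ¬ G.Adj (Sum.inl (F i)) (Sum.inr false) := by
    rw [hG]
    change F i ∉ Th σ F s (i + 1)
    rw [e3]
    rintro (h1 | h1)
    · exact hFT h1.1
    · exact hFD h1
  have hstep := step (G := G) (F := Sum.inl (F i)) (e := Sum.inr false) (d := Sum.inr true)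
    (by simp) (by simp) (by simp) hna (Q := Dl T) (E' := Dl E) (E'' := Dl (T ∩ T')) (P := Dl D)
    (C := Dl C) (by rw [hG]; exact Dl_isCx _ _ _) (by rw [hG]; exact Dl_isCx _ _ _)
    (by rw [hG]; exact Dl_isCx _ _ _) (by rw [hG]; exact Dl_isCx _ _ _) (Dl_mono hET)
    (Dl_mono Set.inter_subset_left) (by rw [Dl_inter, e5]) (by rw [Dl_inter, e6])
    (empty_mem_Dl _)
    (fun τ hτ => ⟨fun h1 => hFT (Dl_inl hτ h1), Dl_inr hτ _, Dl_inr hτ _⟩)
    (fun τ hτ => ⟨fun h1 => hFD (Dl_inl hτ h1), Dl_inr hτ _, Dl_inr hτ _⟩)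
    (by
      intro τ hτ x hx
      obtain ⟨A, hA, rfl⟩ := hτ.1 x hx
      rw [hG]
      rw [hE] at hA
      exact Or.inr (hA.2.1.ssubset_of_ne fun h1 => hA.2.2 (by
        rw [h1]; exact hRsub.trans sdiff_subset)))
    (by
      intro τ hτ x hx
      obtain ⟨A, hA, rfl⟩ := hτ.1 x hx
      rw [hG]
      have hA' := hA
      rw [hD] at hA'
      exact Or.inr (hA'.2.1.ssubset_of_ne fun h1 => hFD (h1 ▸ hA)))
    (by
      intro τ hτ x hx
      obtain ⟨A, hA, rfl⟩ := hτ.1 x hx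
      rw [hG]
      change A ∈ Th σ F s (i + 1)
      rw [e3]
      exact Or.inl hA)
    (by
      intro τ hτ x hx
      obtain ⟨A, hA, rfl⟩ := hτ.1 x hx
      rw [hG]
      change A ∈ Th σ F s (i + 1)
      rw [e3]
      exact Or.inr hA)
    (by
      intro τ hτ x hx
      obtain ⟨A, hA, rfl⟩ := hτ.1 x hx
      rw [hG]
      change A ∈ Θd
      rw [hΘd]
      exact Or.inr hA)
    (by
      rw [hG]
      change F i ∈ Θd
      rw [hΘd]
      exact Or.inl rfl)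
    (by
      rw [hG]
      change true ≠ false
      simp)
    (by
      refine gC0.restrict (by rw [hG]; exact Dl_isCx _ _ _) fun x y hx hy hxy => ?_
      obtain ⟨A, _, rfl⟩ := hx.1 x (mem_singleton_self _)
      obtain ⟨B, _, rfl⟩ := hy.1 y (mem_singleton_self _)
      rw [hG] at hxy
      exact hxy)
    (by
      -- the contracted complex
      have hu : Dl E ∪ Dl (T ∩ T') = Dl (Th σ F s i) := by
        rw [Dl_union hEd hTTd (fun A hA => hA.elim (hEσ A) (fun h1 => hTσ A h1.1)), ← e2]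
      rw [hu, hT]
      have hvert : ∀ x, {x} ∈ Dl (fc σ F 0 i) ∪ cn (Sum.inr true) (Dl (Th σ F s i)) →
          x ≠ Sum.inr true → ∃ A ∈ T, x = Sum.inl A := by
        rintro x (hx | hx) hne
        · obtain ⟨A, hA, rfl⟩ := hx.1 x (mem_singleton_self _)
          rw [← hT] at hA
          exact ⟨A, hA, rfl⟩
        · change ({x} : Finset (Finset U ⊕ Bool)).erase (Sum.inr true) ∈ Dl (Th σ F s i) at hx
          rw [erase_eq_of_notMem (by simpa using Ne.symm hne)] at hx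
          obtain ⟨A, hA, rfl⟩ := hx.1 x (mem_singleton_self _)
          refine ⟨A, ?_, rfl⟩
          rw [hT]
          exact hA.1
      have hdadj : ∀ A ∈ T, (contr (contr G (Sum.inr true) (Sum.inl (F i))) (Sum.inr true)
          (Sum.inr false)).Adj (Sum.inr true) (Sum.inl A) → A ∈ Th σ F s i := by
        intro A hA hadj
        have hσA := hTσ A hA
        have hnot : ¬ F i ⊂ A := by
          refine not_above hS his ?_
          rw [hT] at hA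
          obtain ⟨h1, j, h2, h3, h4⟩ := hA
          exact ⟨h1, j, h2, by omega, h4⟩
        have hsub : A ⊂ F i → A ∈ Th σ F s i := by
          intro h1
          rw [e2, hE]
          exact Or.inl ⟨hσA, h1.subset, (hearly A hσA h1.subset).1 hA⟩
        have hΘ : A ∈ Th σ F s (i + 1) → A ∈ Th σ F s i := by
          intro h1
          rw [e3] at h1
          rcases h1 with h1 | h1
          · rw [e2]
            exact Or.inr h1
          · have : A ∈ C := by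
              rw [← e6]
              exact ⟨h1, hA⟩
            rw [← e5] at this
            rw [e2]
            exact Or.inl this.1
        have h1 : (St (Th σ F s (i + 1)) Θd).Adj (Sum.inr true) (Sum.inl A) →
            A ∈ Th σ F s i := by
          intro h2
          change A ∈ Θd at h2
          rw [hΘd] at h2
          rcases h2 with h2 | h2
          · exact absurd (h2 ▸ hA) hFT
          · rw [← e5] at h2
            rw [e2]
            exact Or.inl h2.1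
        have h2 : (St (Th σ F s (i + 1)) Θd).Adj (Sum.inl (F i)) (Sum.inl A) →
            A ∈ Th σ F s i := by
          intro h3
          rcases (h3 : F i ⊂ A ∨ A ⊂ F i) with h4 | h4
          · exact absurd h4 hnot
          · exact hsub h4
        have h3 : (St (Th σ F s (i + 1)) Θd).Adj (Sum.inr false) (Sum.inl A) →
            A ∈ Th σ F s i := fun h4 => hΘ h4
        have h4 : (contr G (Sum.inr true) (Sum.inl (F i))).Adj (Sum.inr true) (Sum.inl A) →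
            A ∈ Th σ F s i := by
          rintro ⟨_, h5 | ⟨_, h5⟩ | ⟨h5, _⟩⟩
          · rw [hG] at h5
            exact h1 h5
          · rw [hG] at h5
            exact h2 h5
          · exact absurd h5 (by simp)
        have h5 : (contr G (Sum.inr true) (Sum.inl (F i))).Adj (Sum.inr false) (Sum.inl A) →
            A ∈ Th σ F s i := by
          rintro ⟨_, h6 | ⟨h6, _⟩ | ⟨h6, _⟩⟩
          · rw [hG] at h6
            exact h3 h6
          · exact absurd h6 (by simp)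
          · exact absurd h6 (by simp)
        obtain ⟨_, h6 | ⟨_, h6⟩ | ⟨h6, _⟩⟩ := hadj
        · exact h4 h6
        · exact h5 h6
        · exact absurd h6 (by simp)
      have hTadj : ∀ A B : Finset U, (contr (contr G (Sum.inr true) (Sum.inl (F i)))
          (Sum.inr true) (Sum.inr false)).Adj (Sum.inl A) (Sum.inl B) → A ⊂ B ∨ B ⊂ A := by
        rintro A B ⟨_, ⟨_, h6 | ⟨h6, _⟩ | ⟨h6, _⟩⟩ | ⟨h6, _⟩ | ⟨h6, _⟩⟩
        · rw [hG] at h6
          exact h6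
        · exact absurd h6 (by simp)
        · exact absurd h6 (by simp)
        · exact absurd h6 (by simp)
        · exact absurd h6 (by simp)
      refine Gd.rename (u' := Sum.inr false) (fun τ hτ => ⟨Dl_inr hτ _, Dl_inr hτ _⟩)
        (fun τ hτ => ⟨Dl_inr hτ _, Dl_inr hτ _⟩) ?_ ?_ ?_ h
      · refine isCx_cone (isCx_contr (isCx_contr (by rw [hG]; exact Dl_isCx _ _ _) _ _) _ _)
          (isCx_contr (isCx_contr (by rw [hG]; exact Dl_isCx _ _ _) _ _) _ _) ?_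
        intro τ hτ x hx
        obtain ⟨A, hA, rfl⟩ := hτ.1 x hx
        rw [e2] at hA
        rcases hA with hA | hA
        · refine ⟨by simp, Or.inl ⟨by simp, Or.inr (Or.inl ⟨rfl, ?_⟩)⟩⟩
          rw [hG]
          rw [hE] at hA
          exact Or.inr (hA.2.1.ssubset_of_ne fun h1 => hA.2.2 (by
            rw [h1]; exact hRsub.trans sdiff_subset))
        · refine ⟨by simp, Or.inr (Or.inl ⟨rfl, ⟨by simp, Or.inl ?_⟩⟩)⟩
          rw [hG]
          change A ∈ Th σ F s (i + 1)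
          rw [e3]
          exact Or.inl hA
      · intro x y hx hy hx1 hy1 hxy
        obtain ⟨A, _, rfl⟩ := hvert x hx1 hx
        obtain ⟨B, _, rfl⟩ := hvert y hy1 hy
        exact hTadj A B hxy
      · intro x hx hx1 hxy
        obtain ⟨A, hA, rfl⟩ := hvert x hx1 hx
        exact hdadj A hA hxy)
  have hu1 : Dl E ∪ Dl D = Dl {A | σ ⊂ A ∧ A ⊂ F i} := by
    rw [Dl_union hEd hDd (fun A hA => hA.elim (hEσ A) (hDσ A)), e4]
  have hu2 : Dl (T ∩ T') ∪ Dl D = Dl (Th σ F s (i + 1)) := by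
    rw [Dl_union hTTd hDd (fun A hA => hA.elim (fun h1 => hTσ A h1.1) (hDσ A)), e3]
  have hu3 : Dl T ∪ Dl {A | σ ⊂ A ∧ A ⊆ F i} = Dl (fc σ F 0 (i + 1)) := by
    have h1 : ∀ A ∈ {A : Finset U | σ ⊂ A ∧ A ⊆ F i}, ∀ B, σ ⊂ B → B ⊆ A →
        B ∈ {A : Finset U | σ ⊂ A ∧ A ⊆ F i} := fun A hA B hB hBA => ⟨hB, hBA.trans hA.2⟩
    have h2 : ∀ A ∈ T ∪ {A : Finset U | σ ⊂ A ∧ A ⊆ F i}, σ ⊂ A := fun A hA =>
      hA.elim (hTσ A) (fun h1 => h1.1)
    rw [Dl_union hTd h1 h2, e1]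
  rw [hu1, hu2, ← Dl_facet hσ, hu3] at hstep
  have hcx : ∀ Θ : Set (Finset U), IsCx (St (Th σ F s (i + 1)) Θ) (Dl (fc σ F 0 (i + 1)) ∪
      cn (Sum.inr false) (Dl (Th σ F s (i + 1)))) := by
    intro Θ
    refine isCx_cone (Dl_isCx _ _ _) (Dl_isCx _ _ _) fun τ hτ x hx => ?_
    obtain ⟨A, hA, rfl⟩ := hτ.1 x hx
    exact hA
  refine hstep.restrict (hcx ∅) fun x y hx hy hxy => ?_
  rw [hG]
  exact St_mono hxy

theorem stages (hS : Shelled σ N s F R) (hN : 0 < N)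
    (ih : ∀ (R' S' : Finset U), Disjoint σ R' → Disjoint σ S' → Disjoint R' S' → R'.Nonempty →
      S'.Nonempty → R'.card + S'.card = N →
      Gd (St ∅ ∅) (Dl {A | σ ⊂ A ∧ A ⊆ σ ∪ R' ∪ S' ∧ ¬ R' ⊆ A ∧ ¬ S' ⊆ A})) :
    ∀ i, i + 1 < s → Gd (St (Th σ F s (i + 1)) ∅)
      (Dl (fc σ F 0 (i + 1)) ∪ cn (Sum.inr false) (Dl (Th σ F s (i + 1)))) := by
  intro i
  induction i with
  | zero =>
    intro _
    exact stage_one hS hN
  | succ i hi =>
    intro h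
    exact stage_succ hS hN ih (Nat.succ_pos i) h (hi (by omega))

theorem last_stage (hS : Shelled σ N s F R) (hN : 0 < N) {i : ℕ} (hi : i + 1 = s)
    (h : Gd (St (Th σ F s i) ∅) (Dl (fc σ F 0 i) ∪ cn (Sum.inr false) (Dl (Th σ F s i)))) :
    Gd (St ∅ ∅) (Dl (fc σ F 0 s)) := by
  have his : i < s := by omega
  have hσ := hS.ssub hN his
  have hRl := hS.R_last hi
  have hRsub := hS.sub i his
  have e0 : fc σ F 0 s = fc σ F 0 i ∪ {A | σ ⊂ A ∧ A ⊆ F i} := by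
    rw [← hi, fc_succ]
  have e1 : Th σ F s i = {A | σ ⊂ A ∧ A ⊂ F i} := by
    unfold Th
    ext A
    constructor
    · rintro ⟨h1, h2⟩
      rw [fc_pred his] at h2
      rcases h2 with h2 | ⟨_, j, h3, h4, _⟩
      · refine ⟨h2.1, h2.2.ssubset_of_ne fun h3 => ?_⟩
        rw [h3] at h1
        exact not_mem_fc hS his h1
      · omega
    · rintro ⟨h1, h2⟩
      refine ⟨?_, ?_⟩
      · rw [hS.mem_early his h1 h2.subset]
        intro h3
        apply h2.ne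
        refine Subset.antisymm h2.subset fun x hx => ?_
        by_cases h6 : x ∈ σ
        · exact h1.subset h6
        · exact h3 (hRl (mem_sdiff.2 ⟨hx, h6⟩))
      · rw [fc_pred his]
        exact Or.inl ⟨h1, h2.subset⟩
  have hd : ∀ A ∈ {A : Finset U | σ ⊂ A ∧ A ⊆ F i}, ∀ B, σ ⊂ B → B ⊆ A →
      B ∈ {A : Finset U | σ ⊂ A ∧ A ⊆ F i} := fun A hA B hB hBA => ⟨hB, hBA.trans hA.2⟩
  have hσ' : ∀ A ∈ fc σ F 0 i ∪ {A : Finset U | σ ⊂ A ∧ A ⊆ F i}, σ ⊂ A := fun A hA =>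
    hA.elim (fun h1 => h1.1) (fun h1 => h1.1)
  have e2 : Dl (fc σ F 0 s) = Dl (fc σ F 0 i) ∪ cn (Sum.inl (F i)) (Dl (Th σ F s i)) := by
    rw [e0, ← Dl_union fc_down hd hσ', Dl_facet hσ, ← e1]
  have hn1 : F i ∉ Th σ F s i := by
    rw [e1]
    exact fun h1 => h1.2.ne rfl
  have hvert : ∀ x, {x} ∈ Dl (fc σ F 0 i) ∪ cn (Sum.inl (F i)) (Dl (Th σ F s i)) →
      x ≠ Sum.inl (F i) → ∃ A ∈ fc σ F 0 i, x = Sum.inl A := by
    rintro x (hx | hx) hne
    · obtain ⟨A, hA, rfl⟩ := hx.1 x (mem_singleton_self _)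
      exact ⟨A, hA, rfl⟩
    · change ({x} : Finset (Finset U ⊕ Bool)).erase (Sum.inl (F i)) ∈ Dl (Th σ F s i) at hx
      rw [erase_eq_of_notMem (by simpa using Ne.symm hne)] at hx
      obtain ⟨A, hA, rfl⟩ := hx.1 x (mem_singleton_self _)
      exact ⟨A, hA.1, rfl⟩
  rw [e2]
  refine Gd.rename (u' := Sum.inr false)
    (fun τ hτ => ⟨fun h1 => not_mem_fc hS his (Dl_inl hτ h1), Dl_inr hτ _⟩)
    (fun τ hτ => ⟨fun h1 => hn1 (Dl_inl hτ h1), Dl_inr hτ _⟩) ?_ ?_ ?_ h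
  · refine isCx_cone (Dl_isCx _ _ _) (Dl_isCx _ _ _) fun τ hτ x hx => ?_
    obtain ⟨A, hA, rfl⟩ := hτ.1 x hx
    rw [e1] at hA
    exact Or.inr hA.2
  · intro x y hx hy hx1 hy1 hxy
    obtain ⟨A, _, rfl⟩ := hvert x hx1 hx
    obtain ⟨B, _, rfl⟩ := hvert y hy1 hy
    exact hxy
  · intro x hx hx1 hxy
    obtain ⟨A, hA, rfl⟩ := hvert x hx1 hx
    change A ∈ Th σ F s i
    rw [e1]
    refine ⟨hA.1, ?_⟩
    rcases (hxy : F i ⊂ A ∨ A ⊂ F i) with h4 | h4
    · refine absurd h4 (not_above hS his ?_)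
      obtain ⟨h5, j, h6, h7, h8⟩ := hA
      exact ⟨h5, j, h6, by omega, h8⟩
    · exact h4

theorem sphere : ∀ N : ℕ, Odd N → ∀ (σ : Finset U) (s : ℕ) (F R : ℕ → Finset U),
    Shelled σ N s F R → Gd (St ∅ ∅) (Dl (fc σ F 0 s)) := by
  intro N
  induction N using Nat.strong_induction_on with
  | _ N IH =>
  intro hodd σ s F R hS
  have hN : 0 < N := hodd.pos
  have h2 := hS.two_le hN
  refine last_stage hS hN (i := s - 2 + 1) (by omega) (stages hS hN ?_ (s - 2) (by omega))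
  intro R' S' h1 h3 h4 hR hS' hcard
  obtain ⟨s', F', R'', h5, h6⟩ := shelled_join σ R' S' h1 h3 h4 hR hS'
  rw [hcard] at h5
  have hR1 := hR.card_pos
  have hS1 := hS'.card_pos
  have hN3 : 3 ≤ N := by
    obtain ⟨q, hq⟩ := hodd
    omega
  have h7 := IH (N - 2) (by omega) (by
    obtain ⟨q, hq⟩ := hodd
    exact ⟨q - 1, by omega⟩) σ s' F' R'' h5
  have h8 : fc σ F' 0 s' = {A | σ ⊂ A ∧ A ⊆ σ ∪ R' ∪ S' ∧ ¬ R' ⊆ A ∧ ¬ S' ⊆ A} := by
    ext A
    exact h6 A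
  rwa [h8] at h7

end main

end Pool.Agent.Helper32.SD
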