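import Pool.Agent.Helper32.SD.CM
import Pool.Agent.Helper32.SD.Sphere

/-!
# SC-2 ShCM: shelled spheres have no cohomology below the top

Lemmas on `Dl` and `fc` that may be used: SD/Sphere.lean (`Dl_isCx`, `empty_mem_Dl`, `Dl_union`,
`Dl_inter`, `Dl_facet`, `fc_succ`, `fc_down`, `Shelled.mem_early`, `R_nonempty`, `S_nonempty`, `R_last`,
`ssub`, `two_le`).

PROOFS. `facet_cm`: `Dl_facet` and `Cm.cone`. `part_cm` (for all `Q, B`, induction on `Q`): for
`Q = {r}` the set is `{A | σ ⊂ A ⊆ B.erase r}` (`facet_cm`, `σ ⊂ B.erase r` because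
`B ≠ σ ∪ Q`). `insert r Q`: union of the set for `Q` (same `B`) and of `{A | σ ⊂ A ⊆ B.erase r}`, with
intersection the set for `Q` and `B.erase r` (`Dl_union`, `Dl_inter`, `Cm.union`).
`shelled_cm`: strong induction on `N`. `N = 0`: `fc = ∅`, `Dl ∅ = {∅}`, `Cm.nil`. `N ≥ 1`: for
`1 ≤ i < s` and every `N'`, `Dl (fc σ F 0 i)` is `Cm` with `N'`: `i = 1` by `facet_cm`; `i + 1`: union
with `Dl {A | σ ⊂ A ⊆ F i}`, intersection `Dl {A | σ ⊂ A ⊆ F i, ¬ R i ⊆ A}`, `part_cm`. Last step: the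
intersection is `Dl {A | σ ⊂ A ⊂ F (s-1)}`, which is `Cm` with `N - 1` by induction
(`shelled_simplex σ (F (s-1))`).
-/

open Finset Pool.Agent.Helper51.CD

namespace Pool.Agent.Helper32.SD

variable {U : Type} [Fintype U] [DecidableEq U] [LinearOrder (Finset U ⊕ Bool)]

theorem facet_cm {σ B : Finset U} (h : σ ⊂ B) (N : ℕ) :
    Cm (St ∅ ∅) (Dl {A | σ ⊂ A ∧ A ⊆ B}) N := by
  rw [Dl_facet h]
  convert Cm.cone (G := St ∅ ∅) (K := Dl {A | σ ⊂ A ∧ A ⊂ B}) (u := Sum.inl B) (Dl_isCx _ _ _)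
    (empty_mem_Dl _) ?_ N
  intro τ hτ
  refine ⟨fun h1 => (Dl_inl hτ h1).2.ne rfl, fun x hx => ?_⟩
  obtain ⟨A, hA, rfl⟩ := hτ.1 x hx
  exact Or.inr hA.2

theorem part_cm {σ : Finset U} (Q : Finset U) (hQ : Q.Nonempty) : ∀ B : Finset U, σ ⊂ B →
    Q ⊆ B \ σ → B ≠ σ ∪ Q → ∀ N : ℕ, Cm (St ∅ ∅) (Dl {A | σ ⊂ A ∧ A ⊆ B ∧ ¬ Q ⊆ A}) N := by
  induction hQ using Finset.Nonempty.cons_induction with
  | singleton r =>
    intro B hB hr hne N
    have hr' := mem_sdiff.1 (hr (mem_singleton_self r))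
    have h1 : {A : Finset U | σ ⊂ A ∧ A ⊆ B ∧ ¬ {r} ⊆ A} = {A | σ ⊂ A ∧ A ⊆ B.erase r} := by
      ext A
      simp only [Set.mem_ofPred_eq, singleton_subset_iff, subset_erase]
    rw [h1]
    refine facet_cm ?_ N
    refine (subset_erase.2 ⟨hB.subset, hr'.2⟩).ssubset_of_ne fun h2 => hne ?_
    rw [h2, union_comm, ← insert_eq, insert_erase hr'.1]
  | cons r Q hrQ hQ ih =>
    intro B hB hsub hne N
    rw [cons_eq_insert] at hsub hne ⊢
    have hr' := mem_sdiff.1 (hsub (mem_insert_self r Q))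
    have hQsub : Q ⊆ B \ σ := (subset_insert r Q).trans hsub
    have hne1 : B ≠ σ ∪ Q := by
      intro h1
      have h2 := hr'.1
      rw [h1, mem_union] at h2
      rcases h2 with h2 | h2
      · exact hr'.2 h2
      · exact hrQ h2
    have hB' : σ ⊂ B.erase r := by
      refine (subset_erase.2 ⟨hB.subset, hr'.2⟩).ssubset_of_ne fun h2 => ?_
      obtain ⟨x, hx⟩ := hQ
      have h3 := mem_sdiff.1 (hQsub hx)
      apply h3.2
      rw [h2, mem_erase]
      exact ⟨fun h4 => hrQ (h4 ▸ hx), h3.1⟩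
    have hQ' : Q ⊆ B.erase r \ σ := by
      intro x hx
      have h3 := mem_sdiff.1 (hQsub hx)
      exact mem_sdiff.2 ⟨mem_erase.2 ⟨fun h4 => hrQ (h4 ▸ hx), h3.1⟩, h3.2⟩
    have hne2 : B.erase r ≠ σ ∪ Q := by
      intro h1
      apply hne
      rw [union_insert, ← h1, insert_erase hr'.1]
    have h1 := ih B hB hQsub hne1 (N + 1)
    have h2 := facet_cm hB' (N + 1)
    have h3 := ih (B.erase r) hB' hQ' hne2 N
    have e1 : {A : Finset U | σ ⊂ A ∧ A ⊆ B ∧ ¬ insert r Q ⊆ A} =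
        {A | σ ⊂ A ∧ A ⊆ B ∧ ¬ Q ⊆ A} ∪ {A | σ ⊂ A ∧ A ⊆ B.erase r} := by
      ext A
      simp only [Set.mem_ofPred_eq, Set.mem_union, insert_subset_iff, subset_erase]
      tauto
    have e2 : {A : Finset U | σ ⊂ A ∧ A ⊆ B ∧ ¬ Q ⊆ A} ∩ {A | σ ⊂ A ∧ A ⊆ B.erase r} =
        {A | σ ⊂ A ∧ A ⊆ B.erase r ∧ ¬ Q ⊆ A} := by
      ext A
      simp only [Set.mem_ofPred_eq, Set.mem_inter_iff, subset_erase]
      tauto
    rw [← e2, ← Dl_inter] at h3
    have h4 := (Cm.union h1 h2 h3).mono (Nat.le_succ N)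
    have h5 : ∀ A ∈ {A : Finset U | σ ⊂ A ∧ A ⊆ B ∧ ¬ Q ⊆ A}, ∀ C, σ ⊂ C → C ⊆ A →
        C ∈ {A : Finset U | σ ⊂ A ∧ A ⊆ B ∧ ¬ Q ⊆ A} := fun A hA C hC hCA =>
      ⟨hC, hCA.trans hA.2.1, fun h => hA.2.2 (h.trans hCA)⟩
    have h6 : ∀ A ∈ {A : Finset U | σ ⊂ A ∧ A ⊆ B.erase r}, ∀ C, σ ⊂ C → C ⊆ A →
        C ∈ {A : Finset U | σ ⊂ A ∧ A ⊆ B.erase r} := fun A hA C hC hCA =>
      ⟨hC, hCA.trans hA.2⟩
    rw [Dl_union h5 h6 (fun A hA => hA.elim (fun h => h.1) (fun h => h.1)), ← e1] at h4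
    exact h4

theorem shelled_cm : ∀ (N : ℕ) (σ : Finset U) (s : ℕ) (F R : ℕ → Finset U),
    Shelled σ N s F R → Cm (St ∅ ∅) (Dl (fc σ F 0 s)) N := by
  intro N
  induction N with
  | zero =>
    intro σ s F R hS
    have h1 : Dl (fc σ F 0 s) = {∅} := by
      ext τ
      rw [Set.mem_singleton_iff]
      constructor
      · intro hτ
        by_contra hne
        obtain ⟨x, hx⟩ := nonempty_iff_ne_empty.2 hne
        obtain ⟨A, ⟨hA, j, _, hj, hAj⟩, _⟩ := hτ.1 x hx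
        have h2 := card_lt_card hA
        have h3 := card_le_card hAj
        rw [hS.card j hj] at h3
        omega
      · rintro rfl
        exact empty_mem_Dl _
    rw [h1]
    exact Cm.nil
  | succ N ih =>
    intro σ s F R hS
    have hN : 0 < N + 1 := Nat.succ_pos N
    have hs := hS.two_le hN
    have hfd : ∀ B : Finset U, ∀ A ∈ {A : Finset U | σ ⊂ A ∧ A ⊆ B}, ∀ C, σ ⊂ C → C ⊆ A →
        C ∈ {A : Finset U | σ ⊂ A ∧ A ⊆ B} := fun B A hA C hC hCA => ⟨hC, hCA.trans hA.2⟩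
    have hun : ∀ i, Dl (fc σ F 0 (i + 1)) = Dl (fc σ F 0 i) ∪ Dl {A | σ ⊂ A ∧ A ⊆ F i} := by
      intro i
      rw [fc_succ, Dl_union fc_down (hfd (F i))
        (fun A hA => hA.elim (fun h5 => h5.1) (fun h5 => h5.1))]
    have hint : ∀ i < s, Dl (fc σ F 0 i) ∩ Dl {A | σ ⊂ A ∧ A ⊆ F i} =
        Dl {A | σ ⊂ A ∧ A ⊆ F i ∧ ¬ R i ⊆ A} := by
      intro i hi
      rw [Dl_inter]
      congr 1
      ext A
      simp only [Set.mem_ofPred_eq, Set.mem_inter_iff]
      constructor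
      · rintro ⟨h1, h2, h3⟩
        exact ⟨h2, h3, (hS.mem_early hi h2 h3).1 h1⟩
      · rintro ⟨h1, h2, h3⟩
        exact ⟨(hS.mem_early hi h1 h2).2 h3, h1, h2⟩
    have hst : ∀ i, i + 1 < s → ∀ N', Cm (St ∅ ∅) (Dl (fc σ F 0 (i + 1))) N' := by
      intro i
      induction i with
      | zero =>
        intro hi N'
        have h1 : fc σ F 0 (0 + 1) = {A | σ ⊂ A ∧ A ⊆ F 0} := by
          ext A
          constructor
          · rintro ⟨h1, j, _, h2, h3⟩
            have h4 : j = 0 := by omega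
            rw [h4] at h3
            exact ⟨h1, h3⟩
          · rintro ⟨h1, h2⟩
            exact ⟨h1, 0, le_rfl, by omega, h2⟩
        rw [h1]
        exact facet_cm (hS.ssub hN (by omega)) N'
      | succ i ihi =>
        intro hi N'
        have his : i + 1 < s := by omega
        rw [hun (i + 1)]
        refine (Cm.union (N := N') (ihi his (N' + 1)) (facet_cm (hS.ssub hN his) (N' + 1)) ?_).mono
          (Nat.le_succ N')
        rw [hint (i + 1) his]
        refine part_cm (R (i + 1)) (hS.R_nonempty his (Nat.succ_pos i)) (F (i + 1))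
          (hS.ssub hN his) (hS.sub (i + 1) his) ?_ N'
        intro h1
        obtain ⟨x, hx⟩ := hS.S_nonempty hi
        rw [mem_sdiff, mem_sdiff, h1, mem_union] at hx
        rcases hx.1.1 with h2 | h2
        · exact hx.1.2 h2
        · exact hx.2 h2
    obtain ⟨i, rfl⟩ : ∃ i, s = i + 1 + 1 := ⟨s - 2, by omega⟩
    have his : i + 1 < i + 1 + 1 := Nat.lt_succ_self _
    have hσ := hS.ssub hN his
    rw [hun (i + 1)]
    refine Cm.union (hst i his (N + 1)) (facet_cm hσ (N + 1)) ?_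
    rw [hint (i + 1) his]
    have hR := hS.R_last (i := i + 1) rfl
    have hRs := hS.sub (i + 1) his
    obtain ⟨s', F', R', h1, h2⟩ := shelled_simplex σ (F (i + 1)) hσ
    have hc := hS.card (i + 1) his
    have e : (F (i + 1)).card - σ.card - 1 = N := by omega
    rw [e] at h1
    have h3 := ih σ s' F' R' h1
    have h4 : fc σ F' 0 s' = {A | σ ⊂ A ∧ A ⊆ F (i + 1) ∧ ¬ R (i + 1) ⊆ A} := by
      ext A
      rw [h2 A]
      simp only [Set.mem_ofPred_eq]
      constructor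
      · rintro ⟨h5, h6⟩
        refine ⟨h5, h6.subset, fun h7 => h6.ne ?_⟩
        refine Subset.antisymm h6.subset fun x hx => ?_
        by_cases h8 : x ∈ σ
        · exact h5.subset h8
        · exact h7 (hR (mem_sdiff.2 ⟨hx, h8⟩))
      · rintro ⟨h5, h6, h7⟩
        refine ⟨h5, h6.ssubset_of_ne fun h8 => h7 ?_⟩
        rw [h8]
        exact hRs.trans sdiff_subset
    rwa [h4] at h3

end Pool.Agent.Helper32.SD
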