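import Pool.Agent.Helper32.SD.Join

/-!
# SD-3 Step: splitting a cell

`Q` a complex, `E', E''` subcomplexes with intersection `C`, `P` a complex with `P ∩ Q = C`; `F, e, d`
three new vertices, `F` and `e` not adjacent.
`B = Q ∪ cn F (E' ∪ P) ∪ cn e (E'' ∪ P)`, `B' = Q ∪ cn F (E' ∪ cn d C) ∪ cn e (E'' ∪ cn d C)`,
`M = Q ∪ cn F E' ∪ cn e E''`.

PROOF. (1) `B = M ∪ S`, `S = cn F P ∪ cn e P` good by `Gd.susp`, `M ∩ S = cn F C ∪ cn e C` good by
`Gd.susp`. So `Gd G M → Gd G B` (`Gd.union`). (2) `B' = M ∪ S'`, `S' = cn F (cn d C) ∪ cn e (cn d C)`,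
`M ∩ S' = cn F C ∪ cn e C`. So `Gd G B' → Gd G M` (`Gd.part`). (3) `B'` is good by `Gd.contract` (edge
`d, F`): `ctrK B' d F = B1 := Q ∪ cn d E' ∪ cn e (E'' ∪ cn d C)`, `lkK B' d F = C`; and `B1` is good by
`Gd.contract` (edge `d, e`): `ctrK B1 d e = Q ∪ cn d (E' ∪ E'')`, `lkK B1 d e = C`. Link conditions: a
face `τ` of `B'` with `insert d τ ∈ B'` has `τ.erase e ∈ C` or `τ.erase F ∈ C`; with `insert F τ ∈ B'`
it does not contain `e`. `Gd (contr G d F) C` follows from `Gd G C` by `Gd.restrict` (`d` is not a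
vertex of `C`). `∅ ∈ C` is needed (`{d, F} ∈ B'`). IsCx of `M`, `B'`: easy from the adjacency
hypotheses.
-/

open Finset Pool.Agent.Helper51.CD

namespace Pool.Agent.Helper32.SD

namespace Step

theorem cn_cx {X : Type} [DecidableEq X] {G : SimpleGraph X} {K : Set (Finset X)} {u : X}
    (hK : IsCx G K) (hu : ∀ τ ∈ K, ∀ x ∈ τ, x ≠ u → G.Adj u x) : IsCx G (cn u K) := by
  constructor
  · intro τ hτ a ha b hb hab
    have hτ' : τ.erase u ∈ K := hτ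
    rw [Finset.mem_coe] at ha hb
    by_cases h1 : a = u
    · subst h1
      exact hu _ hτ' b (Finset.mem_erase.2 ⟨Ne.symm hab, hb⟩) (Ne.symm hab)
    · by_cases h' : b = u
      · subst h'
        exact (hu _ hτ' a (Finset.mem_erase.2 ⟨hab, ha⟩) hab).symm
      · exact hK.clique _ hτ' (Finset.mem_coe.2 (Finset.mem_erase.2 ⟨h1, ha⟩))
          (Finset.mem_coe.2 (Finset.mem_erase.2 ⟨h', hb⟩)) hab
  · intro τ hτ ρ hρ
    exact hK.down _ hτ _ (Finset.erase_subset_erase u hρ)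

theorem un_cx {X : Type} {G : SimpleGraph X} {K L : Set (Finset X)}
    (h1 : IsCx G K) (h2 : IsCx G L) : IsCx G (K ∪ L) := by
  constructor
  · rintro τ (hτ | hτ)
    · exact h1.clique τ hτ
    · exact h2.clique τ hτ
  · rintro τ (hτ | hτ) ρ hρ
    · exact Or.inl (h1.down τ hτ ρ hρ)
    · exact Or.inr (h2.down τ hτ ρ hρ)

theorem mem_cn {X : Type} [DecidableEq X] {u : X} {K : Set (Finset X)} {τ : Finset X} :
    τ ∈ cn u K ↔ τ.erase u ∈ K := Iff.rfl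

section

variable {X : Type} [DecidableEq X] {F e d : X} {Q E' E'' P C : Set (Finset X)}

/-- `M ∩ S = cn F C ∪ cn e C`. -/
theorem inter1 (hFe : F ≠ e) (hE'Q : E' ⊆ Q) (hE''Q : E'' ⊆ Q) (hCE' : C ⊆ E') (hCE'' : C ⊆ E'')
    (hCP : C ⊆ P) (hPQ : P ∩ Q = C)
    (hnQ : ∀ τ ∈ Q, F ∉ τ ∧ e ∉ τ ∧ d ∉ τ) (hnP : ∀ τ ∈ P, F ∉ τ ∧ e ∉ τ ∧ d ∉ τ) :
    (Q ∪ cn F E' ∪ cn e E'') ∩ (cn F P ∪ cn e P) = cn F C ∪ cn e C := by
  have key : ∀ τ, τ ∈ P → τ ∈ Q → τ ∈ C := fun τ h1 h2 => hPQ ▸ (⟨h1, h2⟩ : τ ∈ P ∩ Q)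
  ext τ
  simp only [Set.mem_inter_iff, Set.mem_union, mem_cn]
  constructor
  · rintro ⟨h1, h2 | h2⟩
    · left
      have he : e ∉ τ := fun h => (hnP _ h2).2.1 (Finset.mem_erase.2 ⟨hFe.symm, h⟩)
      rcases h1 with (h1 | h1) | h1
      · have hF := (hnQ _ h1).1
        rw [Finset.erase_eq_of_notMem hF] at h2 ⊢
        exact key _ h2 h1
      · exact key _ h2 (hE'Q h1)
      · rw [Finset.erase_eq_of_notMem he] at h1
        have hF := (hnQ _ (hE''Q h1)).1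
        rw [Finset.erase_eq_of_notMem hF] at h2 ⊢
        exact key _ h2 (hE''Q h1)
    · right
      have hF : F ∉ τ := fun h => (hnP _ h2).1 (Finset.mem_erase.2 ⟨hFe, h⟩)
      rcases h1 with (h1 | h1) | h1
      · have he := (hnQ _ h1).2.1
        rw [Finset.erase_eq_of_notMem he] at h2 ⊢
        exact key _ h2 h1
      · rw [Finset.erase_eq_of_notMem hF] at h1
        have he := (hnQ _ (hE'Q h1)).2.1
        rw [Finset.erase_eq_of_notMem he] at h2 ⊢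
        exact key _ h2 (hE'Q h1)
      · exact key _ h2 (hE''Q h1)
  · rintro (h | h)
    · exact ⟨Or.inl (Or.inr (hCE' h)), Or.inl (hCP h)⟩
    · exact ⟨Or.inr (hCE'' h), Or.inr (hCP h)⟩

/-- `M ∩ S' = cn F C ∪ cn e C`. -/
theorem inter2 (hFd : F ≠ d) (hed : e ≠ d) (hE'Q : E' ⊆ Q) (hE''Q : E'' ⊆ Q) (hCE' : C ⊆ E')
    (hCE'' : C ⊆ E'') (hCdn : ∀ τ ∈ C, ∀ ρ : Finset X, ρ ⊆ τ → ρ ∈ C)
    (hnQ : ∀ τ ∈ Q, F ∉ τ ∧ e ∉ τ ∧ d ∉ τ) :
    (Q ∪ cn F E' ∪ cn e E'') ∩ (cn F (cn d C) ∪ cn e (cn d C)) = cn F C ∪ cn e C := by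
  ext τ
  simp only [Set.mem_inter_iff, Set.mem_union, mem_cn]
  constructor
  · rintro ⟨h1, h2⟩
    have hd : d ∉ τ := by
      rcases h1 with (h1 | h1) | h1
      · exact (hnQ _ h1).2.2
      · exact fun h => (hnQ _ (hE'Q h1)).2.2 (Finset.mem_erase.2 ⟨hFd.symm, h⟩)
      · exact fun h => (hnQ _ (hE''Q h1)).2.2 (Finset.mem_erase.2 ⟨hed.symm, h⟩)
    have hd1 : d ∉ τ.erase F := fun h => hd (Finset.mem_of_mem_erase h)
    have hd2 : d ∉ τ.erase e := fun h => hd (Finset.mem_of_mem_erase h)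
    rwa [Finset.erase_eq_of_notMem hd1, Finset.erase_eq_of_notMem hd2] at h2
  · rintro (h | h)
    · exact ⟨Or.inl (Or.inr (hCE' h)), Or.inl (hCdn _ h _ (Finset.erase_subset _ _))⟩
    · exact ⟨Or.inr (hCE'' h), Or.inr (hCdn _ h _ (Finset.erase_subset _ _))⟩

/-- The contraction of `d, F`. -/
theorem ctr1 (hFe : F ≠ e) (hFd : F ≠ d) (hed : e ≠ d) (hE'Q : E' ⊆ Q) (hE''Q : E'' ⊆ Q)
    (hCE' : C ⊆ E') (hnQ : ∀ τ ∈ Q, F ∉ τ ∧ e ∉ τ ∧ d ∉ τ) :
    ctrK (Q ∪ cn F (E' ∪ cn d C) ∪ cn e (E'' ∪ cn d C)) d F =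
      Q ∪ cn d E' ∪ cn e (E'' ∪ cn d C) := by
  have hCQ : C ⊆ Q := hCE'.trans hE'Q
  ext τ
  simp only [ctrK, Set.mem_setOf_eq, Set.mem_union, mem_cn]
  constructor
  · rintro ⟨hF, h | ⟨hd, h⟩⟩
    · rw [Finset.erase_eq_of_notMem hF] at h
      rcases h with (h | h | h) | h
      · exact Or.inl (Or.inl h)
      · exact Or.inl (Or.inl (hE'Q h))
      · exact Or.inl (Or.inr (hCE' h))
      · exact Or.inr h
    · have hF' : F ∉ τ.erase d := fun h => hF (Finset.mem_of_mem_erase h)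
      rw [Finset.erase_insert hF'] at h
      rcases h with (h | h | h) | h | h
      · exact absurd (Finset.mem_insert_self _ _) (hnQ _ h).1
      · exact Or.inl (Or.inr h)
      · rw [Finset.erase_idem] at h
        exact Or.inl (Or.inr (hCE' h))
      · exact absurd (Finset.mem_erase.2 ⟨hFe, Finset.mem_insert_self _ _⟩) (hnQ _ (hE''Q h)).1
      · exact absurd (Finset.mem_erase.2 ⟨hFd, Finset.mem_erase.2
          ⟨hFe, Finset.mem_insert_self _ _⟩⟩) (hnQ _ (hCQ h)).1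
  · rintro ((h | h) | h)
    · exact ⟨(hnQ _ h).1, Or.inl (Or.inl (Or.inl h))⟩
    · have hF : F ∉ τ := fun h' => (hnQ _ (hE'Q h)).1 (Finset.mem_erase.2 ⟨hFd, h'⟩)
      have hF' : F ∉ τ.erase d := fun h => hF (Finset.mem_of_mem_erase h)
      refine ⟨hF, ?_⟩
      by_cases hd : d ∈ τ
      · refine Or.inr ⟨hd, Or.inl (Or.inr (Or.inl ?_))⟩
        rwa [Finset.erase_insert hF']
      · rw [Finset.erase_eq_of_notMem hd] at h
        exact Or.inl (Or.inl (Or.inl (hE'Q h)))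
    · have hF : F ∉ τ := by
        rcases h with h | h
        · exact fun h' => (hnQ _ (hE''Q h)).1 (Finset.mem_erase.2 ⟨hFe, h'⟩)
        · exact fun h' => (hnQ _ (hCQ h)).1
            (Finset.mem_erase.2 ⟨hFd, Finset.mem_erase.2 ⟨hFe, h'⟩⟩)
      exact ⟨hF, Or.inl (Or.inr h)⟩

/-- The link of `d, F`. -/
theorem lk1 (hFe : F ≠ e) (hFd : F ≠ d) (hE'Q : E' ⊆ Q) (hE''Q : E'' ⊆ Q)
    (hCE' : C ⊆ E') (hnQ : ∀ τ ∈ Q, F ∉ τ ∧ e ∉ τ ∧ d ∉ τ) :
    lkK (Q ∪ cn F (E' ∪ cn d C) ∪ cn e (E'' ∪ cn d C)) d F = C := by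
  have hCQ : C ⊆ Q := hCE'.trans hE'Q
  ext τ
  simp only [lkK, Set.mem_setOf_eq, Set.mem_union, mem_cn]
  constructor
  · rintro ⟨hd, hF, h⟩
    rw [Finset.erase_insert_of_ne hFd.symm, Finset.erase_insert hF, Finset.erase_insert hd] at h
    rcases h with (h | h | h) | h | h
    · exact absurd (Finset.mem_insert_self _ _) (hnQ _ h).2.2
    · exact absurd (Finset.mem_insert_self _ _) (hnQ _ (hE'Q h)).2.2
    · exact h
    · exact absurd (Finset.mem_erase.2 ⟨hFe, Finset.mem_insert_of_mem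
        (Finset.mem_insert_self _ _)⟩) (hnQ _ (hE''Q h)).1
    · exact absurd (Finset.mem_erase.2 ⟨hFd, Finset.mem_erase.2 ⟨hFe, Finset.mem_insert_of_mem
        (Finset.mem_insert_self _ _)⟩⟩) (hnQ _ (hCQ h)).1
  · intro h
    obtain ⟨hF, he, hd⟩ := hnQ _ (hCQ h)
    refine ⟨hd, hF, Or.inl (Or.inr (Or.inr ?_))⟩
    rwa [Finset.erase_insert_of_ne hFd.symm, Finset.erase_insert hF, Finset.erase_insert hd]

/-- The link condition of `d, F`. -/
theorem lc1 (hFe : F ≠ e) (hFd : F ≠ d) (hed : e ≠ d) (hE'Q : E' ⊆ Q) (hE''Q : E'' ⊆ Q)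
    (hCE' : C ⊆ E') (hnQ : ∀ τ ∈ Q, F ∉ τ ∧ e ∉ τ ∧ d ∉ τ) (τ : Finset X) (hd : d ∉ τ)
    (hF : F ∉ τ)
    (h1 : insert d τ ∈ Q ∪ cn F (E' ∪ cn d C) ∪ cn e (E'' ∪ cn d C))
    (h2 : insert F τ ∈ Q ∪ cn F (E' ∪ cn d C) ∪ cn e (E'' ∪ cn d C)) :
    insert d (insert F τ) ∈ Q ∪ cn F (E' ∪ cn d C) ∪ cn e (E'' ∪ cn d C) := by
  have hCQ : C ⊆ Q := hCE'.trans hE'Q
  have hin : τ ∈ C → insert d (insert F τ) ∈ Q ∪ cn F (E' ∪ cn d C) ∪ cn e (E'' ∪ cn d C) := by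
    intro h
    have : τ ∈ lkK (Q ∪ cn F (E' ∪ cn d C) ∪ cn e (E'' ∪ cn d C)) d F := by
      rw [lk1 hFe hFd hE'Q hE''Q hCE' hnQ]
      exact h
    exact this.2.2
  apply hin
  simp only [Set.mem_union, mem_cn] at h1 h2
  have he : e ∉ τ := by
    rw [Finset.erase_insert hF] at h2
    rcases h2 with (h2 | h2 | h2) | h2 | h2
    · exact absurd (Finset.mem_insert_self _ _) (hnQ _ h2).1
    · exact (hnQ _ (hE'Q h2)).2.1
    · exact fun h => (hnQ _ (hCQ h2)).2.1 (Finset.mem_erase.2 ⟨hed, h⟩)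
    · exact absurd (Finset.mem_erase.2 ⟨hFe, Finset.mem_insert_self _ _⟩) (hnQ _ (hE''Q h2)).1
    · exact absurd (Finset.mem_erase.2 ⟨hFd, Finset.mem_erase.2
          ⟨hFe, Finset.mem_insert_self _ _⟩⟩) (hnQ _ (hCQ h2)).1
  have he' : e ∉ insert d τ := by
    rw [Finset.mem_insert]
    rintro (h | h)
    · exact hed h
    · exact he h
  have hF' : F ∉ insert d τ := by
    rw [Finset.mem_insert]
    rintro (h | h)
    · exact hFd h
    · exact hF h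
  rw [Finset.erase_eq_of_notMem hF', Finset.erase_eq_of_notMem he', Finset.erase_insert hd] at h1
  rcases h1 with (h1 | h1 | h1) | h1 | h1
  · exact absurd (Finset.mem_insert_self _ _) (hnQ _ h1).2.2
  · exact absurd (Finset.mem_insert_self _ _) (hnQ _ (hE'Q h1)).2.2
  · exact h1
  · exact absurd (Finset.mem_insert_self _ _) (hnQ _ (hE''Q h1)).2.2
  · exact h1

/-- The contraction of `d, e`. -/
theorem ctr2 (hed : e ≠ d) (hE'Q : E' ⊆ Q) (hE''Q : E'' ⊆ Q)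
    (hCE' : C ⊆ E') (hCE'' : C ⊆ E'') (hnQ : ∀ τ ∈ Q, F ∉ τ ∧ e ∉ τ ∧ d ∉ τ) :
    ctrK (Q ∪ cn d E' ∪ cn e (E'' ∪ cn d C)) d e = Q ∪ cn d (E' ∪ E'') := by
  ext τ
  simp only [ctrK, Set.mem_setOf_eq, Set.mem_union, mem_cn]
  constructor
  · rintro ⟨he, h | ⟨hd, h⟩⟩
    · rw [Finset.erase_eq_of_notMem he] at h
      rcases h with (h | h) | h | h
      · exact Or.inl h
      · exact Or.inr (Or.inl h)
      · exact Or.inl (hE''Q h)
      · exact Or.inr (Or.inl (hCE' h))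
    · have he' : e ∉ τ.erase d := fun h => he (Finset.mem_of_mem_erase h)
      rw [Finset.erase_insert he', Finset.erase_idem] at h
      rcases h with (h | h) | h | h
      · exact absurd (Finset.mem_insert_self _ _) (hnQ _ h).2.1
      · exact absurd (Finset.mem_erase.2 ⟨hed, Finset.mem_insert_self _ _⟩) (hnQ _ (hE'Q h)).2.1
      · exact Or.inr (Or.inr h)
      · exact Or.inr (Or.inl (hCE' h))
  · rintro (h | h | h)
    · exact ⟨(hnQ _ h).2.1, Or.inl (Or.inl (Or.inl h))⟩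
    · exact ⟨fun h' => (hnQ _ (hE'Q h)).2.1 (Finset.mem_erase.2 ⟨hed, h'⟩),
        Or.inl (Or.inl (Or.inr h))⟩
    · have he : e ∉ τ := fun h' => (hnQ _ (hE''Q h)).2.1 (Finset.mem_erase.2 ⟨hed, h'⟩)
      have he' : e ∉ τ.erase d := fun h => he (Finset.mem_of_mem_erase h)
      refine ⟨he, ?_⟩
      by_cases hd : d ∈ τ
      · refine Or.inr ⟨hd, Or.inr (Or.inl ?_)⟩
        rwa [Finset.erase_insert he']
      · rw [Finset.erase_eq_of_notMem hd] at h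
        exact Or.inl (Or.inl (Or.inl (hE''Q h)))

/-- The link of `d, e`. -/
theorem lk2 (hed : e ≠ d) (hE'Q : E' ⊆ Q) (hE''Q : E'' ⊆ Q)
    (hCE' : C ⊆ E') (hnQ : ∀ τ ∈ Q, F ∉ τ ∧ e ∉ τ ∧ d ∉ τ) :
    lkK (Q ∪ cn d E' ∪ cn e (E'' ∪ cn d C)) d e = C := by
  have hCQ : C ⊆ Q := hCE'.trans hE'Q
  ext τ
  simp only [lkK, Set.mem_setOf_eq, Set.mem_union, mem_cn]
  constructor
  · rintro ⟨hd, he, h⟩
    have hd' : d ∉ insert e τ := by
      rw [Finset.mem_insert]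
      rintro (h | h)
      · exact hed h.symm
      · exact hd h
    rw [Finset.erase_insert hd', Finset.erase_insert_of_ne hed.symm, Finset.erase_insert he,
      Finset.erase_insert hd] at h
    rcases h with (h | h) | h | h
    · exact absurd (Finset.mem_insert_self _ _) (hnQ _ h).2.2
    · exact absurd (Finset.mem_insert_self _ _) (hnQ _ (hE'Q h)).2.1
    · exact absurd (Finset.mem_insert_self _ _) (hnQ _ (hE''Q h)).2.2
    · exact h
  · intro h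
    obtain ⟨hF, he, hd⟩ := hnQ _ (hCQ h)
    refine ⟨hd, he, Or.inr (Or.inr ?_)⟩
    rwa [Finset.erase_insert_of_ne hed.symm, Finset.erase_insert he, Finset.erase_insert hd]

/-- The link condition of `d, e`. -/
theorem lc2 (hed : e ≠ d) (hE'Q : E' ⊆ Q) (hE''Q : E'' ⊆ Q) (hCE' : C ⊆ E')
    (hC : E' ∩ E'' = C) (hnQ : ∀ τ ∈ Q, F ∉ τ ∧ e ∉ τ ∧ d ∉ τ) (τ : Finset X) (hd : d ∉ τ)
    (he : e ∉ τ)
    (h1 : insert d τ ∈ Q ∪ cn d E' ∪ cn e (E'' ∪ cn d C))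
    (h2 : insert e τ ∈ Q ∪ cn d E' ∪ cn e (E'' ∪ cn d C)) :
    insert d (insert e τ) ∈ Q ∪ cn d E' ∪ cn e (E'' ∪ cn d C) := by
  have hin : τ ∈ C → insert d (insert e τ) ∈ Q ∪ cn d E' ∪ cn e (E'' ∪ cn d C) := by
    intro h
    have : τ ∈ lkK (Q ∪ cn d E' ∪ cn e (E'' ∪ cn d C)) d e := by
      rw [lk2 hed hE'Q hE''Q hCE' hnQ]
      exact h
    exact this.2.2
  apply hin
  simp only [Set.mem_union, mem_cn] at h1 h2
  have he' : e ∉ insert d τ := by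
    rw [Finset.mem_insert]
    rintro (h | h)
    · exact hed h
    · exact he h
  rw [Finset.erase_eq_of_notMem he', Finset.erase_insert hd] at h1
  rw [Finset.erase_insert he, Finset.erase_eq_of_notMem hd] at h2
  have hd' : d ∉ insert e τ := by
    rw [Finset.mem_insert]
    rintro (h | h)
    · exact hed h.symm
    · exact hd h
  rw [Finset.erase_eq_of_notMem hd'] at h2
  rcases h2 with (h2 | h2) | h2 | h2
  · exact absurd (Finset.mem_insert_self _ _) (hnQ _ h2).2.1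
  · exact absurd (Finset.mem_insert_self _ _) (hnQ _ (hE'Q h2)).2.1
  · rcases h1 with (h1 | h1) | h1 | h1
    · exact absurd (Finset.mem_insert_self _ _) (hnQ _ h1).2.2
    · rw [← hC]
      exact ⟨h1, h2⟩
    · exact absurd (Finset.mem_insert_self _ _) (hnQ _ (hE''Q h1)).2.2
    · exact h1
  · exact h2

end

end Step

open Step in
theorem step {X : Type} [Fintype X] [DecidableEq X] {G : SimpleGraph X} {F e d : X}
    (hFe : F ≠ e) (hFd : F ≠ d) (hed : e ≠ d) (hna : ¬ G.Adj F e)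
    {Q E' E'' P C : Set (Finset X)} (hQ : IsCx G Q) (hE' : IsCx G E') (hE'' : IsCx G E'')
    (hP : IsCx G P) (hE'Q : E' ⊆ Q) (hE''Q : E'' ⊆ Q) (hC : E' ∩ E'' = C) (hPQ : P ∩ Q = C)
    (h0 : ∅ ∈ C) (hnQ : ∀ τ ∈ Q, F ∉ τ ∧ e ∉ τ ∧ d ∉ τ) (hnP : ∀ τ ∈ P, F ∉ τ ∧ e ∉ τ ∧ d ∉ τ)
    (hFE : ∀ τ ∈ E', ∀ x ∈ τ, G.Adj F x) (hFP : ∀ τ ∈ P, ∀ x ∈ τ, G.Adj F x)
    (heE : ∀ τ ∈ E'', ∀ x ∈ τ, G.Adj e x) (heP : ∀ τ ∈ P, ∀ x ∈ τ, G.Adj e x)
    (hdC : ∀ τ ∈ C, ∀ x ∈ τ, G.Adj d x) (hdF : G.Adj d F) (hde : G.Adj d e)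
    (gC : Gd G C) (gB : Gd (contr (contr G d F) d e) (Q ∪ cn d (E' ∪ E''))) :
    Gd G (Q ∪ cn F (E' ∪ P) ∪ cn e (E'' ∪ P)) := by
  have hCE' : C ⊆ E' := hC ▸ Set.inter_subset_left
  have hCE'' : C ⊆ E'' := hC ▸ Set.inter_subset_right
  have hCP : C ⊆ P := hPQ ▸ Set.inter_subset_left
  have hCQ : C ⊆ Q := hPQ ▸ Set.inter_subset_right
  have hCx : IsCx G C := gC.cx
  have hFC : ∀ τ ∈ C, ∀ x ∈ τ, G.Adj F x := fun τ h => hFE τ (hCE' h)
  have heC : ∀ τ ∈ C, ∀ x ∈ τ, G.Adj e x := fun τ h => heE τ (hCE'' h)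
  have hdCx : IsCx G (cn d C) := cn_cx hCx (fun τ h x hx _ => hdC τ h x hx)
  have hFdC : ∀ τ ∈ cn d C, ∀ x ∈ τ, G.Adj F x := by
    intro τ h x hx
    by_cases hxd : x = d
    · rw [hxd]
      exact hdF.symm
    · exact hFC _ h x (Finset.mem_erase.2 ⟨hxd, hx⟩)
  have hedC : ∀ τ ∈ cn d C, ∀ x ∈ τ, G.Adj e x := by
    intro τ h x hx
    by_cases hxd : x = d
    · rw [hxd]
      exact hde.symm
    · exact heC _ h x (Finset.mem_erase.2 ⟨hxd, hx⟩)
  have h0d : (∅ : Finset X) ∈ cn d C := by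
    rw [mem_cn, Finset.erase_empty]
    exact h0
  have hM : IsCx G (Q ∪ cn F E' ∪ cn e E'') :=
    un_cx (un_cx hQ (cn_cx hE' (fun τ h x hx _ => hFE τ h x hx)))
      (cn_cx hE'' (fun τ h x hx _ => heE τ h x hx))
  have hS' : IsCx G (cn F (cn d C) ∪ cn e (cn d C)) :=
    un_cx (cn_cx hdCx (fun τ h x hx _ => hFdC τ h x hx))
      (cn_cx hdCx (fun τ h x hx _ => hedC τ h x hx))
  have gSC : Gd G (cn F C ∪ cn e C) := Gd.susp hFe hna hCx h0 hFC heC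
  have hB' : IsCx G (Q ∪ cn F (E' ∪ cn d C) ∪ cn e (E'' ∪ cn d C)) := by
    refine un_cx (un_cx hQ (cn_cx (un_cx hE' hdCx) ?_)) (cn_cx (un_cx hE'' hdCx) ?_)
    · rintro τ (h | h) x hx _
      · exact hFE τ h x hx
      · exact hFdC τ h x hx
    · rintro τ (h | h) x hx _
      · exact heE τ h x hx
      · exact hedC τ h x hx
  have le1 : G ≤ contr G d F := fun a b h => ⟨h.ne, Or.inl h⟩
  have mono : ∀ K, IsCx G K → IsCx (contr G d F) K := fun K h =>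
    ⟨fun τ hτ a ha b hb hab => le1 (h.clique τ hτ ha hb hab), h.down⟩
  -- the second contraction
  have gB1 : Gd (contr G d F) (Q ∪ cn d E' ∪ cn e (E'' ∪ cn d C)) := by
    refine Gd.contract hed.symm ?_ ?_ (lc2 hed hE'Q hE''Q hCE' hC hnQ) ?_ ?_
    · refine un_cx (un_cx (mono _ hQ) (cn_cx (mono _ hE') ?_))
        (cn_cx (un_cx (mono _ hE'') (mono _ hdCx)) ?_)
      · intro τ h x hx hxd
        exact ⟨Ne.symm hxd, Or.inr (Or.inl ⟨rfl, hFE τ h x hx⟩)⟩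
      · rintro τ (h | h) x hx _
        · exact le1 (heE τ h x hx)
        · exact le1 (hedC τ h x hx)
    · right
      right
      rw [mem_cn]
      have : (({d, e} : Finset X).erase e).erase d = ∅ := by
        ext x
        simp only [Finset.mem_erase, Finset.mem_insert, Finset.mem_singleton, Finset.notMem_empty,
          iff_false]
        tauto
      rw [this]
      exact h0
    · rw [ctr2 hed hE'Q hE''Q hCE' hCE'' hnQ]
      exact gB
    · rw [lk2 hed hE'Q hE''Q hCE' hnQ]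
      refine gC.restrict (mono _ hCx) ?_
      rintro x y hx hy ⟨_, h | h | h⟩
      · exact h
      · exact absurd (Finset.mem_singleton.2 h.1.symm) (hnQ _ (hCQ hx)).2.2
      · exact absurd (Finset.mem_singleton.2 h.1.symm) (hnQ _ (hCQ hy)).2.2
  -- the first contraction
  have gB' : Gd G (Q ∪ cn F (E' ∪ cn d C) ∪ cn e (E'' ∪ cn d C)) := by
    refine Gd.contract hFd.symm hB' ?_ (lc1 hFe hFd hed hE'Q hE''Q hCE' hnQ) ?_ ?_
    · left
      right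
      right
      rw [mem_cn]
      have : (({d, F} : Finset X).erase F).erase d = ∅ := by
        ext x
        simp only [Finset.mem_erase, Finset.mem_insert, Finset.mem_singleton, Finset.notMem_empty,
          iff_false]
        tauto
      rw [this]
      exact h0
    · rw [ctr1 hFe hFd hed hE'Q hE''Q hCE' hnQ]
      exact gB1
    · rw [lk1 hFe hFd hE'Q hE''Q hCE' hnQ]
      exact gC
  have gM : Gd G (Q ∪ cn F E' ∪ cn e E'') := by
    refine Gd.part (L := cn F (cn d C) ∪ cn e (cn d C)) hM hS' ?_ ?_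
    · have : Q ∪ cn F E' ∪ cn e E'' ∪ (cn F (cn d C) ∪ cn e (cn d C)) =
          Q ∪ cn F (E' ∪ cn d C) ∪ cn e (E'' ∪ cn d C) := by
        ext τ
        simp only [Set.mem_union, mem_cn]
        tauto
      rw [this]
      exact gB'
    · rw [inter2 hFd hed hE'Q hE''Q hCE' hCE'' hCx.down hnQ]
      exact gSC
  have hB : Q ∪ cn F (E' ∪ P) ∪ cn e (E'' ∪ P) =
      (Q ∪ cn F E' ∪ cn e E'') ∪ (cn F P ∪ cn e P) := by
    ext τ
    simp only [Set.mem_union, mem_cn]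
    tauto
  rw [hB]
  refine Gd.union gM (Gd.susp hFe hna hP (hCP h0) hFP heP) ?_
  rw [inter1 hFe hE'Q hE''Q hCE' hCE'' hCP hPQ hnQ hnP]
  exact gSC

end Pool.Agent.Helper32.SD
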